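import Mathlib

set_option autoImplicit false

namespace Pool.Agent.H103R3

open scoped InnerProductSpace

variable {E : Type*} [NormedAddCommGroup E] [InnerProductSpace ℂ E] [FiniteDimensional ℂ E]
variable {J : Type*} [Fintype J]

/-- The tensor `∑ A_j ⊗ A_j` is symmetric in its two inputs. -/
def Bisym (A : J → E →ₗ[ℂ] E) : Prop :=
  ∀ a b c e : E, ∑ j, ⟪a, A j c⟫_ℂ * ⟪b, A j e⟫_ℂ = ∑ j, ⟪a, A j e⟫_ℂ * ⟪b, A j c⟫_ℂ

/-- the span of the images of `a`. -/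
def V (A : J → E →ₗ[ℂ] E) (a : E) : Submodule ℂ E := Submodule.span ℂ (Set.range fun j => A j a)

theorem mem_V_orth (A : J → E →ₗ[ℂ] E) (a y : E) :
    y ∈ (V A a)ᗮ ↔ ∀ j, ⟪y, A j a⟫_ℂ = 0 := by
  constructor
  · intro h j
    exact (Submodule.mem_orthogonal' _ _).mp h _ (Submodule.subset_span ⟨j, rfl⟩)
  · intro h
    rw [Submodule.mem_orthogonal']
    intro u hu
    induction hu using Submodule.span_induction with
    | mem x hx => obtain ⟨j, rfl⟩ := hx; exact h j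
    | zero => simp
    | add x y _ _ hx hy => rw [inner_add_right, hx, hy, add_zero]
    | smul c x _ hx => rw [inner_smul_right, hx, mul_zero]

theorem symm_inner {A : J → E →ₗ[ℂ] E} (hA : ∀ j, (A j).IsSymmetric) (j : J) (x y : E) :
    ⟪A j x, y⟫_ℂ = ⟪x, A j y⟫_ℂ := hA j x y

/-- `∑ |⟨y, A_j x⟩|² = ∑ ⟨x, A_j x⟩ ⟨y, A_j y⟩`. -/
theorem sum_normSq {A : J → E →ₗ[ℂ] E} (hA : ∀ j, (A j).IsSymmetric) (hS : Bisym A) (x y : E) :
    ((∑ j, ‖⟪y, A j x⟫_ℂ‖ ^ 2 : ℝ) : ℂ) = ∑ j, ⟪x, A j x⟫_ℂ * ⟪y, A j y⟫_ℂ := by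
  have h := hS y x x y
  push_cast
  calc ∑ j, ((‖⟪y, A j x⟫_ℂ‖ : ℝ) : ℂ) ^ 2 = ∑ j, ⟪y, A j x⟫_ℂ * ⟪x, A j y⟫_ℂ := by
        refine Finset.sum_congr rfl fun j _ => ?_
        rw [← symm_inner hA j x y, ← inner_conj_symm (A j x) y, RCLike.mul_conj]
        norm_cast
    _ = _ := by
        rw [h]
        refine Finset.sum_congr rfl fun j _ => ?_
        ring

/-- There is a vector `a` such that everything orthogonal to all `A_j a` is killed by all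
`A_j`. -/
theorem exists_generic {A : J → E →ₗ[ℂ] E} (hA : ∀ j, (A j).IsSymmetric) (hS : Bisym A) :
    ∃ a : E, ∀ f : E, (∀ j, ⟪f, A j a⟫_ℂ = 0) → ∀ j, A j f = 0 := by
  classical
  -- maximal dimension
  obtain ⟨a, ha⟩ : ∃ a : E, ∀ x : E, Module.finrank ℂ (V A x) ≤ Module.finrank ℂ (V A a) := by
    have hfin : (Set.range fun x : E => Module.finrank ℂ (V A x)).Finite := by
      refine (Set.finite_Iic (Module.finrank ℂ E)).subset ?_
      rintro _ ⟨x, rfl⟩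
      exact Submodule.finrank_le _
    obtain ⟨_, ⟨a, rfl⟩, h⟩ := Set.exists_max_image _ id hfin ⟨_, ⟨0, rfl⟩⟩
    exact ⟨a, fun x => h _ ⟨x, rfl⟩⟩
  refine ⟨a, fun f hf => ?_⟩
  have hf' : ∀ j, ⟪a, A j f⟫_ℂ = 0 := by
    intro j
    rw [← symm_inner hA, ← inner_conj_symm, hf j, map_zero]
  -- the key decomposition
  have key : ∀ y : E, (∑ j, ‖⟪y, A j (a + f)⟫_ℂ‖ ^ 2 : ℝ) =
      (∑ j, ‖⟪y, A j a⟫_ℂ‖ ^ 2 : ℝ) + (∑ j, ‖⟪y, A j f⟫_ℂ‖ ^ 2 : ℝ) := by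
    intro y
    have h : (((∑ j, ‖⟪y, A j (a + f)⟫_ℂ‖ ^ 2 : ℝ)) : ℂ) =
      (((∑ j, ‖⟪y, A j a⟫_ℂ‖ ^ 2 : ℝ) + (∑ j, ‖⟪y, A j f⟫_ℂ‖ ^ 2 : ℝ) : ℝ) : ℂ) := by
      rw [Complex.ofReal_add, sum_normSq hA hS, sum_normSq hA hS, sum_normSq hA hS,
        ← Finset.sum_add_distrib]
      refine Finset.sum_congr rfl fun j _ => ?_
      rw [map_add, inner_add_left, inner_add_right, inner_add_right, hf j, hf' j]
      ring
    exact_mod_cast h
  have hsub : (V A (a + f))ᗮ ≤ (V A a)ᗮ ⊓ (V A f)ᗮ := by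
    intro y hy
    rw [mem_V_orth] at hy
    have h0 := key y
    have h1 : (∑ j, ‖⟪y, A j (a + f)⟫_ℂ‖ ^ 2 : ℝ) = 0 := by
      refine Finset.sum_eq_zero fun j _ => ?_
      rw [hy j]; simp
    rw [h1] at h0
    have h2 : (0 : ℝ) ≤ ∑ j, ‖⟪y, A j a⟫_ℂ‖ ^ 2 := Finset.sum_nonneg fun j _ => by positivity
    have h3 : (0 : ℝ) ≤ ∑ j, ‖⟪y, A j f⟫_ℂ‖ ^ 2 := Finset.sum_nonneg fun j _ => by positivity
    have h4 : (∑ j, ‖⟪y, A j a⟫_ℂ‖ ^ 2 : ℝ) = 0 := by linarith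
    have h5 : (∑ j, ‖⟪y, A j f⟫_ℂ‖ ^ 2 : ℝ) = 0 := by linarith
    rw [Finset.sum_eq_zero_iff_of_nonneg (fun j _ => by positivity)] at h4 h5
    refine ⟨(mem_V_orth A a y).mpr fun j => ?_, (mem_V_orth A f y).mpr fun j => ?_⟩
    · have := h4 j (Finset.mem_univ j)
      simpa using this
    · have := h5 j (Finset.mem_univ j)
      simpa using this
  have hle : V A a ≤ V A (a + f) := by
    have h1 : (V A (a + f))ᗮ ≤ (V A a)ᗮ := hsub.trans inf_le_left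
    have h2 := Submodule.orthogonal_le h1
    rwa [Submodule.orthogonal_orthogonal, Submodule.orthogonal_orthogonal] at h2
  have hlef : V A f ≤ V A (a + f) := by
    have h1 : (V A (a + f))ᗮ ≤ (V A f)ᗮ := hsub.trans inf_le_right
    have h2 := Submodule.orthogonal_le h1
    rwa [Submodule.orthogonal_orthogonal, Submodule.orthogonal_orthogonal] at h2
  have heq : V A a = V A (a + f) := Submodule.eq_of_le_of_finrank_le hle (ha _)
  rw [← heq] at hlef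
  -- `f ⊥ V A a ≥ V A f`
  have hff : ∀ j, ⟪f, A j f⟫_ℂ = 0 := by
    intro j
    have h1 : f ∈ (V A a)ᗮ := (mem_V_orth A a f).mpr hf
    exact (Submodule.mem_orthogonal' _ _).mp h1 _ (hlef (Submodule.subset_span ⟨j, rfl⟩))
  intro j
  have h6 := sum_normSq hA hS f (A j f)
  have h7 : (∑ i, ⟪f, A i f⟫_ℂ * ⟪A j f, A i (A j f)⟫_ℂ) = 0 :=
    Finset.sum_eq_zero fun i _ => by rw [hff i, zero_mul]
  rw [h7] at h6
  have h8 : (∑ i, ‖⟪A j f, A i f⟫_ℂ‖ ^ 2 : ℝ) = 0 := by exact_mod_cast h6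
  rw [Finset.sum_eq_zero_iff_of_nonneg (fun j _ => by positivity)] at h8
  have h9 := h8 j (Finset.mem_univ j)
  have h10 : ⟪A j f, A j f⟫_ℂ = 0 := by simpa using h9
  exact inner_self_eq_zero.mp h10

/-- the images lie in `V A a`. -/
theorem range_sub {A : J → E →ₗ[ℂ] E} (hA : ∀ j, (A j).IsSymmetric) {a : E}
    (ha : ∀ f : E, (∀ j, ⟪f, A j a⟫_ℂ = 0) → ∀ j, A j f = 0) (j : J) (y : E) :
    A j y ∈ V A a := by
  rw [← Submodule.orthogonal_orthogonal (V A a), Submodule.mem_orthogonal]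
  intro f hf
  rw [mem_V_orth] at hf
  rw [← symm_inner hA, ha f hf j, inner_zero_left]

end Pool.Agent.H103R3
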