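import Mathlib
import Pool.Agent.H103R3.Bisym1

set_option autoImplicit false
set_option linter.unusedSectionVars false

namespace Pool.Agent.H103R3

open scoped InnerProductSpace

/-- Simultaneous diagonalisation of commuting real symmetric operators on `ℝ^J`. -/
theorem exists_joint_basis {J : Type*} [Fintype J] (T : J → EuclideanSpace ℝ J →ₗ[ℝ] EuclideanSpace ℝ J)
    (hT : ∀ j, (T j).IsSymmetric) (hC : ∀ i j, T i ∘ₗ T j = T j ∘ₗ T i) :
    ∃ (f : OrthonormalBasis (Fin (Fintype.card J)) ℝ (EuclideanSpace ℝ J))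
      (μ : J → Fin (Fintype.card J) → ℝ), ∀ j i, T j (f i) = μ j i • f i := by
  classical
  have hcomm : Pairwise (Function.onFun Commute T) := fun i j _ => hC i j
  have hint := LinearMap.IsSymmetric.directSum_isInternal_of_pairwise_commute hT hcomm
  have hort := LinearMap.IsSymmetric.orthogonalFamily_iInf_eigenspaces hT
  set W : (J → ℝ) → Submodule ℝ (EuclideanSpace ℝ J) :=
    fun α => ⨅ j, Module.End.eigenspace (T j) (α j) with hW
  have hint' := DirectSum.isInternal_ne_bot_iff.mpr hint
  haveI : Fintype {α // W α ≠ ⊥} := hint.submodule_iSupIndep.fintypeNeBotOfFiniteDimensional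
  have hort' : OrthogonalFamily ℝ (fun α : {α // W α ≠ ⊥} => W α)
      fun α => (W α).subtypeₗᵢ := hort.comp Subtype.val_injective
  have hn : Module.finrank ℝ (EuclideanSpace ℝ J) = Fintype.card J := finrank_euclideanSpace
  refine ⟨hint'.subordinateOrthonormalBasis hn hort',
    fun j i => (hint'.subordinateOrthonormalBasisIndex hn i hort').1 j, fun j i => ?_⟩
  have h := hint'.subordinateOrthonormalBasis_subordinate hn i hort'
  have h2 := (Submodule.mem_iInf _).mp h j
  exact Module.End.mem_eigenspace_iff.mp h2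

variable {E : Type*} [NormedAddCommGroup E] [InnerProductSpace ℂ E] [FiniteDimensional ℂ E]
variable {J : Type*} [Fintype J] [DecidableEq J]

/-- dual family of a linearly independent family, inside its span. -/
theorem exists_dual (v : J → E) (hv : LinearIndependent ℂ v) :
    ∃ u : J → E, (∀ k, u k ∈ Submodule.span ℂ (Set.range v)) ∧
      (∀ k j, ⟪u k, v j⟫_ℂ = if k = j then 1 else 0) := by
  set Z := Submodule.span ℂ (Set.range v) with hZ
  let b : Module.Basis J ℂ Z := Module.Basis.span hv
  let u : J → Z := fun k =>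
    (InnerProductSpace.toDual ℂ Z).symm (LinearMap.toContinuousLinearMap (b.coord k))
  refine ⟨fun k => (u k : E), fun k => (u k).2, fun k j => ?_⟩
  have hb : ((b j : Z) : E) = v j := congrArg Subtype.val (Module.Basis.span_apply hv j)
  have h1 : ⟪u k, b j⟫_ℂ = b.coord k (b j) := by
    simp only [u]
    rw [InnerProductSpace.toDual_symm_apply]
    rfl
  rw [← hb, ← Submodule.coe_inner, h1]
  simp [Module.Basis.coord_apply, Finsupp.single_apply, eq_comm]

/-- The structure theorem: if the vectors `A_j a` are linearly independent then `∑ A_j ⊗ A_j` is a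
sum of `|J|` terms `(z zᴴ) ⊗ (z zᴴ)`. -/
theorem structure_theorem {A : J → E →ₗ[ℂ] E} (hA : ∀ j, (A j).IsSymmetric) (hS : Bisym A) {a : E}
    (ha : ∀ f : E, (∀ j, ⟪f, A j a⟫_ℂ = 0) → ∀ j, A j f = 0)
    (hli : LinearIndependent ℂ fun j => A j a) :
    ∃ (z : Fin (Fintype.card J) → E) (l : Fin (Fintype.card J) → ℝ),
      LinearIndependent ℂ z ∧
      ∀ p c q e : E, ∑ j, ⟪p, A j c⟫_ℂ * ⟪q, A j e⟫_ℂ =
        ∑ i, ((l i : ℂ) * ⟪z i, c⟫_ℂ * ⟪p, z i⟫_ℂ) * ((l i : ℂ) * ⟪z i, e⟫_ℂ * ⟪q, z i⟫_ℂ) := by
  set v : J → E := fun j => A j a with hv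
  obtain ⟨u, huZ, huv⟩ := exists_dual v hli
  have hZV : Submodule.span ℂ (Set.range v) = V A a := rfl
  -- first symmetry
  have key : ∀ (k : J) (y e : E), ⟪y, A k e⟫_ℂ = ∑ j, ⟪u k, A j e⟫_ℂ * ⟪y, v j⟫_ℂ := by
    intro k y e
    have h := hS (u k) y a e
    have h1 : ∑ j, ⟪u k, A j a⟫_ℂ * ⟪y, A j e⟫_ℂ = ⟪y, A k e⟫_ℂ := by
      have h2 : ∀ j, ⟪u k, A j a⟫_ℂ * ⟪y, A j e⟫_ℂ = if k = j then ⟪y, A j e⟫_ℂ else 0 := by
        intro j
        have h3 : ⟪u k, A j a⟫_ℂ = if k = j then 1 else 0 := huv k j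
        rw [h3]
        split_ifs <;> simp
      rw [Finset.sum_congr rfl fun j _ => h2 j]
      simp
    rw [h1] at h
    exact h
  have sym1 : ∀ (l k : J) (e : E), ⟪u l, A k e⟫_ℂ = ⟪u k, A l e⟫_ℂ := by
    intro l k e
    rw [key k (u l) e]
    have h2 : ∀ j, ⟪u k, A j e⟫_ℂ * ⟪u l, v j⟫_ℂ = if l = j then ⟪u k, A j e⟫_ℂ else 0 := by
      intro j
      rw [huv l j]
      split_ifs <;> simp
    rw [Finset.sum_congr rfl fun j _ => h2 j]
    simp
  set T : J → J → J → ℂ := fun l k p => ⟪u l, A k (u p)⟫_ℂ with hT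
  have s1 : ∀ l k p, T l k p = T k l p := fun l k p => sym1 l k (u p)
  have s2 : ∀ l k p, T p k l = star (T l k p) := by
    intro l k p
    simp only [hT]
    rw [← symm_inner hA, ← inner_conj_symm]
    rfl
  have s3 : ∀ l k p, star (T l k p) = T l k p := by
    intro l k p
    -- `conj T_{lkp} = T_{pkl} = T_{kpl} = conj (T_{lpk}) = conj (T_{plk}) = T_{klp} = T_{lkp}`
    calc star (T l k p) = T p k l := (s2 l k p).symm
      _ = T k p l := s1 _ _ _
      _ = star (T l p k) := s2 _ _ _
      _ = star (T p l k) := by rw [s1]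
      _ = T k l p := (s2 _ _ _).symm
      _ = T l k p := s1 _ _ _
  have s4 : ∀ l k p, T p k l = T l k p := fun l k p => by rw [s2, s3]
  set t : J → J → J → ℝ := fun l k p => (T l k p).re with ht
  have tT : ∀ l k p, ((t l k p : ℝ) : ℂ) = T l k p := by
    intro l k p
    have h := s3 l k p
    simp only [ht]
    exact Complex.conj_eq_iff_re.mp h
  have t1 : ∀ l k p, t l k p = t k l p := fun l k p => by simp only [ht]; rw [s1]
  have t2 : ∀ l k p, t p k l = t l k p := fun l k p => by simp only [ht]; rw [s4]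
  have t3 : ∀ l k p, t l p k = t l k p := fun l k p => by rw [t1 l p k, t2 k l p, t1 k l p]
  -- the commuting matrices
  let M : J → Matrix J J ℝ := fun k => Matrix.of fun l p => t l k p
  have hMsym : ∀ k, (M k).IsHermitian := by
    intro k
    ext l p
    simp [M, t2]
  have hMcomm : ∀ α β, M α * M β = M β * M α := by
    intro α β
    ext γ η
    simp only [M, Matrix.mul_apply, Matrix.of_apply]
    have h := hS (u α) (u β) (u γ) (u η)
    have e1 : ∀ j, t γ α j * t j β η = t α j γ * t β j η := by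
      intro j
      rw [t1 γ α j, t3 α j γ, t1 j β η]
    have e2 : ∀ j, t γ β j * t j α η = t α j η * t β j γ := by
      intro j
      rw [t1 γ β j, t3 β j γ, t1 j α η, mul_comm]
    rw [Finset.sum_congr rfl fun j _ => e1 j, Finset.sum_congr rfl fun j _ => e2 j]
    have h' : ((∑ j, t α j γ * t β j η : ℝ) : ℂ) = ((∑ j, t α j η * t β j γ : ℝ) : ℂ) := by
      push_cast
      simp only [tT]
      exact h
    exact_mod_cast h'
  let L : J → EuclideanSpace ℝ J →ₗ[ℝ] EuclideanSpace ℝ J := fun k => Matrix.toEuclideanLin (M k)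
  have hLsym : ∀ k, (L k).IsSymmetric := fun k =>
    Matrix.isSymmetric_toEuclideanLin_iff.mpr (hMsym k)
  have hLcomm : ∀ i j, L i ∘ₗ L j = L j ∘ₗ L i := by
    intro i j
    have h1 : ∀ P Q : Matrix J J ℝ, Matrix.toEuclideanLin P ∘ₗ Matrix.toEuclideanLin Q =
        Matrix.toEuclideanLin (P * Q) := by
      intro P Q
      ext x : 1
      simp [Matrix.toLpLin_apply, Matrix.mulVec_mulVec]
    simp only [L]
    rw [h1, h1, hMcomm]
  obtain ⟨f, μ, hf⟩ := exists_joint_basis L hLsym hLcomm
  have hfe : ∀ k i l, ∑ p, t l k p * f i p = μ k i * f i l := by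
    intro k i l
    have h := congrArg (fun w : EuclideanSpace ℝ J => w l) (hf k i)
    simpa [L, M, Matrix.toLpLin_apply, Matrix.mulVec, dotProduct] using h
  -- the eigenvalues
  have hfsum : ∀ i, ∑ l, f i l * f i l = 1 := by
    intro i
    have h := f.orthonormal.1 i
    have h2 : ⟪f i, f i⟫_ℝ = 1 := by
      rw [real_inner_self_eq_norm_sq, h]; norm_num
    rw [← h2, PiLp.inner_apply]
    simp [pow_two]
  have hμ : ∀ p i, μ p i = (∑ l, μ l i * f i l) * f i p := by
    intro p i
    have h1 : ∀ l, μ p i * f i l = μ l i * f i p := by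
      intro l
      rw [← hfe p i l, ← hfe l i p]
      refine Finset.sum_congr rfl fun k _ => ?_
      rw [t1 l p k]
    calc μ p i = μ p i * ∑ l, f i l * f i l := by rw [hfsum, mul_one]
      _ = ∑ l, (μ p i * f i l) * f i l := by rw [Finset.mul_sum]; simp only [mul_assoc]
      _ = ∑ l, (μ l i * f i p) * f i l := by simp only [h1]
      _ = _ := by
        rw [Finset.sum_mul]
        refine Finset.sum_congr rfl fun l _ => ?_
        ring
  set lam : Fin (Fintype.card J) → ℝ := fun i => ∑ l, μ l i * f i l with hlam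
  -- the rank one operators
  let z : Fin (Fintype.card J) → E := fun i => ∑ l, ((f i l : ℝ) : ℂ) • v l
  have huz : ∀ l i, ⟪u l, z i⟫_ℂ = ((f i l : ℝ) : ℂ) := by
    intro l i
    simp only [z, inner_sum, inner_smul_right, huv]
    simp
  have hzZ : ∀ i, z i ∈ V A a := fun i =>
    Submodule.sum_mem _ fun l _ => Submodule.smul_mem _ _ (Submodule.subset_span ⟨l, rfl⟩)
  -- `u` separates `Z`
  have hspanu : Submodule.span ℂ (Set.range u) = V A a := by
    apply Submodule.eq_of_le_of_finrank_le
    · rw [Submodule.span_le]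
      rintro _ ⟨k, rfl⟩
      exact huZ k
    · have hliu : LinearIndependent ℂ u := by
        rw [Fintype.linearIndependent_iff]
        intro g hg j
        have h := congrArg (fun w => ⟪w, v j⟫_ℂ) hg
        simp only [sum_inner, inner_smul_left, huv, inner_zero_left] at h
        simpa using h
      have h1 : Module.finrank ℂ (V A a) = Fintype.card J := finrank_span_eq_card hli
      rw [finrank_span_eq_card hliu, h1]
  have hsep : ∀ w ∈ V A a, (∀ l, ⟪u l, w⟫_ℂ = 0) → w = 0 := by
    intro w hw h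
    have h1 : w ∈ (Submodule.span ℂ (Set.range u))ᗮ := by
      rw [Submodule.mem_orthogonal]
      intro x hx
      induction hx using Submodule.span_induction with
      | mem x hx => obtain ⟨j, rfl⟩ := hx; exact h j
      | zero => simp
      | add x y _ _ hx hy => rw [inner_add_left, hx, hy, add_zero]
      | smul c x _ hx => rw [inner_smul_left, hx, mul_zero]
    rw [hspanu] at h1
    exact inner_self_eq_zero.mp ((Submodule.mem_orthogonal' _ _).mp h1 w hw)
  have hB : ∀ (i : Fin (Fintype.card J)) (x : E),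
      ∑ k, ((f i k : ℝ) : ℂ) • A k x = ((lam i : ℂ) * ⟪z i, x⟫_ℂ) • z i := by
    intro i
    -- on the vectors `u p`
    have hu : ∀ p, ∑ k, ((f i k : ℝ) : ℂ) • A k (u p) = ((lam i : ℂ) * ⟪z i, u p⟫_ℂ) • z i := by
      intro p
      rw [← sub_eq_zero]
      apply hsep
      · apply Submodule.sub_mem
        · exact Submodule.sum_mem _ fun k _ => Submodule.smul_mem _ _ (range_sub hA ha k _)
        · exact Submodule.smul_mem _ _ (hzZ i)
      · intro l
        rw [inner_sub_right, inner_sum, inner_smul_right, huz]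
        have h1 : ⟪z i, u p⟫_ℂ = ((f i p : ℝ) : ℂ) := by
          rw [← inner_conj_symm, huz]; simp
        rw [h1]
        have h2 : ∑ k, ⟪u l, ((f i k : ℝ) : ℂ) • A k (u p)⟫_ℂ =
            ((∑ k, t l p k * f i k : ℝ) : ℂ) := by
          push_cast
          refine Finset.sum_congr rfl fun k _ => ?_
          rw [inner_smul_right, tT, mul_comm]
          congr 1
          have := t3 l k p
          simp only [hT]
          rw [sym1 l k (u p)]
          have e3 : T k l p = T l p k := by
            rw [← tT, ← tT]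
            congr 1
            rw [t1 k l p, t3 l k p]
          exact e3
        rw [h2, hfe p i l, hμ p i]
        push_cast
        simp only [hlam]
        push_cast
        ring
    intro x
    -- decompose `x`
    obtain ⟨y, hy, w, hw, rfl⟩ := (V A a).exists_add_mem_mem_orthogonal x
    have hw1 : ∀ k, A k w = 0 := ha w ((mem_V_orth A a w).mp hw)
    have hw2 : ⟪z i, w⟫_ℂ = 0 := (Submodule.mem_orthogonal _ _).mp hw _ (hzZ i)
    have hmain : ∑ k, ((f i k : ℝ) : ℂ) • A k y = ((lam i : ℂ) * ⟪z i, y⟫_ℂ) • z i := by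
      rw [← hspanu] at hy
      induction hy using Submodule.span_induction with
      | mem x hx => obtain ⟨j, rfl⟩ := hx; exact hu j
      | zero => simp
      | add x y _ _ hx hy =>
        simp only [map_add, smul_add, Finset.sum_add_distrib, hx, hy, inner_add_right, mul_add,
          add_smul]
      | smul c x _ hx =>
        have e1 : ∀ k, ((f i k : ℝ) : ℂ) • A k (c • x) = c • (((f i k : ℝ) : ℂ) • A k x) := by
          intro k
          rw [map_smul, smul_comm]
        rw [Finset.sum_congr rfl fun k _ => e1 k, ← Finset.smul_sum, hx, inner_smul_right,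
          smul_smul]
        congr 1
        ring
    simp only [map_add, hw1, add_zero, inner_add_right, hw2]
    exact hmain
  -- completeness relation
  have hcompl : ∀ k l, ∑ i, f i k * f i l = if k = l then (1 : ℝ) else 0 := by
    intro k l
    have h := f.sum_inner_mul_inner (EuclideanSpace.single k (1 : ℝ)) (EuclideanSpace.single l 1)
    have h2 : ∀ i, ⟪EuclideanSpace.single k (1 : ℝ), f i⟫_ℝ * ⟪f i, EuclideanSpace.single l (1 : ℝ)⟫_ℝ
        = f i k * f i l := by
      intro i
      rw [EuclideanSpace.inner_single_left, EuclideanSpace.inner_single_right]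
      simp
    simp only [h2] at h
    rw [h, EuclideanSpace.inner_single_left]
    simp
  refine ⟨z, lam, ?_, ?_⟩
  · -- linear independence
    rw [Fintype.linearIndependent_iff]
    intro g hg
    have h1 : ∀ l, ∑ i, g i * ((f i l : ℝ) : ℂ) = 0 := by
      intro l
      have h := congrArg (fun w => ⟪u l, w⟫_ℂ) hg
      simpa [inner_sum, inner_smul_right, huz] using h
    intro i0
    have h2 : ∑ l, (∑ i, g i * ((f i l : ℝ) : ℂ)) * ((f i0 l : ℝ) : ℂ) = g i0 := by
      have h3 : ∀ i, ∑ l, f i l * f i0 l = if i = i0 then (1 : ℝ) else 0 := by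
        intro i
        have h4 := orthonormal_iff_ite.mp f.orthonormal i i0
        rw [PiLp.inner_apply] at h4
        rw [← h4]
        refine Finset.sum_congr rfl fun l _ => ?_
        simp [mul_comm]
      calc ∑ l, (∑ i, g i * ((f i l : ℝ) : ℂ)) * ((f i0 l : ℝ) : ℂ)
          = ∑ i, g i * ((∑ l, f i l * f i0 l : ℝ) : ℂ) := by
            simp only [Finset.sum_mul]
            rw [Finset.sum_comm]
            refine Finset.sum_congr rfl fun i _ => ?_
            push_cast
            rw [Finset.mul_sum]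
            refine Finset.sum_congr rfl fun l _ => ?_
            ring
        _ = ∑ i, g i * ((if i = i0 then (1 : ℝ) else 0 : ℝ) : ℂ) :=
            Finset.sum_congr rfl fun i _ => by rw [h3 i]
        _ = g i0 := by
            rw [Finset.sum_eq_single i0]
            · simp
            · intro i _ hi
              simp [hi]
            · simp
    rw [← h2]
    exact Finset.sum_eq_zero fun l _ => by rw [h1 l, zero_mul]
  · intro p c q e
    have hp : ∀ i (p c : E), (lam i : ℂ) * ⟪z i, c⟫_ℂ * ⟪p, z i⟫_ℂ =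
        ∑ k, ((f i k : ℝ) : ℂ) * ⟪p, A k c⟫_ℂ := by
      intro i p c
      have h := congrArg (fun w => ⟪p, w⟫_ℂ) (hB i c)
      simp only [inner_sum, inner_smul_right] at h
      exact h.symm
    calc ∑ j, ⟪p, A j c⟫_ℂ * ⟪q, A j e⟫_ℂ
        = ∑ k, ∑ l, ((if k = l then (1 : ℝ) else 0 : ℝ) : ℂ) * (⟪p, A k c⟫_ℂ * ⟪q, A l e⟫_ℂ) := by
          refine Finset.sum_congr rfl fun k _ => ?_
          rw [Finset.sum_eq_single k]
          · simp
          · intro l _ hl
            simp [Ne.symm hl]
          · simp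
      _ = ∑ k, ∑ l, ((∑ i, f i k * f i l : ℝ) : ℂ) * (⟪p, A k c⟫_ℂ * ⟪q, A l e⟫_ℂ) := by
          refine Finset.sum_congr rfl fun k _ => Finset.sum_congr rfl fun l _ => ?_
          rw [hcompl k l]
      _ = ∑ k, ∑ l, ∑ i, (((f i k : ℝ) : ℂ) * ⟪p, A k c⟫_ℂ) * (((f i l : ℝ) : ℂ) * ⟪q, A l e⟫_ℂ) := by
          refine Finset.sum_congr rfl fun k _ => Finset.sum_congr rfl fun l _ => ?_
          push_cast
          rw [Finset.sum_mul]
          refine Finset.sum_congr rfl fun i _ => ?_
          ring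
      _ = ∑ i, ∑ k, ∑ l, (((f i k : ℝ) : ℂ) * ⟪p, A k c⟫_ℂ) * (((f i l : ℝ) : ℂ) * ⟪q, A l e⟫_ℂ) := by
          have e1 : ∀ k, ∑ l, ∑ i, (((f i k : ℝ) : ℂ) * ⟪p, A k c⟫_ℂ) *
              (((f i l : ℝ) : ℂ) * ⟪q, A l e⟫_ℂ) = ∑ i, ∑ l, (((f i k : ℝ) : ℂ) * ⟪p, A k c⟫_ℂ) *
              (((f i l : ℝ) : ℂ) * ⟪q, A l e⟫_ℂ) := fun k => Finset.sum_comm
          rw [Finset.sum_congr rfl fun k _ => e1 k, Finset.sum_comm]
      _ = ∑ i, (∑ k, ((f i k : ℝ) : ℂ) * ⟪p, A k c⟫_ℂ) * (∑ l, ((f i l : ℝ) : ℂ) * ⟪q, A l e⟫_ℂ) := by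
          refine Finset.sum_congr rfl fun i _ => ?_
          rw [Finset.sum_mul_sum]
      _ = _ := by
          refine Finset.sum_congr rfl fun i _ => ?_
          rw [hp i p c, hp i q e]

end Pool.Agent.H103R3
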