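import Mathlib

set_option autoImplicit false
set_option linter.unusedSectionVars false

namespace Pool.Agent.H103R3

open scoped InnerProductSpace

variable {F : Type*} [NormedAddCommGroup F] [InnerProductSpace ℝ F] [FiniteDimensional ℝ F]

/-- the deficiency operator `X ↦ δ (X + ⟨ι, X⟩ ι) - ∑ ⟨p_i, X⟩ p_i`. -/
noncomputable def defOp {N : ℕ} (d : ℝ) (ι : F) (p : Fin N → F) : F →ₗ[ℝ] F where
  toFun X := (d / (d + 1)) • (X + ⟪ι, X⟫_ℝ • ι) - ∑ i, ⟪p i, X⟫_ℝ • p i
  map_add' X Y := by
    simp only [inner_add_right, add_smul, Finset.sum_add_distrib, smul_add]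
    abel
  map_smul' c X := by
    simp only [inner_smul_right, RingHom.id_apply, smul_sub, Finset.smul_sum, smul_smul, smul_add]
    rw [mul_comm c (d / (d + 1)), show d / (d + 1) * (c * ⟪ι, X⟫_ℝ) = c * (d / (d + 1) * ⟪ι, X⟫_ℝ)
      by ring]

theorem defOp_apply {N : ℕ} (d : ℝ) (ι : F) (p : Fin N → F) (X : F) :
    defOp d ι p X = (d / (d + 1)) • (X + ⟪ι, X⟫_ℝ • ι) - ∑ i, ⟪p i, X⟫_ℝ • p i := rfl

theorem defOp_symm {N : ℕ} (d : ℝ) (ι : F) (p : Fin N → F) : (defOp d ι p).IsSymmetric := by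
  intro X Y
  simp only [defOp_apply, inner_sub_left, inner_sub_right, inner_smul_left, inner_smul_right,
    inner_add_left, inner_add_right, sum_inner, inner_sum, conj_trivial]
  rw [real_inner_comm X ι]
  congr 1
  · ring
  · refine Finset.sum_congr rfl fun i _ => ?_
    rw [real_inner_comm X (p i)]
    ring

variable {N : ℕ} {d : ℝ} {ι : F} {p : Fin N → F}

theorem sum_gram (hd : 0 < d) (hpp : ∀ i j, ⟪p i, p j⟫_ℝ = if i = j then 1 else 1 / (d + 1))
    (c : Fin N → ℝ) (j : Fin N) :
    ∑ i, c i * ⟪p i, p j⟫_ℝ = (d / (d + 1)) * c j + (1 / (d + 1)) * ∑ i, c i := by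
  have h1 : ∀ i, c i * ⟪p i, p j⟫_ℝ = (if i = j then (d / (d + 1)) * c j else 0) +
      (1 / (d + 1)) * c i := by
    intro i
    rw [hpp]
    have h2 : d + 1 ≠ 0 := by positivity
    split_ifs with h
    · subst h; field_simp
    · ring
  rw [Finset.sum_congr rfl fun i _ => h1 i, Finset.sum_add_distrib, ← Finset.mul_sum]
  simp

theorem defOp_pos (hd : 0 < d) (hιι : ⟪ι, ι⟫_ℝ = d) (hιp : ∀ i, ⟪ι, p i⟫_ℝ = 1)
    (hpp : ∀ i j, ⟪p i, p j⟫_ℝ = if i = j then 1 else 1 / (d + 1)) (X : F) :
    0 ≤ ⟪X, defOp d ι p X⟫_ℝ := by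
  have h2 : d + 1 ≠ 0 := by positivity
  set s := ⟪ι, X⟫_ℝ with hs
  set t : Fin N → ℝ := fun i => ⟪p i, X⟫_ℝ with ht
  have hXX : ⟪X, defOp d ι p X⟫_ℝ = (d / (d + 1)) * (⟪X, X⟫_ℝ + s ^ 2) - ∑ i, t i ^ 2 := by
    rw [defOp_apply, inner_sub_right, inner_smul_right, inner_add_right, inner_smul_right,
      inner_sum]
    congr 1
    · rw [real_inner_comm ι X]; ring
    · refine Finset.sum_congr rfl fun i _ => ?_
      rw [inner_smul_right, real_inner_comm (p i) X]; ring
  -- inner product of `T X` with `ι`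
  have hιT : ⟪ι, defOp d ι p X⟫_ℝ = d * s - ∑ i, t i := by
    rw [defOp_apply, inner_sub_right, inner_smul_right, inner_add_right, inner_smul_right,
      inner_sum, hιι]
    have h3 : ∀ i, ⟪ι, ⟪p i, X⟫_ℝ • p i⟫_ℝ = t i := by
      intro i
      rw [inner_smul_right, hιp, mul_one]
    rw [Finset.sum_congr rfl fun i _ => h3 i]
    congr 1
    field_simp
    ring
  have hpT : ∀ j, ⟪p j, defOp d ι p X⟫_ℝ = (d / (d + 1)) * s - (1 / (d + 1)) * ∑ i, t i := by
    intro j
    rw [defOp_apply, inner_sub_right, inner_smul_right, inner_add_right, inner_smul_right,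
      inner_sum]
    have h3 : ∀ i, ⟪p j, ⟪p i, X⟫_ℝ • p i⟫_ℝ = t i * ⟪p i, p j⟫_ℝ := by
      intro i
      rw [inner_smul_right, real_inner_comm (p i) (p j)]
    rw [Finset.sum_congr rfl fun i _ => h3 i, sum_gram hd hpp, real_inner_comm ι (p j), hιp]
    simp only [ht]
    ring
  have hTT : ⟪defOp d ι p X, defOp d ι p X⟫_ℝ =
      (d / (d + 1)) * ⟪X, defOp d ι p X⟫_ℝ + (1 / (d + 1)) * (d * s - ∑ i, t i) ^ 2 := by
    have h0 : ⟪defOp d ι p X, defOp d ι p X⟫_ℝ =
        ⟪(d / (d + 1)) • (X + ⟪ι, X⟫_ℝ • ι) - ∑ i, ⟪p i, X⟫_ℝ • p i, defOp d ι p X⟫_ℝ := rfl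
    rw [h0, inner_sub_left, inner_smul_left, inner_add_left, inner_smul_left, sum_inner, hιT]
    have h3 : ∀ i, ⟪⟪p i, X⟫_ℝ • p i, defOp d ι p X⟫_ℝ =
        t i * ((d / (d + 1)) * s - (1 / (d + 1)) * ∑ i, t i) := by
      intro i
      rw [inner_smul_left, hpT]
      simp [ht]
    rw [Finset.sum_congr rfl fun i _ => h3 i, ← Finset.sum_mul]
    simp only [conj_trivial]
    set S := ∑ i, t i
    field_simp
    ring
  -- Cauchy-Schwarz
  have hCS : (d * s - ∑ i, t i) ^ 2 ≤ d * ⟪defOp d ι p X, defOp d ι p X⟫_ℝ := by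
    have h4 := real_inner_mul_inner_self_le ι (defOp d ι p X)
    rw [hιT, hιι] at h4
    nlinarith [h4]
  set q := (d * s - ∑ i, t i) ^ 2 with hq
  have hq0 : 0 ≤ q := sq_nonneg _
  rw [hTT] at hCS
  have h5 : d * ((d / (d + 1)) * ⟪X, defOp d ι p X⟫_ℝ + (1 / (d + 1)) * q) =
      (d ^ 2 * ⟪X, defOp d ι p X⟫_ℝ + d * q) / (d + 1) := by field_simp
  rw [h5, le_div_iff₀ (by positivity)] at hCS
  have h6 : 0 ≤ d ^ 2 * ⟪X, defOp d ι p X⟫_ℝ := by nlinarith
  have h7 : 0 < d ^ 2 := by positivity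
  exact nonneg_of_mul_nonneg_right h6 h7

/-- There are at most `finrank F - N` vectors `q_j` with `T = ∑ ⟨q_j, ·⟩ q_j`. -/
theorem exists_q (hd : 0 < d) (hιι : ⟪ι, ι⟫_ℝ = d) (hιp : ∀ i, ⟪ι, p i⟫_ℝ = 1)
    (hpp : ∀ i j, ⟪p i, p j⟫_ℝ = if i = j then 1 else 1 / (d + 1)) :
    ∃ (m : ℕ) (q : Fin m → F), m + N ≤ Module.finrank ℝ F ∧
      ∀ X, ∑ j, ⟪q j, X⟫_ℝ • q j = defOp d ι p X := by
  classical
  set T := defOp d ι p with hT
  have hsym : T.IsSymmetric := defOp_symm d ι p
  set n := Module.finrank ℝ F with hn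
  let b := hsym.eigenvectorBasis rfl
  let lam := hsym.eigenvalues rfl
  have hTb : ∀ j, T (b j) = lam j • b j := fun j => hsym.apply_eigenvectorBasis rfl j
  have hlam : ∀ j, 0 ≤ lam j := by
    intro j
    have h1 := defOp_pos hd hιι hιp hpp (b j)
    rw [← hT, hTb j, inner_smul_right, real_inner_self_eq_norm_sq, b.orthonormal.1 j] at h1
    simpa using h1
  let J := {j : Fin n // lam j ≠ 0}
  let e : Fin (Fintype.card J) ≃ J := (Fintype.equivFin J).symm
  refine ⟨Fintype.card J, fun j => Real.sqrt (lam (e j).1) • b (e j).1, ?_, ?_⟩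
  · -- the count
    have h1 : Fintype.card J ≤ Module.finrank ℝ (LinearMap.range T) := by
      have hmem : ∀ j : J, b j.1 ∈ LinearMap.range T := by
        intro j
        refine ⟨(lam j.1)⁻¹ • b j.1, ?_⟩
        rw [map_smul, hTb, smul_smul, inv_mul_cancel₀ j.2, one_smul]
      let g : J → LinearMap.range T := fun j => ⟨b j.1, hmem j⟩
      have hg : LinearIndependent ℝ g := by
        apply LinearIndependent.of_comp (LinearMap.range T).subtype
        have h3 : ((LinearMap.range T).subtype ∘ g) = fun j : J => b j.1 := rfl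
        rw [h3]
        exact b.orthonormal.linearIndependent.comp _ Subtype.val_injective
      exact hg.fintype_card_le_finrank
    have h2 : N ≤ Module.finrank ℝ (LinearMap.ker T) := by
      have h3 : d + 1 ≠ 0 := by positivity
      have hker : ∀ i, ι - (d + 1) • p i ∈ LinearMap.ker T := by
        intro i
        rw [LinearMap.mem_ker, hT, defOp_apply]
        have h4 : ∀ j, ⟪p j, ι - (d + 1) • p i⟫_ℝ = if j = i then -d else 0 := by
          intro j
          rw [inner_sub_right, inner_smul_right, real_inner_comm ι (p j), hιp, hpp]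
          split_ifs
          · ring
          · field_simp; ring
        have h5 : ⟪ι, ι - (d + 1) • p i⟫_ℝ = -1 := by
          rw [inner_sub_right, inner_smul_right, hιι, hιp]; ring
        rw [h5]
        have h6 : ∀ j, ⟪p j, ι - (d + 1) • p i⟫_ℝ • p j = if j = i then (-d) • p i else 0 := by
          intro j
          rw [h4]
          split_ifs with hji
          · rw [hji]
          · simp
        rw [Finset.sum_congr rfl fun j _ => h6 j]
        simp only [Finset.sum_ite_eq', Finset.mem_univ, if_true]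
        have h7 : ι - (d + 1) • p i + (-1 : ℝ) • ι = -((d + 1) • p i) := by
          rw [neg_one_smul]; abel
        rw [h7, smul_neg, smul_smul, div_mul_cancel₀ _ h3, neg_smul]
        abel
      let g : Fin N → LinearMap.ker T := fun i => ⟨ι - (d + 1) • p i, hker i⟩
      have hg : LinearIndependent ℝ g := by
        apply LinearIndependent.of_comp (LinearMap.ker T).subtype
        have h3 : ((LinearMap.ker T).subtype ∘ g) = fun i => ι - (d + 1) • p i := rfl
        rw [h3, Fintype.linearIndependent_iff]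
        intro c hc j
        have e1 := congrArg (fun w => ⟪ι, w⟫_ℝ) hc
        simp only [inner_sum, inner_smul_right, inner_sub_right, hιι, hιp, inner_zero_right] at e1
        have e1' : ∑ i, c i = 0 := by
          have : ∑ i, c i * (d - (d + 1) * 1) = -∑ i, c i := by
            rw [← Finset.sum_neg_distrib]
            refine Finset.sum_congr rfl fun i _ => ?_
            ring
          rw [this] at e1
          linarith
        have e2 := congrArg (fun w => ⟪w, p j⟫_ℝ) hc
        simp only [sum_inner, inner_smul_left, inner_sub_left, hιp, inner_zero_left,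
          conj_trivial] at e2
        have e3 : ∑ i, c i * (1 - (d + 1) * ⟪p i, p j⟫_ℝ) =
            ∑ i, c i - (d + 1) * ∑ i, c i * ⟪p i, p j⟫_ℝ := by
          rw [Finset.mul_sum, ← Finset.sum_sub_distrib]
          refine Finset.sum_congr rfl fun i _ => ?_
          ring
        rw [e3, sum_gram hd hpp, e1'] at e2
        have e4 : d * c j = 0 := by
          field_simp at e2
          linarith
        rcases mul_eq_zero.mp e4 with h | h
        · exact absurd h hd.ne'
        · exact h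
      simpa using hg.fintype_card_le_finrank
    have h3 := LinearMap.finrank_range_add_finrank_ker T
    omega
  · intro X
    have h1 : ∀ j, ⟪Real.sqrt (lam j) • b j, X⟫_ℝ • (Real.sqrt (lam j) • b j) =
        ⟪b j, X⟫_ℝ • (lam j • b j) := by
      intro j
      rw [inner_smul_left, smul_smul, smul_smul]
      congr 1
      have := Real.mul_self_sqrt (hlam j)
      simp only [conj_trivial]
      calc _ = (Real.sqrt (lam j) * Real.sqrt (lam j)) * ⟪b j, X⟫_ℝ := by ring
        _ = _ := by rw [this]; ring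
    have h2 : T X = ∑ j, ⟪b j, X⟫_ℝ • (lam j • b j) := by
      conv_lhs => rw [← b.sum_repr' X]
      rw [map_sum]
      refine Finset.sum_congr rfl fun j _ => ?_
      rw [map_smul, hTb]
    rw [h2, e.sum_comp (fun j : J => ⟪Real.sqrt (lam j.1) • b j.1, X⟫_ℝ •
      (Real.sqrt (lam j.1) • b j.1))]
    simp only [h1]
    have h3 : ∑ j ∈ Finset.univ.filter (fun j => lam j ≠ 0), ⟪b j, X⟫_ℝ • (lam j • b j) =
        ∑ j : J, ⟪b j.1, X⟫_ℝ • (lam j.1 • b j.1) :=
      Finset.sum_subtype (Finset.univ.filter fun j => lam j ≠ 0)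
        (by simp) (fun j => ⟪b j, X⟫_ℝ • (lam j • b j))
    rw [← h3, Finset.sum_filter_of_ne]
    intro j _ hj h0
    apply hj
    rw [h0, zero_smul, smul_zero]

end Pool.Agent.H103R3
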