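import Mathlib
import Pool.Agent.H103R3.Gram

set_option autoImplicit false
set_option linter.unusedSectionVars false

namespace Pool.Agent.H103R3

open scoped InnerProductSpace ComplexConjugate

/-- `(1 + i)/2`. -/
noncomputable def al : ℂ := (1 + Complex.I) / 2
/-- `(1 - i)/2`. -/
noncomputable def be : ℂ := (1 - Complex.I) / 2

theorem al_sq : al * al = Complex.I / 2 := by
  unfold al
  ring_nf
  rw [Complex.I_sq]
  ring

theorem be_sq : be * be = -(Complex.I / 2) := by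
  unfold be
  ring_nf
  rw [Complex.I_sq]
  ring

theorem al_be : al * be = 1 / 2 := by
  unfold al be
  ring_nf
  rw [Complex.I_sq]
  ring

theorem conj_al : conj al = be := by
  unfold al be
  rw [map_div₀, map_add, map_one, Complex.conj_I, map_ofNat]
  ring

/-- from a real function on pairs to an hermitian function. -/
theorem recon (z : ℂ) : al * (((z.re + z.im : ℝ)) : ℂ) + be * (((conj z).re + (conj z).im : ℝ) : ℂ) = z := by
  apply Complex.ext
  · simp [al, be]; ring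
  · simp [al, be]; ring

theorem recon' (z : ℂ) : ((z.re + z.im : ℝ) : ℂ) = be * z + al * conj z := by
  apply Complex.ext
  · simp [al, be]; ring
  · simp [al, be]; ring

variable {d : ℕ}

theorem inner_eq_sum (u v : EuclideanSpace ℂ (Fin d)) : ⟪u, v⟫_ℂ = ∑ a, conj (u a) * v a := by
  rw [PiLp.inner_apply]
  refine Finset.sum_congr rfl fun a _ => ?_
  simp [mul_comm]

/-- entries of the projection onto `x`. -/
noncomputable def PP (x : EuclideanSpace ℂ (Fin d)) (a b : Fin d) : ℂ := x a * conj (x b)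

theorem PP_conj (x : EuclideanSpace ℂ (Fin d)) (a b : Fin d) : conj (PP x a b) = PP x b a := by
  simp [PP, mul_comm]

/-- real coordinates. -/
noncomputable def rv (x : EuclideanSpace ℂ (Fin d)) : EuclideanSpace ℝ (Fin d × Fin d) :=
  WithLp.toLp 2 fun k => (PP x k.1 k.2).re + (PP x k.1 k.2).im

noncomputable def iv (d : ℕ) : EuclideanSpace ℝ (Fin d × Fin d) :=
  WithLp.toLp 2 fun k => if k.1 = k.2 then 1 else 0

theorem rv_apply (x : EuclideanSpace ℂ (Fin d)) (k : Fin d × Fin d) :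
    ((rv x k : ℝ) : ℂ) = be * PP x k.1 k.2 + al * PP x k.2 k.1 := by
  have h : rv x k = (PP x k.1 k.2).re + (PP x k.1 k.2).im := rfl
  rw [h, recon', PP_conj]

theorem PP_eq (x : EuclideanSpace ℂ (Fin d)) (a b : Fin d) :
    PP x a b = al * ((rv x (a, b) : ℝ) : ℂ) + be * ((rv x (b, a) : ℝ) : ℂ) := by
  have h1 := recon (PP x a b)
  rw [PP_conj] at h1
  exact h1.symm

theorem rv_rv (x y : EuclideanSpace ℂ (Fin d)) :
    ((⟪rv x, rv y⟫_ℝ : ℝ) : ℂ) = ⟪x, y⟫_ℂ * ⟪y, x⟫_ℂ := by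
  rw [PiLp.inner_apply]
  have h1 : ∀ k : Fin d × Fin d, ((⟪rv x k, rv y k⟫_ℝ : ℝ) : ℂ) =
      (be * be) * (PP x k.1 k.2 * PP y k.1 k.2) + (al * be) * (PP x k.1 k.2 * PP y k.2 k.1) +
        ((al * be) * (PP x k.2 k.1 * PP y k.1 k.2) + (al * al) * (PP x k.2 k.1 * PP y k.2 k.1)) := by
    intro k
    have h2 : ⟪rv x k, rv y k⟫_ℝ = rv x k * rv y k := by simp [mul_comm]
    rw [h2]
    push_cast
    rw [rv_apply, rv_apply]
    ring
  push_cast
  rw [Finset.sum_congr rfl fun k _ => h1 k]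
  simp only [Finset.sum_add_distrib, ← Finset.mul_sum]
  have hswap : ∀ g : Fin d → Fin d → ℂ, ∑ k : Fin d × Fin d, g k.2 k.1 = ∑ k : Fin d × Fin d, g k.1 k.2 := by
    intro g
    rw [Fintype.sum_prod_type, Fintype.sum_prod_type, Finset.sum_comm]
  have s1 : ∑ k : Fin d × Fin d, PP x k.2 k.1 * PP y k.2 k.1 =
      ∑ k : Fin d × Fin d, PP x k.1 k.2 * PP y k.1 k.2 := hswap (fun a b => PP x a b * PP y a b)
  have s2 : ∑ k : Fin d × Fin d, PP x k.2 k.1 * PP y k.1 k.2 =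
      ∑ k : Fin d × Fin d, PP x k.1 k.2 * PP y k.2 k.1 := hswap (fun a b => PP x a b * PP y b a)
  rw [s1, s2, be_sq, al_sq, al_be]
  have s3 : ∑ k : Fin d × Fin d, PP x k.1 k.2 * PP y k.2 k.1 = ⟪x, y⟫_ℂ * ⟪y, x⟫_ℂ := by
    rw [inner_eq_sum, inner_eq_sum, Finset.sum_mul_sum, Fintype.sum_prod_type, Finset.sum_comm]
    refine Finset.sum_congr rfl fun a _ => Finset.sum_congr rfl fun b _ => ?_
    simp only [PP]
    ring
  rw [s3]
  ring

theorem iv_rv (x : EuclideanSpace ℂ (Fin d)) : ((⟪iv d, rv x⟫_ℝ : ℝ) : ℂ) = ⟪x, x⟫_ℂ := by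
  rw [PiLp.inner_apply]
  have h1 : ∀ k : Fin d × Fin d, ⟪iv d k, rv x k⟫_ℝ = if k.1 = k.2 then rv x k else 0 := by
    intro k
    simp [iv]
  rw [Finset.sum_congr rfl fun k _ => h1 k, Fintype.sum_prod_type]
  simp only [Finset.sum_ite_eq, Finset.mem_univ, if_true]
  rw [inner_eq_sum]
  push_cast
  refine Finset.sum_congr rfl fun a _ => ?_
  rw [rv_apply]
  simp only [PP, al, be]
  ring

theorem iv_iv : ⟪iv d, iv d⟫_ℝ = (d : ℝ) := by
  rw [PiLp.inner_apply]
  have h1 : ∀ k : Fin d × Fin d, ⟪iv d k, iv d k⟫_ℝ = if k.1 = k.2 then 1 else 0 := by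
    intro k
    simp [iv]
  rw [Finset.sum_congr rfl fun k _ => h1 k, Fintype.sum_prod_type]
  simp

/-- angle condition in product form. -/
theorem inner_mul_inner_of {x y : EuclideanSpace ℂ (Fin d)}
    (h : ‖⟪x, y⟫_ℂ‖ = 1 / Real.sqrt ((d : ℝ) + 1)) :
    ⟪x, y⟫_ℂ * ⟪y, x⟫_ℂ = ((1 / ((d : ℝ) + 1) : ℝ) : ℂ) := by
  rw [← inner_conj_symm y x, RCLike.mul_conj, h]
  have h0 : (0 : ℝ) ≤ (d : ℝ) + 1 := by positivity
  have h1 : (1 / Real.sqrt ((d : ℝ) + 1)) ^ 2 = 1 / ((d : ℝ) + 1) := by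
    rw [div_pow, Real.sq_sqrt h0, one_pow]
  rw [← h1]
  push_cast
  rfl

theorem exists_complement (hd : 0 < d) {N : ℕ} (x : Fin N → EuclideanSpace ℂ (Fin d))
    (hx1 : ∀ i, ‖x i‖ = 1)
    (hx2 : ∀ i j, i ≠ j → ‖⟪x i, x j⟫_ℂ‖ = 1 / Real.sqrt ((d : ℝ) + 1)) :
    ∃ (m : ℕ) (A : Fin m → EuclideanSpace ℂ (Fin d) →ₗ[ℂ] EuclideanSpace ℂ (Fin d)),
      m + N ≤ d ^ 2 ∧ (∀ j, (A j).IsSymmetric) ∧
      ∀ u v w z : EuclideanSpace ℂ (Fin d),
        ∑ j, ⟪u, A j v⟫_ℂ * ⟪w, A j z⟫_ℂ +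
          ∑ i, (⟪u, x i⟫_ℂ * ⟪x i, v⟫_ℂ) * (⟪w, x i⟫_ℂ * ⟪x i, z⟫_ℂ) =
        ((d : ℂ) / (d + 1)) * (⟪u, z⟫_ℂ * ⟪w, v⟫_ℂ + ⟪u, v⟫_ℂ * ⟪w, z⟫_ℂ) := by
  classical
  have hxx : ∀ i, ⟪x i, x i⟫_ℂ = 1 := by
    intro i
    rw [inner_self_eq_norm_sq_to_K, hx1]; simp
  have hd' : (0 : ℝ) < (d : ℝ) := by exact_mod_cast hd
  have hιp : ∀ i, ⟪iv d, rv (x i)⟫_ℝ = 1 := by
    intro i
    have h := iv_rv (x i)
    rw [hxx] at h
    exact_mod_cast h
  have hpp : ∀ i j, ⟪rv (x i), rv (x j)⟫_ℝ = if i = j then 1 else 1 / ((d : ℝ) + 1) := by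
    intro i j
    have h := rv_rv (x i) (x j)
    split_ifs with hij
    · subst hij
      rw [hxx, mul_one] at h
      exact_mod_cast h
    · rw [inner_mul_inner_of (hx2 i j hij)] at h
      exact Complex.ofReal_injective h
  obtain ⟨m, q, hm, hq⟩ := exists_q (p := fun i => rv (x i)) hd' iv_iv hιp hpp
  have hfin : Module.finrank ℝ (EuclideanSpace ℝ (Fin d × Fin d)) = d ^ 2 := by
    rw [finrank_euclideanSpace, Fintype.card_prod, Fintype.card_fin, sq]
  rw [hfin] at hm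
  -- entries
  have hS : ∀ k l : Fin d × Fin d, ∑ j, q j k * q j l =
      ((d : ℝ) / (d + 1)) * ((if k = l then 1 else 0) + (if k.1 = k.2 then 1 else 0) *
        (if l.1 = l.2 then 1 else 0)) - ∑ i, rv (x i) k * rv (x i) l := by
    intro k l
    have h := congrArg (fun w : EuclideanSpace ℝ (Fin d × Fin d) => w k)
      (hq (EuclideanSpace.single l (1 : ℝ)))
    simp only [defOp_apply] at h
    have e1 : ∀ w : EuclideanSpace ℝ (Fin d × Fin d), ⟪w, EuclideanSpace.single l (1 : ℝ)⟫_ℝ = w l := by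
      intro w
      rw [EuclideanSpace.inner_single_right]; simp
    simp only [e1] at h
    have e2 : (∑ j, q j l • q j : EuclideanSpace ℝ (Fin d × Fin d)) k = ∑ j, q j k * q j l := by
      simp [mul_comm]
    have e3 : (((d : ℝ) / (d + 1)) • (EuclideanSpace.single l (1 : ℝ) + iv d l • iv d) -
        ∑ i, rv (x i) l • rv (x i) : EuclideanSpace ℝ (Fin d × Fin d)) k =
        ((d : ℝ) / (d + 1)) * ((if k = l then 1 else 0) + (if k.1 = k.2 then 1 else 0) *
        (if l.1 = l.2 then 1 else 0)) - ∑ i, rv (x i) k * rv (x i) l := by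
      have e4 : iv d k = if k.1 = k.2 then 1 else 0 := rfl
      have e5 : iv d l = if l.1 = l.2 then 1 else 0 := rfl
      simp only [PiLp.sub_apply, PiLp.smul_apply, PiLp.add_apply, smul_eq_mul, e4, e5]
      congr 1
      · congr 1
        rw [mul_comm (if l.1 = l.2 then (1 : ℝ) else 0)]
        congr 1
        simp [Pi.single_apply]
      · simp [mul_comm]
    rw [← e2, ← e3]
    exact h
  -- the hermitian matrices
  let Q : Fin m → Matrix (Fin d) (Fin d) ℂ := fun j =>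
    Matrix.of fun a b => al * ((q j (a, b) : ℝ) : ℂ) + be * ((q j (b, a) : ℝ) : ℂ)
  have hQh : ∀ j, (Q j).IsHermitian := by
    intro j
    ext a b
    simp only [Matrix.conjTranspose_apply, Q, Matrix.of_apply, star_add, star_mul']
    have h1 : star al = be := conj_al
    have h2 : star be = al := by rw [← h1, star_star]
    rw [h1, h2]
    simp only [RCLike.star_def, Complex.conj_ofReal]
    ring
  have hK : ∀ a b c e : Fin d, ∑ j, Q j a b * Q j c e + ∑ i, PP (x i) a b * PP (x i) c e =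
      ((d : ℂ) / (d + 1)) * ((if a = e then 1 else 0) * (if c = b then 1 else 0) +
        (if a = b then 1 else 0) * (if c = e then 1 else 0)) := by
    intro a b c e
    have hS' : ∀ k l : Fin d × Fin d, ∑ j, ((q j k : ℝ) : ℂ) * ((q j l : ℝ) : ℂ) +
        ∑ i, ((rv (x i) k : ℝ) : ℂ) * ((rv (x i) l : ℝ) : ℂ) =
        ((d : ℂ) / (d + 1)) * ((if k = l then 1 else 0) + (if k.1 = k.2 then 1 else 0) *
          (if l.1 = l.2 then 1 else 0)) := by
      intro k l
      have h := hS k l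
      have h2 : ((∑ j, q j k * q j l : ℝ) : ℂ) + ((∑ i, rv (x i) k * rv (x i) l : ℝ) : ℂ) =
        ((((d : ℝ) / (d + 1)) * ((if k = l then 1 else 0) + (if k.1 = k.2 then 1 else 0) *
          (if l.1 = l.2 then 1 else 0)) : ℝ) : ℂ) := by
        rw [← Complex.ofReal_add, h]
        congr 1
        ring
      rw [Complex.ofReal_sum, Complex.ofReal_sum] at h2
      simp only [Complex.ofReal_mul] at h2
      rw [h2]
      push_cast
      congr 1
      split_ifs <;> simp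
    have e1 : ∑ j, Q j a b * Q j c e + ∑ i, PP (x i) a b * PP (x i) c e =
        (al * al) * (∑ j, ((q j (a, b) : ℝ) : ℂ) * ((q j (c, e) : ℝ) : ℂ) +
          ∑ i, ((rv (x i) (a, b) : ℝ) : ℂ) * ((rv (x i) (c, e) : ℝ) : ℂ)) +
        (al * be) * (∑ j, ((q j (a, b) : ℝ) : ℂ) * ((q j (e, c) : ℝ) : ℂ) +
          ∑ i, ((rv (x i) (a, b) : ℝ) : ℂ) * ((rv (x i) (e, c) : ℝ) : ℂ)) +
        (al * be) * (∑ j, ((q j (b, a) : ℝ) : ℂ) * ((q j (c, e) : ℝ) : ℂ) +
          ∑ i, ((rv (x i) (b, a) : ℝ) : ℂ) * ((rv (x i) (c, e) : ℝ) : ℂ)) +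
        (be * be) * (∑ j, ((q j (b, a) : ℝ) : ℂ) * ((q j (e, c) : ℝ) : ℂ) +
          ∑ i, ((rv (x i) (b, a) : ℝ) : ℂ) * ((rv (x i) (e, c) : ℝ) : ℂ)) := by
      simp only [mul_add, Finset.mul_sum]
      have e2 : ∀ j, Q j a b * Q j c e =
          al * al * (((q j (a, b) : ℝ) : ℂ) * ((q j (c, e) : ℝ) : ℂ)) +
          al * be * (((q j (a, b) : ℝ) : ℂ) * ((q j (e, c) : ℝ) : ℂ)) +
          al * be * (((q j (b, a) : ℝ) : ℂ) * ((q j (c, e) : ℝ) : ℂ)) +
          be * be * (((q j (b, a) : ℝ) : ℂ) * ((q j (e, c) : ℝ) : ℂ)) := by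
        intro j
        simp only [Q, Matrix.of_apply]
        ring
      have e3 : ∀ i, PP (x i) a b * PP (x i) c e =
          al * al * (((rv (x i) (a, b) : ℝ) : ℂ) * ((rv (x i) (c, e) : ℝ) : ℂ)) +
          al * be * (((rv (x i) (a, b) : ℝ) : ℂ) * ((rv (x i) (e, c) : ℝ) : ℂ)) +
          al * be * (((rv (x i) (b, a) : ℝ) : ℂ) * ((rv (x i) (c, e) : ℝ) : ℂ)) +
          be * be * (((rv (x i) (b, a) : ℝ) : ℂ) * ((rv (x i) (e, c) : ℝ) : ℂ)) := by
        intro i
        rw [PP_eq (x i) a b, PP_eq (x i) c e]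
        ring
      rw [Finset.sum_congr rfl fun j _ => e2 j, Finset.sum_congr rfl fun i _ => e3 i]
      simp only [Finset.sum_add_distrib]
      ring
    rw [e1, hS', hS', hS', hS', al_sq, be_sq, al_be]
    simp only [Prod.mk.injEq]
    have c1 : (if (b = e ∧ a = c) then (1 : ℂ) else 0) = if (a = c ∧ b = e) then 1 else 0 := by
      simp only [and_comm]
    have c2 : (if b = a then (1 : ℂ) else 0) = if a = b then 1 else 0 := by
      simp only [eq_comm]
    have c3 : (if e = c then (1 : ℂ) else 0) = if c = e then 1 else 0 := by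
      simp only [eq_comm]
    have c4 : (if (a = e ∧ b = c) then (1 : ℂ) else 0) =
        (if a = e then 1 else 0) * (if c = b then 1 else 0) := by
      simp only [eq_comm (a := b) (b := c), ite_and]
      split_ifs <;> simp
    have c5 : (if (b = c ∧ a = e) then (1 : ℂ) else 0) =
        (if a = e then 1 else 0) * (if c = b then 1 else 0) := by
      simp only [and_comm (a := b = c)]
      exact c4
    rw [c1, c2, c3, c4, c5]
    ring
  refine ⟨m, fun j => Matrix.toEuclideanLin (Q j), hm,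
    fun j => Matrix.isSymmetric_toEuclideanLin_iff.mpr (hQh j), ?_⟩
  intro u v w z
  have hAj : ∀ (j : Fin m) (u v : EuclideanSpace ℂ (Fin d)),
      ⟪u, Matrix.toEuclideanLin (Q j) v⟫_ℂ = ∑ a, ∑ b, conj (u a) * Q j a b * v b := by
    intro j u v
    rw [inner_eq_sum]
    refine Finset.sum_congr rfl fun a _ => ?_
    rw [Matrix.toLpLin_apply]
    simp only [Matrix.mulVec, dotProduct]
    rw [Finset.mul_sum]
    refine Finset.sum_congr rfl fun b _ => ?_
    ring
  have hPi : ∀ (i : Fin N) (u v : EuclideanSpace ℂ (Fin d)),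
      ⟪u, x i⟫_ℂ * ⟪x i, v⟫_ℂ = ∑ a, ∑ b, conj (u a) * PP (x i) a b * v b := by
    intro i u v
    rw [inner_eq_sum, inner_eq_sum, Finset.sum_mul_sum]
    refine Finset.sum_congr rfl fun a _ => Finset.sum_congr rfl fun b _ => ?_
    simp only [PP]
    ring
  have hprod : ∀ (M M' : Matrix (Fin d) (Fin d) ℂ),
      (∑ a, ∑ b, conj (u a) * M a b * v b) * (∑ c, ∑ e, conj (w c) * M' c e * z e) =
      ∑ a, ∑ b, ∑ c, ∑ e, (conj (u a) * v b * conj (w c) * z e) * (M a b * M' c e) := by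
    intro M M'
    rw [Finset.sum_mul]
    refine Finset.sum_congr rfl fun a _ => ?_
    rw [Finset.sum_mul]
    refine Finset.sum_congr rfl fun b _ => ?_
    rw [Finset.mul_sum]
    refine Finset.sum_congr rfl fun c _ => ?_
    rw [Finset.mul_sum]
    refine Finset.sum_congr rfl fun e _ => ?_
    ring
  have hL : ∑ j, ⟪u, Matrix.toEuclideanLin (Q j) v⟫_ℂ * ⟪w, Matrix.toEuclideanLin (Q j) z⟫_ℂ +
          ∑ i, (⟪u, x i⟫_ℂ * ⟪x i, v⟫_ℂ) * (⟪w, x i⟫_ℂ * ⟪x i, z⟫_ℂ) =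
      ∑ a, ∑ b, ∑ c, ∑ e, (conj (u a) * v b * conj (w c) * z e) *
        (∑ j, Q j a b * Q j c e + ∑ i, PP (x i) a b * PP (x i) c e) := by
    have h1 : ∀ j, ⟪u, Matrix.toEuclideanLin (Q j) v⟫_ℂ * ⟪w, Matrix.toEuclideanLin (Q j) z⟫_ℂ =
        ∑ a, ∑ b, ∑ c, ∑ e, (conj (u a) * v b * conj (w c) * z e) * (Q j a b * Q j c e) := by
      intro j
      rw [hAj, hAj, hprod]
    have h2 : ∀ i, (⟪u, x i⟫_ℂ * ⟪x i, v⟫_ℂ) * (⟪w, x i⟫_ℂ * ⟪x i, z⟫_ℂ) =
        ∑ a, ∑ b, ∑ c, ∑ e, (conj (u a) * v b * conj (w c) * z e) *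
          (PP (x i) a b * PP (x i) c e) := by
      intro i
      rw [hPi, hPi]
      exact hprod (Matrix.of (PP (x i))) (Matrix.of (PP (x i)))
    rw [Finset.sum_congr rfl fun j _ => h1 j, Finset.sum_congr rfl fun i _ => h2 i]
    simp only [mul_add, Finset.mul_sum, Finset.sum_add_distrib]
    congr 1
    · rw [Finset.sum_comm]
      refine Finset.sum_congr rfl fun a _ => ?_
      rw [Finset.sum_comm]
      refine Finset.sum_congr rfl fun b _ => ?_
      rw [Finset.sum_comm]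
      refine Finset.sum_congr rfl fun c _ => ?_
      rw [Finset.sum_comm]
    · rw [Finset.sum_comm]
      refine Finset.sum_congr rfl fun a _ => ?_
      rw [Finset.sum_comm]
      refine Finset.sum_congr rfl fun b _ => ?_
      rw [Finset.sum_comm]
      refine Finset.sum_congr rfl fun c _ => ?_
      rw [Finset.sum_comm]
  rw [hL]
  simp only [hK]
  have hR : ∀ a b c e : Fin d, (conj (u a) * v b * conj (w c) * z e) *
      (((d : ℂ) / (d + 1)) * ((if a = e then 1 else 0) * (if c = b then 1 else 0) +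
        (if a = b then 1 else 0) * (if c = e then 1 else 0))) =
      ((d : ℂ) / (d + 1)) * ((if a = e then conj (u a) * z e else 0) *
        (if c = b then conj (w c) * v b else 0)) +
      ((d : ℂ) / (d + 1)) * ((if a = b then conj (u a) * v b else 0) *
        (if c = e then conj (w c) * z e else 0)) := by
    intro a b c e
    split_ifs <;> ring
  simp only [hR, Finset.sum_add_distrib]
  have hR1 : ∑ a, ∑ b, ∑ c, ∑ e, ((d : ℂ) / (d + 1)) * ((if a = e then conj (u a) * z e else 0) *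
        (if c = b then conj (w c) * v b else 0)) = ((d : ℂ) / (d + 1)) * (⟪u, z⟫_ℂ * ⟪w, v⟫_ℂ) := by
    rw [inner_eq_sum, inner_eq_sum, Finset.sum_mul_sum, Finset.mul_sum]
    refine Finset.sum_congr rfl fun a _ => ?_
    rw [Finset.mul_sum]
    refine Finset.sum_congr rfl fun b _ => ?_
    simp only [← Finset.mul_sum, ← Finset.sum_mul]
    simp
  have hR2 : ∑ a, ∑ b, ∑ c, ∑ e, ((d : ℂ) / (d + 1)) * ((if a = b then conj (u a) * v b else 0) *
        (if c = e then conj (w c) * z e else 0)) = ((d : ℂ) / (d + 1)) * (⟪u, v⟫_ℂ * ⟪w, z⟫_ℂ) := by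
    rw [inner_eq_sum, inner_eq_sum, Finset.sum_mul_sum, Finset.mul_sum]
    refine Finset.sum_congr rfl fun a _ => ?_
    rw [Finset.mul_sum]
    simp only [← Finset.mul_sum, ← Finset.sum_mul]
    simp
  rw [hR1, hR2]
  ring

end Pool.Agent.H103R3
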