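import Mathlib
import Pool.Agent.H103R3.Herm

set_option autoImplicit false
set_option linter.unusedSectionVars false

namespace Pool.Agent.H103R3.Blocks

open scoped InnerProductSpace ComplexConjugate

variable {d : ℕ}

/-- the operator `u ↦ ⟨b,u⟩ a` -/
noncomputable def rk (a b : EuclideanSpace ℂ (Fin d)) :
    EuclideanSpace ℂ (Fin d) →ₗ[ℂ] EuclideanSpace ℂ (Fin d) := (innerₛₗ ℂ b).smulRight a

theorem rk_apply (a b u : EuclideanSpace ℂ (Fin d)) : rk a b u = ⟪b, u⟫_ℂ • a := rfl

theorem trace_rk (a b : EuclideanSpace ℂ (Fin d)) : LinearMap.trace ℂ _ (rk a b) = ⟪b, a⟫_ℂ := by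
  unfold rk
  rw [LinearMap.trace_smulRight]
  rfl

variable {ι κ : Type*} [Fintype ι] [DecidableEq ι] [DecidableEq κ]

/-- The (normalised) difference of two exterior squares: the form attached to the pair `(i,l)`. -/
noncomputable def wf (x : ι → EuclideanSpace ℂ (Fin d)) (i l : ι)
    (u v w z : EuclideanSpace ℂ (Fin d)) : ℂ :=
  (⟪u, x i⟫_ℂ * ⟪v, x l⟫_ℂ - ⟪v, x i⟫_ℂ * ⟪u, x l⟫_ℂ) * (⟪x i, w⟫_ℂ * ⟪x l, z⟫_ℂ)

/-- Independence of the forms attached to the pairs in the same class. -/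
def WInd (x : ι → EuclideanSpace ℂ (Fin d)) (c : ι → κ) : Prop :=
  ∀ K : ι → ι → ℂ, (∀ i l, K i l = K l i) → (∀ i l, K i l ≠ 0 → i ≠ l ∧ c i = c l) →
    (∀ u v w z, ∑ i, ∑ l, K i l * wf x i l u v w z = 0) → ∀ i l, K i l = 0

/-- The matrix `|⟨x_i,x_j⟩|² - 1/(d+1)`. -/
noncomputable def MM (x : ι → EuclideanSpace ℂ (Fin d)) : Matrix ι ι ℝ :=
  Matrix.of fun i j => ⟪rv (x i), rv (x j)⟫_ℝ - 1 / ((d : ℝ) + 1)

theorem MM_symm (x : ι → EuclideanSpace ℂ (Fin d)) (i j : ι) : MM x i j = MM x j i := by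
  simp only [MM, Matrix.of_apply]
  rw [real_inner_comm]

theorem MM_cast (x : ι → EuclideanSpace ℂ (Fin d)) (i j : ι) :
    ((MM x i j : ℝ) : ℂ) = ⟪x i, x j⟫_ℂ * ⟪x j, x i⟫_ℂ - 1 / ((d : ℂ) + 1) := by
  simp only [MM, Matrix.of_apply]
  push_cast
  rw [rv_rv]

/-- the matrix `MM` is injective. -/
theorem MM_inj (hd : 0 < d) (x : ι → EuclideanSpace ℂ (Fin d)) (c : ι → κ)
    (h1 : ∀ i, ⟪x i, x i⟫_ℂ = 1)
    (h2 : ∀ i j, c i ≠ c j → MM x i j = 0)
    (hW : WInd x c) (a : ι → ℝ) (ha : ∀ k, ∑ i, MM x k i * a i = 0) (i₀ : ι) : a i₀ = 0 := by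
  have hd1 : (0 : ℝ) < (d : ℝ) + 1 := by positivity
  have hd0 : (0 : ℝ) < (d : ℝ) := by exact_mod_cast hd
  set r : κ := c i₀ with hr
  set b : ι → ℝ := fun i => if c i = r then a i else 0 with hbdef
  have hb1 : ∀ k, ∑ i, MM x k i * b i = 0 := by
    intro k
    by_cases hk : c k = r
    · rw [← ha k]
      refine Finset.sum_congr rfl fun i _ => ?_
      simp only [hbdef]
      split_ifs with h
      · rfl
      · rw [h2 k i (fun h' => h (h' ▸ hk)), zero_mul, zero_mul]
    · refine Finset.sum_eq_zero fun i _ => ?_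
      simp only [hbdef]
      split_ifs with h
      · rw [h2 k i (fun h' => hk (h'.trans h)), zero_mul]
      · rw [mul_zero]
  set σ : ℝ := ∑ i, b i with hσ
  set A : EuclideanSpace ℝ (Fin d × Fin d) := ∑ i, b i • rv (x i) with hA
  have hpA : ∀ k, ⟪rv (x k), A⟫_ℝ = σ / ((d : ℝ) + 1) := by
    intro k
    rw [hA, inner_sum]
    have h := hb1 k
    simp only [MM, Matrix.of_apply, sub_mul, Finset.sum_sub_distrib] at h
    rw [← Finset.mul_sum, ← hσ, sub_eq_zero] at h
    rw [div_eq_inv_mul, ← one_div, ← h]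
    refine Finset.sum_congr rfl fun i _ => ?_
    rw [inner_smul_right]
    ring
  have hAA : ⟪A, A⟫_ℝ = σ * (σ / ((d : ℝ) + 1)) := by
    nth_rewrite 1 [hA]
    rw [sum_inner, hσ, Finset.sum_mul]
    refine Finset.sum_congr rfl fun i _ => ?_
    rw [inner_smul_left, hpA i, conj_trivial]
  have hιA : ⟪iv d, A⟫_ℝ = σ := by
    rw [hA, inner_sum, hσ]
    refine Finset.sum_congr rfl fun i _ => ?_
    have h : ⟪iv d, rv (x i)⟫_ℝ = 1 := by
      have h' := iv_rv (x i)
      rw [h1] at h'
      exact_mod_cast h'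
    rw [inner_smul_right, h, mul_one]
  have hCS := real_inner_mul_inner_self_le (iv d) A
  rw [hιA, iv_iv, hAA] at hCS
  have hσ0 : σ = 0 := by
    have h3 : σ * σ * ((d : ℝ) + 1) ≤ d * (σ * σ) := by
      have h4 := mul_le_mul_of_nonneg_right hCS hd1.le
      have h5 : (d : ℝ) * (σ * (σ / ((d : ℝ) + 1))) * ((d : ℝ) + 1) = d * (σ * σ) := by
        field_simp
      linarith
    nlinarith [mul_self_nonneg σ]
  have hA0 : A = 0 := by
    rw [hσ0] at hAA
    rw [zero_mul] at hAA
    exact inner_self_eq_zero.mp hAA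
  have hform : ∀ u v : EuclideanSpace ℂ (Fin d), ∑ i, (b i : ℂ) * (⟪u, x i⟫_ℂ * ⟪x i, v⟫_ℂ) = 0 := by
    intro u v
    have hPP : ∀ s t : Fin d, ∑ i, (b i : ℂ) * PP (x i) s t = 0 := by
      intro s t
      have e1 : ∀ p : Fin d × Fin d, ∑ i, (b i : ℂ) * ((rv (x i) p : ℝ) : ℂ) = 0 := by
        intro p
        have e2 : A p = 0 := by rw [hA0]; rfl
        have e3 : A p = ∑ i, b i * rv (x i) p := by
          rw [hA]
          simp
        have e5 := congrArg (fun t : ℝ => (t : ℂ)) (e3.symm.trans e2)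
        simp only [Complex.ofReal_sum, Complex.ofReal_mul, Complex.ofReal_zero] at e5
        exact e5
      have e4 : ∀ i, (b i : ℂ) * PP (x i) s t = al * ((b i : ℂ) * ((rv (x i) (s, t) : ℝ) : ℂ)) +
          be * ((b i : ℂ) * ((rv (x i) (t, s) : ℝ) : ℂ)) := by
        intro i
        rw [PP_eq]
        ring
      rw [Finset.sum_congr rfl fun i _ => e4 i, Finset.sum_add_distrib, ← Finset.mul_sum,
        ← Finset.mul_sum, e1, e1]
      simp
    have e5 : ∀ i, (b i : ℂ) * (⟪u, x i⟫_ℂ * ⟪x i, v⟫_ℂ) =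
        ∑ s, ∑ t, (conj (u s) * v t) * ((b i : ℂ) * PP (x i) s t) := by
      intro i
      rw [inner_eq_sum, inner_eq_sum, Finset.sum_mul_sum, Finset.mul_sum]
      refine Finset.sum_congr rfl fun s _ => ?_
      rw [Finset.mul_sum]
      refine Finset.sum_congr rfl fun t _ => ?_
      simp only [PP]
      ring
    rw [Finset.sum_congr rfl fun i _ => e5 i, Finset.sum_comm]
    refine Finset.sum_eq_zero fun s _ => ?_
    rw [Finset.sum_comm]
    refine Finset.sum_eq_zero fun t _ => ?_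
    rw [← Finset.mul_sum, hPP, mul_zero]
  -- the product coefficients
  have hprod : ∀ i l, (if i = l then (0 : ℂ) else (b i : ℂ) * b l) = 0 := by
    refine hW _ ?_ ?_ ?_
    · intro i l
      by_cases h : i = l
      · subst h; rfl
      · rw [if_neg h, if_neg (Ne.symm h), mul_comm]
    · intro i l h
      by_cases hil : i = l
      · rw [if_pos hil] at h; exact absurd rfl h
      · rw [if_neg hil] at h
        refine ⟨hil, ?_⟩
        have hbi : b i ≠ 0 := fun h' => h (by rw [h']; simp)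
        have hbl : b l ≠ 0 := fun h' => h (by rw [h']; simp)
        have hci : c i = r := by
          by_contra h'
          exact hbi (by simp only [hbdef]; rw [if_neg h'])
        have hcl : c l = r := by
          by_contra h'
          exact hbl (by simp only [hbdef]; rw [if_neg h'])
        rw [hci, hcl]
    · intro u v w z
      have e1 : ∀ i l, (if i = l then (0 : ℂ) else (b i : ℂ) * b l) * wf x i l u v w z =
          ((b i : ℂ) * (⟪u, x i⟫_ℂ * ⟪x i, w⟫_ℂ)) * ((b l : ℂ) * (⟪v, x l⟫_ℂ * ⟪x l, z⟫_ℂ)) -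
          ((b i : ℂ) * (⟪v, x i⟫_ℂ * ⟪x i, w⟫_ℂ)) * ((b l : ℂ) * (⟪u, x l⟫_ℂ * ⟪x l, z⟫_ℂ)) := by
        intro i l
        by_cases h : i = l
        · subst h
          rw [if_pos rfl]
          ring
        · rw [if_neg h]
          simp only [wf]
          ring
      simp only [e1, Finset.sum_sub_distrib]
      rw [← Finset.sum_mul_sum, ← Finset.sum_mul_sum, hform u w, hform v w]
      ring
  by_contra hne
  have hbi0 : b i₀ = a i₀ := by simp only [hbdef]; rw [if_pos hr.symm]
  have hb0 : ∀ l, l ≠ i₀ → b l = 0 := by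
    intro l hl
    have h := hprod i₀ l
    rw [if_neg (Ne.symm hl)] at h
    have h' : b i₀ * b l = 0 := by exact_mod_cast h
    exact (mul_eq_zero.mp h').resolve_left (by rw [hbi0]; exact hne)
  have hs : σ = a i₀ := by
    rw [hσ, Finset.sum_eq_single i₀ (fun l _ hl => hb0 l hl)
      (fun h => absurd (Finset.mem_univ _) h), hbi0]
  exact hne (hs ▸ hσ0)

/-- `d²` unit vectors whose unknown angles are confined to classes with independent forms are a
maximal ETF. -/
theorem blocks (hd : 0 < d) (hcard : Fintype.card ι = d ^ 2)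
    (x : ι → EuclideanSpace ℂ (Fin d)) (c : ι → κ)
    (h1 : ∀ i, ⟪x i, x i⟫_ℂ = 1)
    (h2 : ∀ i j, c i ≠ c j → ⟪x i, x j⟫_ℂ * ⟪x j, x i⟫_ℂ = 1 / ((d : ℂ) + 1))
    (hW : WInd x c) (i₀ j₀ : ι) (hij : i₀ ≠ j₀) :
    ⟪x i₀, x j₀⟫_ℂ * ⟪x j₀, x i₀⟫_ℂ = 1 / ((d : ℂ) + 1) := by
  have hd1 : (d : ℂ) + 1 ≠ 0 := by exact_mod_cast Nat.succ_ne_zero d
  have hM2 : ∀ i j, c i ≠ c j → MM x i j = 0 := by
    intro i j h
    have h' := MM_cast x i j
    rw [h2 i j h, sub_self] at h'
    exact_mod_cast h'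
  have hinj : Function.Injective (MM x).mulVec := by
    intro a a' h
    funext i
    have h3 := MM_inj hd x c h1 hM2 hW (a - a') (fun k => by
      have h4 := congrFun h k
      simp only [Matrix.mulVec, dotProduct] at h4
      simp only [Pi.sub_apply, mul_sub, Finset.sum_sub_distrib]
      rw [h4, sub_self]) i
    exact sub_eq_zero.mp h3
  have hu : IsUnit (MM x) := Matrix.mulVec_injective_iff_isUnit.mp hinj
  have hdet := (Matrix.isUnit_iff_isUnit_det _).mp hu
  obtain ⟨K, hK⟩ : ∃ K, K = (MM x)⁻¹ := ⟨_, rfl⟩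
  have hKM : K * MM x = 1 := by rw [hK]; exact Matrix.nonsing_inv_mul _ hdet
  have hMK : MM x * K = 1 := by rw [hK]; exact Matrix.mul_nonsing_inv _ hdet
  have hKs : ∀ i l, K i l = K l i := by
    intro i l
    have h3 : (MM x).transpose = MM x := by
      ext p q
      exact MM_symm x q p
    have h4 : K.transpose = K := by
      rw [hK, Matrix.transpose_nonsing_inv, h3]
    exact congrFun (congrFun h4 l) i
  have hKb : ∀ i l, c i ≠ c l → K i l = 0 := by
    intro i l hil
    let D : Matrix ι ι ℝ := Matrix.diagonal (fun j => if c j = c i then 1 else 0)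
    have hDM : D * MM x = MM x * D := by
      ext p q
      simp only [D]
      rw [Matrix.diagonal_mul, Matrix.mul_diagonal]
      by_cases hpq : c p = c q
      · rw [hpq, mul_comm]
      · rw [hM2 p q hpq, mul_zero, zero_mul]
    have hDK : D * K = K * D := by
      calc D * K = (K * MM x) * (D * K) := by rw [hKM, Matrix.one_mul]
        _ = K * (MM x * D) * K := by simp only [Matrix.mul_assoc]
        _ = K * (D * MM x) * K := by rw [hDM]
        _ = K * D * (MM x * K) := by simp only [Matrix.mul_assoc]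
        _ = K * D := by rw [hMK, Matrix.mul_one]
    have h3 := congrFun (congrFun hDK i) l
    simp only [D] at h3
    rw [Matrix.diagonal_mul, Matrix.mul_diagonal, if_pos rfl, if_neg (Ne.symm hil), one_mul,
      mul_zero] at h3
    exact h3
  have hKMc : ∀ j i, ∑ k, ((K j k : ℝ) : ℂ) * ((MM x k i : ℝ) : ℂ) = if j = i then 1 else 0 := by
    intro j i
    have h3 := congrFun (congrFun hKM j) i
    rw [Matrix.mul_apply, Matrix.one_apply] at h3
    have h4 := congrArg (fun t : ℝ => (t : ℂ)) h3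
    simp only [Complex.ofReal_sum, Complex.ofReal_mul] at h4
    rw [h4]
    split_ifs <;> simp
  -- solve `M a = f` over ℂ
  have hsolve : ∀ a f : ι → ℂ, (∀ k, ∑ i, ((MM x k i : ℝ) : ℂ) * a i = f k) →
      ∀ j, a j = ∑ k, ((K j k : ℝ) : ℂ) * f k := by
    intro a f haf j
    have e1 : ∑ k, ((K j k : ℝ) : ℂ) * f k = ∑ i, (∑ k, ((K j k : ℝ) : ℂ) *
        ((MM x k i : ℝ) : ℂ)) * a i := by
      simp only [Finset.sum_mul]
      rw [Finset.sum_comm]
      refine Finset.sum_congr rfl fun k _ => ?_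
      rw [← haf k, Finset.mul_sum]
      refine Finset.sum_congr rfl fun i _ => ?_
      ring
    rw [e1]
    simp only [hKMc, ite_mul, one_mul, zero_mul, Finset.sum_ite_eq, Finset.mem_univ, if_true]
  have hgen : ∀ a : ι → ℂ, ∀ X, ∑ i, a i • rk (x i) (x i) = X →
      (LinearMap.trace ℂ _ X = ∑ i, a i) ∧ ∀ k, ∑ i, ((MM x k i : ℝ) : ℂ) * a i =
        ⟪x k, X (x k)⟫_ℂ - (1 / ((d : ℂ) + 1)) * LinearMap.trace ℂ _ X := by
    intro a X hX
    have htr : LinearMap.trace ℂ _ X = ∑ i, a i := by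
      rw [← hX, map_sum]
      refine Finset.sum_congr rfl fun i _ => ?_
      rw [map_smul, trace_rk, h1, smul_eq_mul, mul_one]
    refine ⟨htr, fun k => ?_⟩
    rw [htr, ← hX]
    simp only [LinearMap.sum_apply, LinearMap.smul_apply, rk_apply, inner_sum, inner_smul_right]
    rw [Finset.mul_sum, ← Finset.sum_sub_distrib]
    refine Finset.sum_congr rfl fun i _ => ?_
    rw [MM_cast]
    ring
  have hli : LinearIndependent ℂ (fun i => rk (x i) (x i)) := by
    rw [Fintype.linearIndependent_iff]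
    intro a ha i
    have h3 := (hgen a 0 ha).2
    have h4 := hsolve a (fun _ => 0) (fun k => by rw [h3 k]; simp) i
    rw [h4]
    simp
  have hne : Nonempty ι := ⟨i₀⟩
  have hfr : Fintype.card ι =
      Module.finrank ℂ (EuclideanSpace ℂ (Fin d) →ₗ[ℂ] EuclideanSpace ℂ (Fin d)) := by
    rw [Module.finrank_linearMap, finrank_euclideanSpace_fin, hcard, sq]
  let b := basisOfLinearIndependentOfCardEqFinrank hli hfr
  have hb : ∀ i, b i = rk (x i) (x i) := fun i => by
    simp only [b, coe_basisOfLinearIndependentOfCardEqFinrank]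
  have hrep : ∀ X, ∑ i, b.coord i X • rk (x i) (x i) = X := by
    intro X
    have h := b.sum_repr X
    simp only [hb] at h
    exact h
  let y : ι → ℂ := fun i => b.coord i LinearMap.id
  let m : ι → (EuclideanSpace ℂ (Fin d) →ₗ[ℂ] EuclideanSpace ℂ (Fin d)) → ℂ :=
    fun i X => b.coord i X + y i * LinearMap.trace ℂ _ X
  have htrid : LinearMap.trace ℂ (EuclideanSpace ℂ (Fin d)) LinearMap.id = (d : ℂ) := by
    rw [LinearMap.trace_id, finrank_euclideanSpace_fin]
  have hm : ∀ i X, m i X = ∑ l, ((K i l : ℝ) : ℂ) * ⟪x l, X (x l)⟫_ℂ := by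
    intro i X
    refine hsolve (fun i => m i X) (fun l => ⟪x l, X (x l)⟫_ℂ) ?_ i
    intro k
    have e1 := (hgen _ _ (hrep X)).2 k
    have e2 := (hgen _ _ (hrep LinearMap.id)).2 k
    rw [htrid, LinearMap.id_apply, h1] at e2
    simp only [m, mul_add, Finset.sum_add_distrib]
    rw [e1]
    have e3 : ∑ i, ((MM x k i : ℝ) : ℂ) * (y i * LinearMap.trace ℂ _ X) =
        (∑ i, ((MM x k i : ℝ) : ℂ) * b.coord i LinearMap.id) * LinearMap.trace ℂ _ X := by
      rw [Finset.sum_mul]
      refine Finset.sum_congr rfl fun i _ => ?_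
      simp only [y]
      ring
    rw [e3, e2]
    field_simp
    ring
  have hsum : ∀ X c', ∑ i, (m i X * ⟪x i, c'⟫_ℂ) • x i =
      X c' + LinearMap.trace ℂ _ X • c' := by
    intro X c'
    have e1 := congrArg (fun T : EuclideanSpace ℂ (Fin d) →ₗ[ℂ] EuclideanSpace ℂ (Fin d) => T c')
      (hrep X)
    have e2 := congrArg (fun T : EuclideanSpace ℂ (Fin d) →ₗ[ℂ] EuclideanSpace ℂ (Fin d) => T c')
      (hrep LinearMap.id)
    simp only [LinearMap.sum_apply, LinearMap.smul_apply, rk_apply, LinearMap.id_apply] at e1 e2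
    rw [← e1]
    nth_rewrite 3 [← e2]
    rw [Finset.smul_sum, ← Finset.sum_add_distrib]
    refine Finset.sum_congr rfl fun i _ => ?_
    rw [smul_smul, smul_smul, smul_smul, ← add_smul]
    congr 1
    simp only [m, y]
    ring
  have hT : ∀ u v w z : EuclideanSpace ℂ (Fin d), ∑ i, ∑ l, ((K i l : ℝ) : ℂ) *
      ((⟪u, x i⟫_ℂ * ⟪x i, w⟫_ℂ) * (⟪v, x l⟫_ℂ * ⟪x l, z⟫_ℂ)) =
      ⟪v, w⟫_ℂ * ⟪u, z⟫_ℂ + ⟪v, z⟫_ℂ * ⟪u, w⟫_ℂ := by
    intro u v w z
    have e1 := congrArg (fun t => ⟪u, t⟫_ℂ) (hsum (rk z v) w)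
    simp only [rk_apply, trace_rk, inner_sum, inner_smul_right, inner_add_right] at e1
    rw [← e1]
    refine Finset.sum_congr rfl fun i _ => ?_
    rw [hm]
    simp only [rk_apply, inner_smul_right]
    rw [Finset.sum_mul, Finset.sum_mul]
    refine Finset.sum_congr rfl fun l _ => ?_
    ring
  have hoff : ∀ i l, (if i = l then (0 : ℂ) else ((K i l : ℝ) : ℂ)) = 0 := by
    refine hW _ ?_ ?_ ?_
    · intro i l
      by_cases h : i = l
      · subst h; rfl
      · rw [if_neg h, if_neg (Ne.symm h), hKs]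
    · intro i l h
      by_cases hil : i = l
      · rw [if_pos hil] at h; exact absurd rfl h
      · rw [if_neg hil] at h
        refine ⟨hil, ?_⟩
        by_contra h'
        exact h (by rw [hKb i l h']; simp)
    · intro u v w z
      have e1 : ∀ i l, (if i = l then (0 : ℂ) else ((K i l : ℝ) : ℂ)) * wf x i l u v w z =
          ((K i l : ℝ) : ℂ) * ((⟪u, x i⟫_ℂ * ⟪x i, w⟫_ℂ) * (⟪v, x l⟫_ℂ * ⟪x l, z⟫_ℂ)) -
          ((K i l : ℝ) : ℂ) * ((⟪v, x i⟫_ℂ * ⟪x i, w⟫_ℂ) * (⟪u, x l⟫_ℂ * ⟪x l, z⟫_ℂ)) := by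
        intro i l
        by_cases h : i = l
        · subst h
          rw [if_pos rfl]
          ring
        · rw [if_neg h]
          simp only [wf]
          ring
      simp only [e1, Finset.sum_sub_distrib]
      rw [hT u v w z, hT v u w z]
      ring
  have hoff' : ∀ i l, i ≠ l → K i l = 0 := by
    intro i l h
    have h3 := hoff i l
    rw [if_neg h] at h3
    exact_mod_cast h3
  have hfin : ∀ i j, MM x i j * K j j = if i = j then 1 else 0 := by
    intro i j
    have h3 := congrFun (congrFun hMK i) j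
    rw [Matrix.mul_apply, Matrix.one_apply, Finset.sum_eq_single j] at h3
    · exact h3
    · intro k _ hk
      rw [hoff' k j hk, mul_zero]
    · intro h
      exact absurd (Finset.mem_univ _) h
  have hKjj : K j₀ j₀ ≠ 0 := by
    intro h
    have h3 := hfin j₀ j₀
    rw [h, mul_zero, if_pos rfl] at h3
    exact zero_ne_one h3
  have h3 := hfin i₀ j₀
  rw [if_neg hij] at h3
  have h4 := (mul_eq_zero.mp h3).resolve_right hKjj
  have h5 := MM_cast x i₀ j₀
  rw [h4] at h5
  have h6 := sub_eq_zero.mp (h5.symm.trans (by simp : ((0 : ℝ) : ℂ) = 0))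
  exact h6

theorem exists_dual (x : ι → EuclideanSpace ℂ (Fin d)) (T : Finset ι)
    (hT : LinearIndependent ℂ (fun j : T => x j)) (k : ι) :
    ∃ b : EuclideanSpace ℂ (Fin d), (∀ j ∈ T, ⟪b, x j⟫_ℂ = if j = k then 1 else 0) ∧
      ∀ j ∈ T, ⟪x j, b⟫_ℂ = if j = k then 1 else 0 := by
  obtain ⟨g, hg⟩ := LinearMap.exists_leftInverse_of_injective
    (Finsupp.linearCombination ℂ (fun j : T => x j)) (LinearMap.ker_eq_bot.mpr hT)
  let φ : EuclideanSpace ℂ (Fin d) →ₗ[ℂ] ℂ :=
    (Finsupp.linearCombination ℂ (fun j : T => if (j : ι) = k then (1 : ℂ) else 0)).comp g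
  have hφ : ∀ j : T, φ (x j) = if (j : ι) = k then (1 : ℂ) else 0 := by
    intro j
    have h1 : g (x j) = Finsupp.single j 1 := by
      have h2 := LinearMap.congr_fun hg (Finsupp.single j 1)
      rw [LinearMap.comp_apply, Finsupp.linearCombination_single, one_smul, LinearMap.id_apply] at h2
      exact h2
    simp only [φ, LinearMap.comp_apply]
    rw [h1, Finsupp.linearCombination_single, one_smul]
  let b := (InnerProductSpace.toDual ℂ (EuclideanSpace ℂ (Fin d))).symm
    (LinearMap.toContinuousLinearMap φ)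
  have hb : ∀ u, ⟪b, u⟫_ℂ = φ u := by
    intro u
    simp only [b]
    rw [InnerProductSpace.toDual_symm_apply]
    rfl
  refine ⟨b, fun j hj => ?_, fun j hj => ?_⟩
  · rw [hb]
    exact hφ ⟨j, hj⟩
  · rw [← inner_conj_symm, hb]
    have h := hφ ⟨j, hj⟩
    simp only at h
    rw [h]
    split_ifs <;> simp

/-- The Kruskal-type condition implies independence. -/
theorem kruskal (x : ι → EuclideanSpace ℂ (Fin d)) (c : ι → κ) (ρ : ℕ)
    (hρ : ∀ S : Finset ι, S.card ≤ ρ → (∀ i ∈ S, ∃ j, j ≠ i ∧ c j = c i) →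
      LinearIndependent ℂ (fun i : S => x i))
    (hn : Fintype.card ι + 3 ≤ (Finset.univ.image c).card + 2 * ρ) : WInd x c := by
  intro K hs hsupp hsum i₀ l₀
  by_contra hne
  obtain ⟨hil, hc⟩ := hsupp i₀ l₀ hne
  -- representatives
  obtain ⟨σ, hσ1, hσ2⟩ : ∃ σ : κ → ι, (∀ i, c (σ (c i)) = c i) ∧ σ (c i₀) = i₀ := by
    refine ⟨fun r => if r = c i₀ then i₀ else if h : ∃ i, c i = r then h.choose else i₀, ?_, ?_⟩
    · intro i
      by_cases h : c i = c i₀
      · simp only [if_pos h]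
        exact h.symm
      · simp only [if_neg h]
        have h' : ∃ j, c j = c i := ⟨i, rfl⟩
        rw [dif_pos h']
        exact h'.choose_spec
    · simp
  set R : Finset ι := (Finset.univ.image c).image σ with hR
  have hmemR : ∀ i, i ∈ R ↔ σ (c i) = i := by
    intro i
    rw [hR]
    simp only [Finset.mem_image, Finset.mem_univ, true_and, exists_exists_eq_and]
    constructor
    · rintro ⟨j, hj⟩
      have h3 : c i = c j := by rw [← hj, hσ1]
      rw [h3, hj]
    · intro h
      exact ⟨i, h⟩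
  have hRcard : R.card = (Finset.univ.image c).card := by
    rw [hR]
    apply Finset.card_image_of_injOn
    intro r hr r' hr' h
    simp only [Finset.coe_image, Finset.coe_univ, Set.image_univ, Set.mem_range] at hr hr'
    obtain ⟨i, rfl⟩ := hr
    obtain ⟨j, rfl⟩ := hr'
    have h3 := congrArg c h
    rwa [hσ1, hσ1] at h3
  have hl₀R : l₀ ∉ R := by
    rw [hmemR, ← hc, hσ2]
    exact hil
  have hi₀R : i₀ ∈ R := by rw [hmemR, hσ2]
  set T : Finset ι := Rᶜ.erase l₀ with hT
  have hTcard : T.card + 1 + R.card = Fintype.card ι := by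
    rw [hT, Finset.card_erase_of_mem (by rw [Finset.mem_compl]; exact hl₀R), Finset.card_compl]
    have h3 : R.card < Fintype.card ι := by
      rw [← Finset.card_univ]
      exact Finset.card_lt_card (Finset.ssubset_univ_iff.mpr (fun h => hl₀R (h ▸ Finset.mem_univ _)))
    omega
  have hmemT : ∀ i, i ∈ T ↔ i ≠ l₀ ∧ σ (c i) ≠ i := by
    intro i
    rw [hT, Finset.mem_erase, Finset.mem_compl, hmemR]
  have hTρ : T.card ≤ 2 * (ρ - 2) := by omega
  have hρ2 : 2 ≤ ρ := by omega
  obtain ⟨S, hST, hScard⟩ := Finset.exists_subset_card_eq (Nat.min_le_left T.card (ρ - 2))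
  have hS'card : (T \ S).card ≤ ρ - 2 := by
    rw [Finset.card_sdiff_of_subset hST, hScard]
    omega
  have hScard' : S.card ≤ ρ - 2 := by rw [hScard]; exact Nat.min_le_right _ _
  have hind : ∀ U : Finset ι, U ⊆ T → U.card ≤ ρ - 2 →
      LinearIndependent ℂ (fun i : (insert i₀ (insert l₀ U) : Finset ι) => x i) := by
    intro U hUT hU
    apply hρ
    · have h3 := Finset.card_insert_le i₀ (insert l₀ U)
      have h4 := Finset.card_insert_le l₀ U
      omega
    · intro i hi
      rw [Finset.mem_insert, Finset.mem_insert] at hi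
      rcases hi with rfl | rfl | hi
      · exact ⟨l₀, hil.symm, hc.symm⟩
      · exact ⟨i₀, hil, hc⟩
      · exact ⟨σ (c i), ((hmemT i).mp (hUT hi)).2, hσ1 i⟩
  have hmem : ∀ U : Finset ι, ∀ i, i = i₀ ∨ i = l₀ ∨ i ∈ U → i ∈ insert i₀ (insert l₀ U) := by
    intro U i hi
    rw [Finset.mem_insert, Finset.mem_insert]
    exact hi
  obtain ⟨u, hu, -⟩ := exists_dual x _ (hind S hST hScard') i₀
  obtain ⟨v, hv, -⟩ := exists_dual x _ (hind S hST hScard') l₀
  obtain ⟨w, -, hw⟩ := exists_dual x _ (hind (T \ S) Finset.sdiff_subset hS'card) i₀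
  obtain ⟨z, -, hz⟩ := exists_dual x _ (hind (T \ S) Finset.sdiff_subset hS'card) l₀
  have hTi₀ : ∀ i ∈ T, i ≠ i₀ := by
    intro i hi h
    subst h
    exact ((hmemT i).mp hi).2 hσ2
  have hTl₀ : ∀ i ∈ T, i ≠ l₀ := fun i hi => ((hmemT i).mp hi).1
  have hSu : ∀ i ∈ S, ⟪u, x i⟫_ℂ = 0 ∧ ⟪v, x i⟫_ℂ = 0 := by
    intro i hi
    rw [hu i (hmem S i (Or.inr (Or.inr hi))), hv i (hmem S i (Or.inr (Or.inr hi))),
      if_neg (hTi₀ i (hST hi)), if_neg (hTl₀ i (hST hi))]
    exact ⟨rfl, rfl⟩
  have hSw : ∀ i ∈ T \ S, ⟪x i, w⟫_ℂ = 0 ∧ ⟪x i, z⟫_ℂ = 0 := by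
    intro i hi
    have hiT : i ∈ T := Finset.sdiff_subset hi
    rw [hw i (hmem _ i (Or.inr (Or.inr hi))), hz i (hmem _ i (Or.inr (Or.inr hi))),
      if_neg (hTi₀ i hiT), if_neg (hTl₀ i hiT)]
    exact ⟨rfl, rfl⟩
  have hterm : ∀ i l, K i l * wf x i l u v w z =
      if i = i₀ ∧ l = l₀ then K i₀ l₀ else 0 := by
    intro i l
    by_cases hp : i = i₀ ∧ l = l₀
    · obtain ⟨rfl, rfl⟩ := hp
      rw [if_pos ⟨rfl, rfl⟩, wf, hu i (hmem S i (Or.inl rfl)), hv l (hmem S l (Or.inr (Or.inl rfl))),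
        hv i (hmem S i (Or.inl rfl)), hw i (hmem _ i (Or.inl rfl)),
        hz l (hmem _ l (Or.inr (Or.inl rfl))), if_pos rfl, if_pos rfl, if_neg hil]
      ring
    · rw [if_neg hp]
      by_cases hK : K i l = 0
      · rw [hK, zero_mul]
      obtain ⟨hil', hc'⟩ := hsupp i l hK
      have hz0 : wf x i l u v w z = 0 := by
        by_cases hiT : i ∈ T
        · by_cases hiS : i ∈ S
          · rw [wf, (hSu i hiS).1, (hSu i hiS).2]
            ring
          · rw [wf, (hSw i (Finset.mem_sdiff.mpr ⟨hiT, hiS⟩)).1]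
            ring
        · by_cases hlT : l ∈ T
          · by_cases hlS : l ∈ S
            · rw [wf, (hSu l hlS).1, (hSu l hlS).2]
              ring
            · rw [wf, (hSw l (Finset.mem_sdiff.mpr ⟨hlT, hlS⟩)).2]
              ring
          · rw [hmemT, not_and_or, not_not, not_not] at hiT hlT
            rcases hiT with hi | hi
            · -- i = l₀
              rcases hlT with hl | hl
              · exact absurd (hi.trans hl.symm) hil'
              · have h3 : l = i₀ := by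
                  rw [← hl, ← hc', hi, ← hc, hσ2]
                rw [wf, hi, hw l₀ (hmem _ l₀ (Or.inr (Or.inl rfl))), if_neg hil.symm]
                ring
            · rcases hlT with hl | hl
              · exfalso
                apply hp
                refine ⟨?_, hl⟩
                rw [← hi, hc', hl, ← hc, hσ2]
              · exact absurd (hi.symm.trans ((congrArg σ hc').trans hl)) hil'
      rw [hz0, mul_zero]
  have h3 := hsum u v w z
  have h4 : ∑ i, ∑ l, K i l * wf x i l u v w z = K i₀ l₀ := by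
    rw [Finset.sum_eq_single i₀]
    · rw [Finset.sum_eq_single l₀]
      · rw [hterm, if_pos ⟨rfl, rfl⟩]
      · intro l _ hl
        rw [hterm, if_neg (fun h => hl h.2)]
      · intro h
        exact absurd (Finset.mem_univ _) h
    · intro i _ hi
      refine Finset.sum_eq_zero fun l _ => ?_
      rw [hterm, if_neg (fun h => hi h.1)]
    · intro h
      exact absurd (Finset.mem_univ _) h
  rw [h4] at h3
  exact hne h3

/-- Linear independence of the forms attached to the unordered pairs implies `WInd`. -/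
theorem wind_of_li [LinearOrder ι] (x : ι → EuclideanSpace ℂ (Fin d)) (c : ι → κ)
    (h : LinearIndependent ℂ (fun (p : {p : ι × ι // p.1 < p.2 ∧ c p.1 = c p.2})
      (u v w z : EuclideanSpace ℂ (Fin d)) =>
        (⟪u, x p.1.1⟫_ℂ * ⟪v, x p.1.2⟫_ℂ - ⟪v, x p.1.1⟫_ℂ * ⟪u, x p.1.2⟫_ℂ) *
        (⟪x p.1.1, w⟫_ℂ * ⟪x p.1.2, z⟫_ℂ - ⟪x p.1.1, z⟫_ℂ * ⟪x p.1.2, w⟫_ℂ))) : WInd x c := by
  intro K hs hsupp hsum
  have h1 : ∀ i l, i < l → K i l = 0 := by
    intro i l hil
    by_contra hne
    have hc := (hsupp i l hne).2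
    have h2 := (Fintype.linearIndependent_iff.mp h) (fun p => K p.1.1 p.1.2) ?_ ⟨(i, l), hil, hc⟩
    · exact hne h2
    · funext u v w z
      simp only [Finset.sum_apply, Pi.smul_apply, smul_eq_mul, Pi.zero_apply]
      let F : ι × ι → ℂ := fun p => K p.1 p.2 *
        ((⟪u, x p.1⟫_ℂ * ⟪v, x p.2⟫_ℂ - ⟪v, x p.1⟫_ℂ * ⟪u, x p.2⟫_ℂ) *
        (⟪x p.1, w⟫_ℂ * ⟪x p.2, z⟫_ℂ - ⟪x p.1, z⟫_ℂ * ⟪x p.2, w⟫_ℂ))
      have e0 : ∑ p : {p : ι × ι // p.1 < p.2 ∧ c p.1 = c p.2}, F p =
          ∑ p ∈ Finset.univ.filter (fun p : ι × ι => p.1 < p.2 ∧ c p.1 = c p.2), F p :=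
        (Finset.sum_subtype _ (by simp) _).symm
      have e1 : ∑ p ∈ Finset.univ.filter (fun p : ι × ι => p.1 < p.2 ∧ c p.1 = c p.2), F p =
          ∑ p ∈ Finset.univ.filter (fun p : ι × ι => p.1 < p.2), F p := by
        apply Finset.sum_subset
        · intro p hp
          rw [Finset.mem_filter] at hp ⊢
          exact ⟨hp.1, hp.2.1⟩
        · intro p hp hp'
          rw [Finset.mem_filter] at hp hp'
          have h3 : K p.1 p.2 = 0 := by
            by_contra h4
            exact hp' ⟨hp.1, hp.2, (hsupp _ _ h4).2⟩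
          simp only [F]
          rw [h3, zero_mul]
      have e2 : ∑ p, F p = 0 := by
        have e3 : ∑ p, F p = ∑ i, ∑ l, K i l * wf x i l u v w z -
            ∑ i, ∑ l, K i l * wf x i l u v z w := by
          rw [Fintype.sum_prod_type, ← Finset.sum_sub_distrib]
          refine Finset.sum_congr rfl fun i _ => ?_
          rw [← Finset.sum_sub_distrib]
          refine Finset.sum_congr rfl fun l _ => ?_
          simp only [F, wf]
          ring
        rw [e3, hsum, hsum, sub_zero]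
      have e4 : ∑ p, F p = ∑ p ∈ Finset.univ.filter (fun p : ι × ι => p.1 < p.2), F p +
          ∑ p ∈ Finset.univ.filter (fun p : ι × ι => ¬ p.1 < p.2), F p :=
        (Finset.sum_filter_add_sum_filter_not _ _ _).symm
      have e5 : ∑ p ∈ Finset.univ.filter (fun p : ι × ι => ¬ p.1 < p.2), F p =
          ∑ p ∈ Finset.univ.filter (fun p : ι × ι => p.2 < p.1), F p := by
        symm
        apply Finset.sum_subset
        · intro p hp
          rw [Finset.mem_filter] at hp ⊢
          exact ⟨hp.1, not_lt_of_gt hp.2⟩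
        · intro p hp hp'
          rw [Finset.mem_filter] at hp hp'
          have h3 : p.1 = p.2 := by
            rcases lt_trichotomy p.1 p.2 with h4 | h4 | h4
            · exact absurd h4 hp.2
            · exact h4
            · exact absurd ⟨hp.1, h4⟩ hp'
          simp only [F]
          rw [h3]
          ring
      have e6 : ∑ p ∈ Finset.univ.filter (fun p : ι × ι => p.2 < p.1), F p =
          ∑ p ∈ Finset.univ.filter (fun p : ι × ι => p.1 < p.2), F p := by
        refine Finset.sum_bij (fun p _ => p.swap) ?_ ?_ ?_ ?_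
        · intro p hp
          rw [Finset.mem_filter] at hp ⊢
          exact ⟨Finset.mem_univ _, hp.2⟩
        · intro p _ q _ h
          exact Prod.swap_injective h
        · intro p hp
          rw [Finset.mem_filter] at hp
          exact ⟨p.swap, by rw [Finset.mem_filter]; exact ⟨Finset.mem_univ _, hp.2⟩, by simp⟩
        · intro p _
          simp only [F, Prod.fst_swap, Prod.snd_swap]
          rw [hs p.2 p.1]
          ring
      rw [e5, e6] at e4
      rw [e2] at e4
      have e7 : ∑ p ∈ Finset.univ.filter (fun p : ι × ι => p.1 < p.2), F p = 0 := by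
        linear_combination (-1 / 2 : ℂ) * e4
      exact e0.trans (e1.trans e7)
  intro i l
  rcases lt_trichotomy i l with h2 | h2 | h2
  · exact h1 i l h2
  · by_contra h3
    exact (hsupp i l h3).1 h2
  · rw [hs]
    exact h1 l i h2

end Pool.Agent.H103R3.Blocks
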