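import Mathlib
import Pool.Agent.H103R3.Bisym1

set_option autoImplicit false
set_option linter.unusedSectionVars false
set_option linter.style.haveILetI false

namespace Pool.Agent.H103R3

open scoped InnerProductSpace ComplexConjugate Topology

variable {E : Type*} [NormedAddCommGroup E] [InnerProductSpace ℂ E] [FiniteDimensional ℂ E]
variable {J : Type*} [Fintype J]

/-- The tensor `∑ λ_j A_j ⊗ A_j` is symmetric in its two inputs. -/
def WBisym (lam : J → ℝ) (A : J → E →ₗ[ℂ] E) : Prop :=
  ∀ a b c e : E, ∑ j, (lam j : ℂ) * (⟪a, A j c⟫_ℂ * ⟪b, A j e⟫_ℂ) =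
    ∑ j, (lam j : ℂ) * (⟪a, A j e⟫_ℂ * ⟪b, A j c⟫_ℂ)

/-- a vector with `V A a` of maximal dimension. -/
theorem exists_max (A : J → E →ₗ[ℂ] E) :
    ∃ a : E, ∀ x : E, Module.finrank ℂ (V A x) ≤ Module.finrank ℂ (V A a) := by
  have hfin : (Set.range fun x : E => Module.finrank ℂ (V A x)).Finite := by
    refine (Set.finite_Iic (Module.finrank ℂ E)).subset ?_
    rintro _ ⟨x, rfl⟩
    exact Submodule.finrank_le _
  obtain ⟨_, ⟨a, rfl⟩, h⟩ := Set.exists_max_image _ id hfin ⟨_, ⟨0, rfl⟩⟩
  exact ⟨a, fun x => h _ ⟨x, rfl⟩⟩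

theorem kills {lam : J → ℝ} {A : J → E →ₗ[ℂ] E} (hS : WBisym lam A) {a y : E}
    (hy : ∀ j, ⟪y, A j a⟫_ℂ = 0) (b : E) :
    ∑ j, ((lam j : ℂ) * ⟪y, A j b⟫_ℂ) • A j a = 0 := by
  apply ext_inner_left ℂ
  intro w
  rw [inner_sum, inner_zero_right]
  have h := hS y w b a
  calc ∑ j, ⟪w, ((lam j : ℂ) * ⟪y, A j b⟫_ℂ) • A j a⟫_ℂ
      = ∑ j, (lam j : ℂ) * (⟪y, A j b⟫_ℂ * ⟪w, A j a⟫_ℂ) := by
        refine Finset.sum_congr rfl fun j _ => ?_
        rw [inner_smul_right]; ring
    _ = ∑ j, (lam j : ℂ) * (⟪y, A j a⟫_ℂ * ⟪w, A j b⟫_ℂ) := h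
    _ = 0 := Finset.sum_eq_zero fun j _ => by rw [hy j]; ring

/-- first order condition at a vector of maximal rank. -/
theorem vanish {lam : J → ℝ} {A : J → E →ₗ[ℂ] E} (hS : WBisym lam A) {a : E}
    (ha : ∀ x : E, Module.finrank ℂ (V A x) ≤ Module.finrank ℂ (V A a)) {y y' : E}
    (hy : ∀ j, ⟪y, A j a⟫_ℂ = 0) (hy' : ∀ j, ⟪y', A j a⟫_ℂ = 0) (b b' : E) :
    ∑ j, (lam j : ℂ) * (⟪y, A j b⟫_ℂ * ⟪y', A j b'⟫_ℂ) = 0 := by
  classical
  set c : J → ℂ := fun j => (lam j : ℂ) * ⟪y, A j b⟫_ℂ with hc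
  have h1 : ∑ j, c j • A j a = 0 := kills hS hy b
  set v : E := ∑ j, c j • A j b' with hv
  have hgoal : ∑ j, (lam j : ℂ) * (⟪y, A j b⟫_ℂ * ⟪y', A j b'⟫_ℂ) = ⟪y', v⟫_ℂ := by
    rw [hv, inner_sum]
    refine Finset.sum_congr rfl fun j _ => ?_
    rw [inner_smul_right, hc]; ring
  rw [hgoal]
  by_contra hne
  have hvn : v ∉ V A a := by
    intro hmem
    have := (Submodule.mem_orthogonal' _ _).mp ((mem_V_orth A a y').mpr hy') v hmem
    exact hne this
  obtain ⟨κ, s, hs, hspan, hli⟩ := exists_linearIndependent' ℂ (fun j => A j a)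
  haveI : Finite κ := Finite.of_injective s hs
  haveI : Fintype κ := Fintype.ofFinite κ
  have hk : Module.finrank ℂ (V A a) = Fintype.card κ := by
    have h2 := finrank_span_eq_card hli
    rw [hspan] at h2
    exact h2
  -- the perturbed family
  let fam : ℂ → Option κ → E := fun t o => o.elim v (fun i => A (s i) (a + t • b'))
  have hfam0 : LinearIndependent ℂ (fam 0) := by
    rw [linearIndependent_option]
    constructor
    · have h3 : (fun i : κ => fam 0 (some i)) = (fun j => A j a) ∘ s := by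
        funext i
        simp [fam]
      change LinearIndependent ℂ (fun i : κ => fam 0 (some i))
      rw [h3]
      exact hli
    · have h3 : (fun i : κ => fam 0 (some i)) = (fun j => A j a) ∘ s := by
        funext i
        simp [fam]
      change v ∉ Submodule.span ℂ (Set.range fun i : κ => fam 0 (some i))
      rw [h3, hspan]
      exact hvn
  have hcont : Continuous fam := by
    refine continuous_pi fun o => ?_
    cases o with
    | none => exact continuous_const
    | some i =>
      have h3 : Continuous (A (s i)) := LinearMap.continuous_of_finiteDimensional _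
      exact h3.comp (continuous_const.add (continuous_id.smul continuous_const))
  have hev : ∀ᶠ t in 𝓝 (0 : ℂ), LinearIndependent ℂ (fam t) :=
    hcont.continuousAt.eventually (isOpen_setOfPred_linearIndependent.mem_nhds hfam0)
  obtain ⟨t, ht, ht0⟩ := ((hev.filter_mono (nhdsWithin_le_nhds (s := {0}ᶜ))).and
    self_mem_nhdsWithin).exists
  have ht0' : t ≠ 0 := ht0
  have hmemv : v ∈ V A (a + t • b') := by
    have h4 : t • v = ∑ j, c j • A j (a + t • b') := by
      simp only [map_add, map_smul, smul_add, Finset.sum_add_distrib, h1, zero_add]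
      rw [hv, Finset.smul_sum]
      refine Finset.sum_congr rfl fun j _ => ?_
      rw [smul_comm]
    have h5 : t • v ∈ V A (a + t • b') := by
      rw [h4]
      exact Submodule.sum_mem _ fun j _ => Submodule.smul_mem _ _ (Submodule.subset_span ⟨j, rfl⟩)
    have h6 := Submodule.smul_mem (V A (a + t • b')) t⁻¹ h5
    rwa [smul_smul, inv_mul_cancel₀ ht0', one_smul] at h6
  have hmem : ∀ o, fam t o ∈ V A (a + t • b') := by
    intro o
    cases o with
    | none => exact hmemv
    | some i => exact Submodule.subset_span ⟨s i, rfl⟩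
  let g : Option κ → V A (a + t • b') := fun o => ⟨fam t o, hmem o⟩
  have hg : LinearIndependent ℂ g := by
    apply LinearIndependent.of_comp (V A (a + t • b')).subtype
    exact ht
  have h7 := hg.fintype_card_le_finrank
  rw [Fintype.card_option] at h7
  have h8 := ha (a + t • b')
  omega

theorem self_real {A : J → E →ₗ[ℂ] E} (hA : ∀ j, (A j).IsSymmetric) (j : J) (y : E) :
    (((⟪y, A j y⟫_ℂ).re : ℝ) : ℂ) = ⟪y, A j y⟫_ℂ := by
  have h := (hA j).coe_re_inner_self_apply y
  have h2 : ⟪y, A j y⟫_ℂ = ⟪A j y, y⟫_ℂ := (hA j y y).symm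
  exact h

/-- Lorentzian bisymmetric tensors: the span of the `A_j` contains the identity, the weights are
positive with at most one exception; then either some `a` has `A_j a` spanning, or there are more
than `dim E` operators. -/
theorem lorentz_alt {lam : J → ℝ} {A : J → E →ₗ[ℂ] E} (hA : ∀ j, (A j).IsSymmetric) (j0 : J)
    (hpos : ∀ j, j ≠ j0 → 0 < lam j) (hne : lam j0 ≠ 0) (hS : WBisym lam A)
    (hlin : ∀ c : J → ℝ, ∑ j, (c j : ℂ) • A j = 0 → ∀ j, c j = 0) (c0 : J → ℝ)
    (hI : ∑ j, (c0 j : ℂ) • A j = LinearMap.id) :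
    (∃ a, V A a = ⊤) ∨ Module.finrank ℂ E + 1 ≤ Fintype.card J := by
  classical
  obtain ⟨a, ha⟩ := exists_max A
  have hsplit := Submodule.finrank_add_finrank_orthogonal (V A a)
  rcases eq_or_ne ((V A a)ᗮ) ⊥ with hbot | hbot
  · left
    exact ⟨a, Submodule.orthogonal_eq_bot_iff.mp hbot⟩
  right
  obtain ⟨y0, hy0, hy0ne⟩ := Submodule.exists_mem_ne_zero_of_ne_bot hbot
  have hy0' := (mem_V_orth A a y0).mp hy0
  -- the quadratic values
  let q : E → J → ℝ := fun y j => (⟪y, A j y⟫_ℂ).re
  have hq : ∀ y j, ((q y j : ℝ) : ℂ) = ⟪y, A j y⟫_ℂ := fun y j => self_real hA j y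
  have hnull : ∀ y z : E, (∀ j, ⟪y, A j a⟫_ℂ = 0) → (∀ j, ⟪z, A j a⟫_ℂ = 0) →
      ∑ j, lam j * (q y j * q z j) = 0 := by
    intro y z hy hz
    have h := vanish hS ha hy hz y z
    have h2 : ((∑ j, lam j * (q y j * q z j) : ℝ) : ℂ) = 0 := by
      rw [← h]
      push_cast
      refine Finset.sum_congr rfl fun j _ => ?_
      rw [hq, hq]
    exact_mod_cast h2
  have hnorm : ∀ y : E, ∑ j, c0 j * q y j = ‖y‖ ^ 2 := by
    intro y
    have h : ((∑ j, c0 j * q y j : ℝ) : ℂ) = ((‖y‖ ^ 2 : ℝ) : ℂ) := by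
      push_cast
      have h2 : ⟪y, (∑ j, (c0 j : ℂ) • A j) y⟫_ℂ = ∑ j, (c0 j : ℂ) * (q y j : ℂ) := by
        rw [LinearMap.sum_apply, inner_sum]
        refine Finset.sum_congr rfl fun j _ => ?_
        rw [LinearMap.smul_apply, inner_smul_right, hq]
      rw [← h2, hI, LinearMap.id_apply, inner_self_eq_norm_sq_to_K]
      norm_cast
    exact_mod_cast h
  have hy0pos : 0 < ‖y0‖ ^ 2 := by positivity
  -- vectors vanishing at `j0` are zero
  have hzero : ∀ w : J → ℝ, w j0 = 0 → ∑ j, lam j * (w j * w j) = 0 → ∀ j, w j = 0 := by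
    intro w hw hs j
    by_cases hj : j = j0
    · rw [hj]; exact hw
    · have hnn : ∀ i ∈ Finset.univ, 0 ≤ lam i * (w i * w i) := by
        intro i _
        by_cases hi : i = j0
        · rw [hi, hw]; simp
        · exact mul_nonneg (hpos i hi).le (mul_self_nonneg _)
      have h := (Finset.sum_eq_zero_iff_of_nonneg hnn).mp hs j (Finset.mem_univ j)
      rcases mul_eq_zero.mp h with h1 | h1
      · exact absurd h1 (hpos j hj).ne'
      · exact mul_self_eq_zero.mp h1
  set c := q y0 with hcdef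
  have hc0 : c j0 ≠ 0 := by
    intro h0
    have h1 := hzero c h0 (hnull y0 y0 hy0' hy0')
    have h2 := hnorm y0
    rw [Finset.sum_eq_zero (fun j _ => by rw [← hcdef, h1 j, mul_zero])] at h2
    linarith
  have hprop : ∀ y : E, (∀ j, ⟪y, A j a⟫_ℂ = 0) → ∀ j, q y j = (‖y‖ ^ 2 / ‖y0‖ ^ 2) * c j := by
    intro y hy
    set t := q y j0 / c j0 with ht
    have h1 : ∀ j, q y j - t * c j = 0 := by
      apply hzero
      · rw [ht, div_mul_cancel₀ _ hc0, sub_self]
      · have e1 := hnull y y hy hy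
        have e2 := hnull y y0 hy hy0'
        have e3 := hnull y0 y0 hy0' hy0'
        calc ∑ j, lam j * ((q y j - t * c j) * (q y j - t * c j))
            = ∑ j, lam j * (q y j * q y j) - 2 * t * ∑ j, lam j * (q y j * q y0 j) +
              t ^ 2 * ∑ j, lam j * (q y0 j * q y0 j) := by
              rw [Finset.mul_sum, Finset.mul_sum, ← Finset.sum_sub_distrib,
                ← Finset.sum_add_distrib]
              refine Finset.sum_congr rfl fun j _ => ?_
              rw [← hcdef]; ring
          _ = 0 := by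
              rw [e1, e2, e3]; ring
    have h2 : ‖y‖ ^ 2 = t * ‖y0‖ ^ 2 := by
      rw [← hnorm y, ← hnorm y0, Finset.mul_sum]
      refine Finset.sum_congr rfl fun j _ => ?_
      have := h1 j
      rw [← hcdef]
      linear_combination c0 j * this
    intro j
    have h3 := h1 j
    rw [h2, mul_div_assoc, div_self hy0pos.ne', mul_one]
    linarith
  -- the operator `B`
  let B : E →ₗ[ℂ] E := ∑ j, ((lam j * c j : ℝ) : ℂ) • A j
  have hBne : B ≠ 0 := by
    intro h0
    have h1 := hlin (fun j => lam j * c j) h0 j0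
    exact mul_ne_zero hne hc0 h1
  have hBsym : B.IsSymmetric := by
    intro x y
    simp only [B, LinearMap.sum_apply, LinearMap.smul_apply, sum_inner, inner_sum,
      inner_smul_left, inner_smul_right, Complex.conj_ofReal]
    refine Finset.sum_congr rfl fun j _ => ?_
    rw [hA j x y]
  obtain ⟨b, hb⟩ : ∃ b : E, ⟪B b, b⟫_ℂ ≠ 0 := by
    by_contra hcon
    push Not at hcon
    exact hBne (hBsym.inner_map_self_eq_zero.mp hcon)
  have hb' : ⟪b, B b⟫_ℂ ≠ 0 := by rwa [← hBsym b b]
  have hkey : ∀ y : E, (∀ j, ⟪y, A j a⟫_ℂ = 0) →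
      ((∑ j, lam j * ‖⟪y, A j b⟫_ℂ‖ ^ 2 : ℝ) : ℂ) =
        ((‖y‖ ^ 2 / ‖y0‖ ^ 2 : ℝ) : ℂ) * ⟪b, B b⟫_ℂ := by
    intro y hy
    have h := hS y b b y
    have e1 : ((∑ j, lam j * ‖⟪y, A j b⟫_ℂ‖ ^ 2 : ℝ) : ℂ) =
        ∑ j, (lam j : ℂ) * (⟪y, A j b⟫_ℂ * ⟪b, A j y⟫_ℂ) := by
      push_cast
      refine Finset.sum_congr rfl fun j _ => ?_
      rw [← symm_inner hA j b y, ← inner_conj_symm (A j b) y, RCLike.mul_conj]
      push_cast
      rfl
    rw [e1, h]
    simp only [B, LinearMap.sum_apply, LinearMap.smul_apply, inner_sum, inner_smul_right]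
    rw [Finset.mul_sum]
    refine Finset.sum_congr rfl fun j _ => ?_
    rw [← hq y j, hprop y hy j]
    push_cast
    ring
  -- dimension count
  let L : (J → ℂ) →ₗ[ℂ] E := Fintype.linearCombination ℂ (fun j => A j a)
  have hrange : LinearMap.range L = V A a := Fintype.range_linearCombination ℂ _
  have hrn := LinearMap.finrank_range_add_finrank_ker L
  rw [hrange, Module.finrank_fintype_fun_eq_card] at hrn
  have hker : Module.finrank ℂ (V A a)ᗮ + 1 ≤ Module.finrank ℂ (LinearMap.ker L) := by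
    let bas := Module.finBasis ℂ ((V A a)ᗮ)
    have hbas : ∀ i, ∀ j, ⟪((bas i : (V A a)ᗮ) : E), A j a⟫_ℂ = 0 := fun i =>
      (mem_V_orth A a _).mp (bas i).2
    let uu : Option (Fin (Module.finrank ℂ (V A a)ᗮ)) → J → ℂ := fun o => o.elim
      (fun j => (lam j : ℂ) * ⟪y0, A j y0⟫_ℂ)
      (fun i j => (lam j : ℂ) * ⟪((bas i : (V A a)ᗮ) : E), A j b⟫_ℂ)
    have huu : ∀ o, uu o ∈ LinearMap.ker L := by
      intro o
      rw [LinearMap.mem_ker]
      simp only [L, Fintype.linearCombination_apply]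
      cases o with
      | none => exact kills hS hy0' y0
      | some i => exact kills hS (hbas i) b
    let u : Option (Fin (Module.finrank ℂ (V A a)ᗮ)) → LinearMap.ker L := fun o => ⟨uu o, huu o⟩
    have hu : LinearIndependent ℂ u := by
      rw [Fintype.linearIndependent_iff]
      intro s hs
      set y : E := ∑ i, conj (s (some i)) • ((bas i : (V A a)ᗮ) : E) with hydef
      have hyV : ∀ j, ⟪y, A j a⟫_ℂ = 0 := by
        intro j
        rw [hydef, sum_inner]
        exact Finset.sum_eq_zero fun i _ => by rw [inner_smul_left, hbas i j, mul_zero]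
      have hz : ∀ j, s none * ((lam j : ℂ) * (q y0 j : ℂ)) + (lam j : ℂ) * ⟪y, A j b⟫_ℂ = 0 := by
        intro j
        have h1 : (∑ o, s o • uu o) j = 0 := by
          have h0 : ((∑ o, s o • u o : LinearMap.ker L) : J → ℂ) = ∑ o, s o • uu o := by
            rw [Submodule.coe_sum]
            rfl
          rw [← h0, hs]
          rfl
        rw [Finset.sum_apply, Fintype.sum_option] at h1
        have h2 : (s none • uu none) j = s none * ((lam j : ℂ) * (q y0 j : ℂ)) := by
          rw [hq]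
          rfl
        have h3 : ∀ i, (s (some i) • uu (some i)) j =
            s (some i) * ((lam j : ℂ) * ⟪((bas i : (V A a)ᗮ) : E), A j b⟫_ℂ) := fun i => rfl
        rw [h2, Finset.sum_congr rfl fun i _ => h3 i] at h1
        rw [hydef, sum_inner, Finset.mul_sum, ← h1]
        congr 1
        refine Finset.sum_congr rfl fun i _ => ?_
        rw [inner_smul_left, Complex.conj_conj]
        ring
      have hlam : ∀ j, lam j ≠ 0 := by
        intro j
        by_cases hj : j = j0
        · rw [hj]; exact hne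
        · exact (hpos j hj).ne'
      have hz3 : ∀ j, ⟪y, A j b⟫_ℂ = -(s none) * (q y0 j : ℂ) := by
        intro j
        have h1 := hz j
        have h2 : (lam j : ℂ) * (⟪y, A j b⟫_ℂ + s none * (q y0 j : ℂ)) = 0 := by
          linear_combination h1
        rcases mul_eq_zero.mp h2 with h4 | h4
        · exact absurd (by exact_mod_cast h4) (hlam j)
        · linear_combination h4
      have hz2 : (∑ j, lam j * ‖⟪y, A j b⟫_ℂ‖ ^ 2 : ℝ) = 0 := by
        have h3 : ∀ j, lam j * ‖⟪y, A j b⟫_ℂ‖ ^ 2 = ‖s none‖ ^ 2 * (lam j * (q y0 j * q y0 j)) := by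
          intro j
          rw [hz3 j, norm_mul, norm_neg, mul_pow, Complex.norm_real, Real.norm_eq_abs, sq_abs]
          ring
        rw [Finset.sum_congr rfl fun j _ => h3 j, ← Finset.mul_sum, hnull y0 y0 hy0' hy0', mul_zero]
      have h5 := hkey y hyV
      rw [hz2, Complex.ofReal_zero] at h5
      have h6 : ((‖y‖ ^ 2 / ‖y0‖ ^ 2 : ℝ) : ℂ) = 0 := by
        rcases mul_eq_zero.mp h5.symm with h7 | h7
        · exact h7
        · exact absurd h7 hb'
      have h8 : ‖y‖ ^ 2 / ‖y0‖ ^ 2 = 0 := by exact_mod_cast h6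
      have h9 : y = 0 := by
        rcases div_eq_zero_iff.mp h8 with h10 | h10
        · exact norm_eq_zero.mp (pow_eq_zero_iff (two_ne_zero) |>.mp h10)
        · exact absurd h10 hy0pos.ne'
      have hs0 : s none = 0 := by
        have h1 := hz3 j0
        rw [h9, inner_zero_left] at h1
        have h2 : s none * (q y0 j0 : ℂ) = 0 := by linear_combination h1
        rcases mul_eq_zero.mp h2 with h4 | h4
        · exact h4
        · exact absurd (by exact_mod_cast h4) hc0
      -- linear independence of the basis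
      have h10 : ∑ i, conj (s (some i)) • bas i = 0 := by
        apply Subtype.ext
        rw [Submodule.coe_sum]
        rw [hydef] at h9
        simpa using h9
      have h11 := Fintype.linearIndependent_iff.mp bas.linearIndependent _ h10
      intro o
      cases o with
      | none => exact hs0
      | some i =>
        have := h11 i
        simpa using this
    simpa using hu.fintype_card_le_finrank
  omega

/-- there are at least `dim E` operators. -/
theorem lorentz {lam : J → ℝ} {A : J → E →ₗ[ℂ] E} (hA : ∀ j, (A j).IsSymmetric) (j0 : J)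
    (hpos : ∀ j, j ≠ j0 → 0 < lam j) (hne : lam j0 ≠ 0) (hS : WBisym lam A)
    (hlin : ∀ c : J → ℝ, ∑ j, (c j : ℂ) • A j = 0 → ∀ j, c j = 0) (c0 : J → ℝ)
    (hI : ∑ j, (c0 j : ℂ) • A j = LinearMap.id) : Module.finrank ℂ E ≤ Fintype.card J := by
  rcases lorentz_alt hA j0 hpos hne hS hlin c0 hI with ⟨a, ha⟩ | h
  · have h1 : Module.finrank ℂ (V A a) ≤ Fintype.card J := finrank_range_le_card _
    rwa [ha, finrank_top] at h1
  · omega

end Pool.Agent.H103R3
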