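import Mathlib
import Pool.Agent.H103R3.Lorentz

set_option autoImplicit false
set_option linter.unusedSectionVars false
set_option linter.style.haveILetI false

namespace Pool.Agent.H103R3

open scoped InnerProductSpace ComplexConjugate

variable {E : Type*} [NormedAddCommGroup E] [InnerProductSpace ℂ E] [FiniteDimensional ℂ E]
variable {J : Type*} [Fintype J]

/-- vector form of the symmetry. -/
theorem vec_symm {lam : J → ℝ} {A : J → E →ₗ[ℂ] E} (hS : WBisym lam A) (w b c : E) :
    ∑ j, ((lam j : ℂ) * ⟪w, A j b⟫_ℂ) • A j c = ∑ j, ((lam j : ℂ) * ⟪w, A j c⟫_ℂ) • A j b := by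
  apply ext_inner_left ℂ
  intro v
  rw [inner_sum, inner_sum]
  have h := hS w v b c
  calc ∑ j, ⟪v, ((lam j : ℂ) * ⟪w, A j b⟫_ℂ) • A j c⟫_ℂ
      = ∑ j, (lam j : ℂ) * (⟪w, A j b⟫_ℂ * ⟪v, A j c⟫_ℂ) := by
        refine Finset.sum_congr rfl fun j _ => ?_
        rw [inner_smul_right]; ring
    _ = ∑ j, (lam j : ℂ) * (⟪w, A j c⟫_ℂ * ⟪v, A j b⟫_ℂ) := h
    _ = ∑ j, ⟪v, ((lam j : ℂ) * ⟪w, A j c⟫_ℂ) • A j b⟫_ℂ := by
        refine Finset.sum_congr rfl fun j _ => ?_
        rw [inner_smul_right]; ring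

/-- If the `A_j a` form a basis and the identity is a combination of the `A_j`, then the `A_j`
commute. -/
theorem commute_of_basis {lam : J → ℝ} {A : J → E →ₗ[ℂ] E} (hlam : ∀ j, lam j ≠ 0)
    (hS : WBisym lam A) {a : E} (hV : V A a = ⊤) (hli : LinearIndependent ℂ fun j => A j a)
    (c0 : J → ℝ) (hI : ∑ j, (c0 j : ℂ) • A j = LinearMap.id) (k l : J) :
    A k ∘ₗ A l = A l ∘ₗ A k := by
  classical
  -- dual basis
  let bas : Module.Basis J ℂ E := Module.Basis.mk hli (by
    rw [← hV]; rfl)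
  have hbas : ∀ j, bas j = A j a := fun j => by simp [bas]
  let u : J → E := fun i =>
    (InnerProductSpace.toDual ℂ E).symm (LinearMap.toContinuousLinearMap (bas.coord i))
  have huv : ∀ i j, ⟪u i, A j a⟫_ℂ = if i = j then 1 else 0 := by
    intro i j
    have h1 : ⟪u i, bas j⟫_ℂ = bas.coord i (bas j) := by
      simp only [u]
      rw [InnerProductSpace.toDual_symm_apply]
      rfl
    rw [← hbas, h1]
    simp [Module.Basis.coord_apply, Finsupp.single_apply, eq_comm]
  -- `u0`
  set u0 : E := ∑ i, ((c0 i / lam i : ℝ) : ℂ) • u i with hu0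
  have hu0v : ∀ j, (lam j : ℂ) * ⟪u0, A j a⟫_ℂ = c0 j := by
    intro j
    rw [hu0, sum_inner]
    have h1 : ∀ i, ⟪((c0 i / lam i : ℝ) : ℂ) • u i, A j a⟫_ℂ =
        if i = j then ((c0 i / lam i : ℝ) : ℂ) else 0 := by
      intro i
      rw [inner_smul_left, huv, Complex.conj_ofReal]
      split_ifs <;> simp
    rw [Finset.sum_congr rfl fun i _ => h1 i, Finset.sum_ite_eq', if_pos (Finset.mem_univ j)]
    have h2 : (lam j : ℂ) ≠ 0 := by exact_mod_cast hlam j
    push_cast
    field_simp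
  -- the operators `M b`
  let M : E → E → E := fun b c => ∑ j, ((lam j : ℂ) * ⟪u0, A j b⟫_ℂ) • A j c
  have hMa : ∀ b, M b a = b := by
    intro b
    simp only [M]
    rw [vec_symm hS u0 b a]
    have h1 : (∑ j, (c0 j : ℂ) • A j) b = b := by rw [hI, LinearMap.id_apply]
    rw [LinearMap.sum_apply] at h1
    refine Eq.trans ?_ h1
    refine Finset.sum_congr rfl fun j _ => ?_
    rw [hu0v, LinearMap.smul_apply]
  have hMc : ∀ b c, M b c = M c b := fun b c => vec_symm hS u0 b c
  -- `M (A_j a) = A_j`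
  have hMA : ∀ j c, M (A j a) c = A j c := by
    intro j c
    have h1 : ∑ i, ((lam i : ℂ) * ⟪u0, A i (A j a)⟫_ℂ) • A i a = A j a := hMa (A j a)
    have h2 : ∀ i, (lam i : ℂ) * ⟪u0, A i (A j a)⟫_ℂ = if i = j then 1 else 0 := by
      intro i
      have h3 : ∑ i, ((lam i : ℂ) * ⟪u0, A i (A j a)⟫_ℂ - if i = j then 1 else 0) • A i a = 0 := by
        simp only [sub_smul, Finset.sum_sub_distrib, h1, ite_smul, one_smul, zero_smul,
          Finset.sum_ite_eq', Finset.mem_univ, if_true, sub_self]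
      have h4 := Fintype.linearIndependent_iff.mp hli _ h3 i
      exact sub_eq_zero.mp h4
    show ∑ i, ((lam i : ℂ) * ⟪u0, A i (A j a)⟫_ℂ) • A i c = A j c
    simp only [h2, ite_smul, one_smul, zero_smul, Finset.sum_ite_eq', Finset.mem_univ, if_true]
  have hAM : ∀ j b, M b (A j a) = A j b := fun j b => by rw [hMc, hMA]
  have hMlin : ∀ (b : E) (s : J → ℂ) (w : J → E), M b (∑ j, s j • w j) = ∑ j, s j • M b (w j) := by
    intro b s w
    simp only [M, map_sum, map_smul, Finset.smul_sum]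
    rw [Finset.sum_comm]
    refine Finset.sum_congr rfl fun j _ => Finset.sum_congr rfl fun i _ => ?_
    rw [smul_comm]
  -- the key identity
  have key : ∀ (b c w : E), ∑ j, ((lam j : ℂ) * ⟪w, A j a⟫_ℂ) • M b (A j c) =
      ∑ j, ((lam j : ℂ) * ⟪w, A j b⟫_ℂ) • A j c := by
    intro b c w
    rw [← hMlin, vec_symm hS w a c, hMlin]
    simp only [hAM]
    exact vec_symm hS w c b
  have hMM : ∀ b c j, M b (A j c) = M c (A j b) := by
    intro b c i
    have h1 : ∀ w, ∑ j, ((lam j : ℂ) * ⟪w, A j a⟫_ℂ) • (M b (A j c) - M c (A j b)) = 0 := by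
      intro w
      simp only [smul_sub, Finset.sum_sub_distrib]
      rw [key b c w, key c b w, vec_symm hS w b c, sub_self]
    have h2 := h1 (u i)
    have h3 : ∀ j, ((lam j : ℂ) * ⟪u i, A j a⟫_ℂ) • (M b (A j c) - M c (A j b)) =
        if i = j then (lam j : ℂ) • (M b (A j c) - M c (A j b)) else 0 := by
      intro j
      rw [huv]
      split_ifs <;> simp
    rw [Finset.sum_congr rfl fun j _ => h3 j, Finset.sum_ite_eq, if_pos (Finset.mem_univ i)] at h2
    have h4 : (lam i : ℂ) ≠ 0 := by exact_mod_cast hlam i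
    exact sub_eq_zero.mp ((smul_eq_zero.mp h2).resolve_left h4)
  -- conclusion
  apply LinearMap.ext
  intro c
  rw [LinearMap.comp_apply, LinearMap.comp_apply]
  -- `A_k (A_l c) = M (A_k a) (A_l c) = M c (A_l (A_k a))`
  have e1 : A k (A l c) = M c (A l (A k a)) := by rw [← hMA k (A l c), hMM]
  have e2 : A l (A k c) = M c (A k (A l a)) := by rw [← hMA l (A k c), hMM]
  have e3 : A l (A k a) = A k (A l a) := by
    have e4 : A l (A k a) = M (A l a) (A k a) := (hMA l _).symm
    have e5 : A k (A l a) = M (A k a) (A l a) := (hMA k _).symm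
    rw [e4, e5, hMc]
  rw [e1, e2, e3]

/-- Simultaneous diagonalisation of commuting symmetric operators. -/
theorem exists_joint_basisC (T : J → E →ₗ[ℂ] E)
    (hT : ∀ j, (T j).IsSymmetric) (hC : ∀ i j, T i ∘ₗ T j = T j ∘ₗ T i) {n : ℕ}
    (hn : Module.finrank ℂ E = n) :
    ∃ (f : OrthonormalBasis (Fin n) ℂ E) (μ : J → Fin n → ℂ), ∀ j i, T j (f i) = μ j i • f i := by
  classical
  have hcomm : Pairwise (Function.onFun Commute T) := fun i j _ => hC i j
  have hint := LinearMap.IsSymmetric.directSum_isInternal_of_pairwise_commute hT hcomm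
  have hort := LinearMap.IsSymmetric.orthogonalFamily_iInf_eigenspaces hT
  set W : (J → ℂ) → Submodule ℂ E :=
    fun α => ⨅ j, Module.End.eigenspace (T j) (α j) with hW
  have hint' := DirectSum.isInternal_ne_bot_iff.mpr hint
  haveI : Fintype {α // W α ≠ ⊥} := hint.submodule_iSupIndep.fintypeNeBotOfFiniteDimensional
  have hort' : OrthogonalFamily ℂ (fun α : {α // W α ≠ ⊥} => W α)
      fun α => (W α).subtypeₗᵢ := hort.comp Subtype.val_injective
  refine ⟨hint'.subordinateOrthonormalBasis hn hort',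
    fun j i => (hint'.subordinateOrthonormalBasisIndex hn i hort').1 j, fun j i => ?_⟩
  have h := hint'.subordinateOrthonormalBasis_subordinate hn i hort'
  have h2 := (Submodule.mem_iInf _).mp h j
  exact Module.End.mem_eigenspace_iff.mp h2

end Pool.Agent.H103R3
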