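import Mathlib
import Pool.Agent.H103R3.Herm

set_option autoImplicit false
set_option linter.unusedSectionVars false

namespace Pool.Agent.H103R3

open scoped InnerProductSpace ComplexConjugate

variable {d : ℕ}

theorem design_gram (hd : 0 < d) {κ : Type*} [Fintype κ] [DecidableEq κ]
    (hcard : Fintype.card κ = d ^ 2) (e : κ → EuclideanSpace ℂ (Fin d))
    (h : ∀ u v w z : EuclideanSpace ℂ (Fin d),
      ∑ k, (⟪u, e k⟫_ℂ * ⟪e k, v⟫_ℂ) * (⟪w, e k⟫_ℂ * ⟪e k, z⟫_ℂ) =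
        ((d : ℂ) / (d + 1)) * (⟪u, z⟫_ℂ * ⟪w, v⟫_ℂ + ⟪u, v⟫_ℂ * ⟪w, z⟫_ℂ)) (k l : κ) :
    ⟪e k, e l⟫_ℂ * ⟪e l, e k⟫_ℂ = ((d : ℂ) / (d + 1)) * (if k = l then 1 else 0) +
      (1 / ((d : ℂ) + 1)) * (⟪e k, e k⟫_ℂ * ⟪e l, e l⟫_ℂ) := by
  have hd1 : (d : ℂ) + 1 ≠ 0 := by exact_mod_cast Nat.succ_ne_zero d
  have hd0 : (d : ℂ) ≠ 0 := by exact_mod_cast hd.ne'
  let M : Matrix (Fin d × Fin d) κ ℂ := Matrix.of fun p k => PP (e k) p.1 p.2
  let Jm : Matrix (Fin d × Fin d) (Fin d × Fin d) ℂ :=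
    Matrix.of fun p q => (if p.1 = p.2 then 1 else 0) * (if q.1 = q.2 then 1 else 0)
  have hMM : M * M.conjTranspose = ((d : ℂ) / (d + 1)) • (1 + Jm) := by
    ext ⟨a, b⟩ ⟨c, f⟩
    have h1 := h (EuclideanSpace.single a 1) (EuclideanSpace.single b 1)
      (EuclideanSpace.single f 1) (EuclideanSpace.single c 1)
    simp only [EuclideanSpace.inner_single_left, EuclideanSpace.inner_single_right, map_one,
      one_mul] at h1
    simp only [Matrix.mul_apply, M, Matrix.of_apply, Matrix.conjTranspose_apply,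
      Matrix.smul_apply, Matrix.add_apply, Matrix.one_apply, Jm, smul_eq_mul]
    have h2 : ∀ k, PP (e k) a b * star (PP (e k) c f) =
        (e k) a * conj ((e k) b) * ((e k) f * conj ((e k) c)) := by
      intro k
      have := PP_conj (e k) c f
      rw [RCLike.star_def, this]
      simp [PP]
    rw [Finset.sum_congr rfl fun k _ => h2 k]
    rw [h1]
    congr 1
    simp only [PiLp.single_apply, Prod.mk.injEq]
    simp only [eq_comm (a := c) (b := a), eq_comm (a := b) (b := a), ite_and]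
    split_ifs <;> simp
  have hJJ : Jm * Jm = (d : ℂ) • Jm := by
    ext ⟨a, b⟩ ⟨c, f⟩
    simp only [Matrix.mul_apply, Jm, Matrix.of_apply, Matrix.smul_apply, smul_eq_mul,
      Fintype.sum_prod_type]
    have h2 : ∀ x y : Fin d, (if a = b then (1 : ℂ) else 0) * (if x = y then 1 else 0) *
        ((if x = y then 1 else 0) * (if c = f then 1 else 0)) =
        if x = y then (if a = b then (1 : ℂ) else 0) * (if c = f then 1 else 0) else 0 := by
      intro x y
      split_ifs <;> simp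
    simp only [h2]
    simp
  let W : Matrix (Fin d × Fin d) (Fin d × Fin d) ℂ :=
    (((d : ℂ) + 1) / d) • (1 - (1 / ((d : ℂ) + 1)) • Jm)
  have h1 : M * (M.conjTranspose * W) = 1 := by
    rw [← Matrix.mul_assoc, hMM]
    simp only [W]
    rw [Matrix.smul_mul, Matrix.mul_smul, smul_smul, mul_sub, mul_one, Matrix.mul_smul, add_mul,
      one_mul, hJJ]
    have e1 : (d : ℂ) / (d + 1) * (((d : ℂ) + 1) / d) = 1 := by field_simp
    rw [e1, one_smul, smul_add, smul_smul]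
    have e2 : (1 / ((d : ℂ) + 1)) • Jm + (1 / ((d : ℂ) + 1) * d) • Jm = Jm := by
      rw [← add_smul]
      have : (1 / ((d : ℂ) + 1)) + (1 / ((d : ℂ) + 1) * d) = 1 := by field_simp; ring
      rw [this, one_smul]
    rw [e2]
    abel
  have hcard2 : Fintype.card (Fin d × Fin d) = Fintype.card κ := by
    rw [Fintype.card_prod, Fintype.card_fin, hcard, sq]
  have h2 : (M.conjTranspose * W) * M = 1 :=
    (Matrix.mul_eq_one_comm_of_card_eq (Fin d × Fin d) κ ℂ hcard2).mp h1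
  have h3 := congrFun (congrFun h2 k) l
  have e3 : ((M.conjTranspose * W) * M) k l =
      (((d : ℂ) + 1) / d) * (⟪e k, e l⟫_ℂ * ⟪e l, e k⟫_ℂ -
        (1 / ((d : ℂ) + 1)) * (⟪e k, e k⟫_ℂ * ⟪e l, e l⟫_ℂ)) := by
    have e0 : (M.conjTranspose * W) * M = (((d : ℂ) + 1) / d) • (M.conjTranspose * M -
        (1 / ((d : ℂ) + 1)) • (M.conjTranspose * Jm * M)) := by
      simp only [W]
      rw [Matrix.mul_smul, Matrix.smul_mul, Matrix.mul_sub, Matrix.sub_mul, Matrix.mul_smul,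
        Matrix.mul_one, Matrix.smul_mul]
    rw [e0]
    simp only [Matrix.smul_apply, Matrix.sub_apply, smul_eq_mul]
    congr 2
    · simp only [Matrix.mul_apply, M, Matrix.of_apply, Matrix.conjTranspose_apply]
      rw [inner_eq_sum, inner_eq_sum, Finset.sum_mul_sum, Fintype.sum_prod_type]
      refine Finset.sum_congr rfl fun a _ => Finset.sum_congr rfl fun b _ => ?_
      rw [RCLike.star_def, PP_conj]
      simp only [PP]
      ring
    · congr 1
      have e4 : (M.conjTranspose * Jm * M) k l =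
          (∑ p : Fin d × Fin d, (M.conjTranspose) k p * (if p.1 = p.2 then 1 else 0)) *
          (∑ p : Fin d × Fin d, (if p.1 = p.2 then 1 else 0) * M p l) := by
        simp only [Matrix.mul_apply, Jm, Matrix.of_apply]
        rw [Finset.mul_sum]
        refine Finset.sum_congr rfl fun p _ => ?_
        rw [Finset.sum_mul, Finset.sum_mul]
        refine Finset.sum_congr rfl fun q _ => ?_
        ring
      rw [e4]
      congr 1
      · rw [inner_eq_sum, Fintype.sum_prod_type]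
        simp only [mul_ite, mul_one, mul_zero, Finset.sum_ite_eq, Finset.mem_univ, if_true]
        refine Finset.sum_congr rfl fun a _ => ?_
        simp only [M, Matrix.of_apply, Matrix.conjTranspose_apply]
        rw [RCLike.star_def, PP_conj]
        simp only [PP]
        ring
      · rw [inner_eq_sum, Fintype.sum_prod_type]
        simp only [ite_mul, one_mul, zero_mul, Finset.sum_ite_eq, Finset.mem_univ, if_true]
        refine Finset.sum_congr rfl fun a _ => ?_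
        simp only [M, Matrix.of_apply, PP]
        ring
  rw [e3] at h3
  have e5 : (1 : Matrix κ κ ℂ) k l = if k = l then 1 else 0 := Matrix.one_apply
  rw [e5] at h3
  have e6 : ⟪e k, e l⟫_ℂ * ⟪e l, e k⟫_ℂ -
        (1 / ((d : ℂ) + 1)) * (⟪e k, e k⟫_ℂ * ⟪e l, e l⟫_ℂ) =
      ((d : ℂ) / (d + 1)) * (if k = l then 1 else 0) := by
    rw [← h3]
    field_simp
  rw [← e6]
  ring

/-- A family of `d²` vectors satisfying the design identity is a maximal ETF. -/
theorem design_sic (hd : 0 < d) {κ : Type*} [Fintype κ] [DecidableEq κ]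
    (hcard : Fintype.card κ = d ^ 2) (e : κ → EuclideanSpace ℂ (Fin d))
    (h : ∀ u v w z : EuclideanSpace ℂ (Fin d),
      ∑ k, (⟪u, e k⟫_ℂ * ⟪e k, v⟫_ℂ) * (⟪w, e k⟫_ℂ * ⟪e k, z⟫_ℂ) =
        ((d : ℂ) / (d + 1)) * (⟪u, z⟫_ℂ * ⟪w, v⟫_ℂ + ⟪u, v⟫_ℂ * ⟪w, z⟫_ℂ)) :
    (∀ k, ‖e k‖ = 1) ∧ ∀ k l, k ≠ l → ‖⟪e k, e l⟫_ℂ‖ = 1 / Real.sqrt ((d : ℝ) + 1) := by
  have hd1 : (d : ℝ) + 1 ≠ 0 := by positivity
  have hd0 : (0 : ℝ) < (d : ℝ) := by exact_mod_cast hd
  have hg := design_gram hd hcard e h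
  have hnorm : ∀ k, ‖e k‖ = 1 := by
    intro k
    have h1 := hg k k
    rw [if_pos rfl, inner_self_eq_norm_sq_to_K] at h1
    have h2 : ((‖e k‖ ^ 2 * ‖e k‖ ^ 2 : ℝ) : ℂ) = (((d : ℝ) / (d + 1)) * 1 +
      (1 / ((d : ℝ) + 1)) * (‖e k‖ ^ 2 * ‖e k‖ ^ 2) : ℝ) := by
      push_cast
      exact h1
    have h3 := Complex.ofReal_injective h2
    have h4 : (‖e k‖ ^ 2 * ‖e k‖ ^ 2 - 1) * d = 0 := by
      field_simp at h3
      linarith
    have h5 : ‖e k‖ ^ 2 * ‖e k‖ ^ 2 = 1 := by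
      rcases mul_eq_zero.mp h4 with h6 | h6
      · linarith
      · exact absurd h6 hd0.ne'
    have h6 : ‖e k‖ ^ 4 = 1 := by rw [← h5]; ring
    exact (pow_eq_one_iff_of_nonneg (norm_nonneg _) (by norm_num)).mp h6
  refine ⟨hnorm, fun k l hkl => ?_⟩
  have h1 := hg k l
  rw [if_neg hkl, inner_self_eq_norm_sq_to_K, inner_self_eq_norm_sq_to_K, hnorm, hnorm,
    ← inner_conj_symm (e l) (e k), RCLike.mul_conj] at h1
  have h2 : ((‖⟪e k, e l⟫_ℂ‖ ^ 2 : ℝ) : ℂ) = ((1 / ((d : ℝ) + 1) : ℝ) : ℂ) := by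
    push_cast
    rw [mul_zero, zero_add] at h1
    simpa using h1
  have h3 := Complex.ofReal_injective h2
  have h4 : ‖⟪e k, e l⟫_ℂ‖ = Real.sqrt (1 / ((d : ℝ) + 1)) := by
    rw [← h3, Real.sqrt_sq (norm_nonneg _)]
  rw [h4, Real.sqrt_div zero_le_one, Real.sqrt_one]

end Pool.Agent.H103R3
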