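import Mathlib
import Pool.Agent.H103R3.Bisym1

set_option autoImplicit false
set_option linter.unusedSectionVars false

namespace Pool.Agent.H103R3

open scoped InnerProductSpace

variable {E : Type*} [NormedAddCommGroup E] [InnerProductSpace ℂ E] [FiniteDimensional ℂ E]

/-- the rank one operator `y ↦ ⟨v, y⟩ u`. -/
noncomputable def rk (u v : E) : E →ₗ[ℂ] E where
  toFun y := ⟪v, y⟫_ℂ • u
  map_add' x y := by rw [inner_add_right, add_smul]
  map_smul' c x := by rw [inner_smul_right, mul_smul, RingHom.id_apply]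

theorem rk_apply (u v y : E) : rk u v y = ⟪v, y⟫_ℂ • u := rfl

theorem trace_rk (u v : E) : LinearMap.trace ℂ E (rk u v) = ⟪v, u⟫_ℂ := by
  have h := InnerProductSpace.trace_rankOne (𝕜 := ℂ) u v
  rw [← h]
  rfl

theorem rk_comp (u v u' v' : E) : rk u v ∘ₗ rk u' v' = ⟪v, u'⟫_ℂ • rk u v' := by
  ext y
  simp only [LinearMap.comp_apply, rk_apply, LinearMap.smul_apply, inner_smul_right]
  rw [smul_smul, mul_comm]

/-- `C = d - ∑ |x_i⟩⟨x_i|`. -/
noncomputable def Cop {N : ℕ} (d : ℝ) (x : Fin N → E) : E →ₗ[ℂ] E :=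
  (d : ℂ) • LinearMap.id - ∑ i, rk (x i) (x i)

theorem Cop_apply {N : ℕ} (d : ℝ) (x : Fin N → E) (y : E) :
    Cop d x y = (d : ℂ) • y - ∑ i, ⟪x i, y⟫_ℂ • x i := by
  simp [Cop, rk_apply, LinearMap.sum_apply]

theorem Cop_symm {N : ℕ} (d : ℝ) (x : Fin N → E) : (Cop d x).IsSymmetric := by
  intro u v
  rw [Cop_apply, Cop_apply, inner_sub_left, inner_sub_right, inner_smul_left, inner_smul_right,
    sum_inner, inner_sum, Complex.conj_ofReal]
  congr 1
  refine Finset.sum_congr rfl fun i _ => ?_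
  rw [inner_smul_left, inner_smul_right, inner_conj_symm, mul_comm]

theorem trace_sq_nonneg {S : E →ₗ[ℂ] E} (hS : S.IsSymmetric) :
    0 ≤ (LinearMap.trace ℂ E (S ∘ₗ S)).re := by
  have b := stdOrthonormalBasis ℂ E
  rw [LinearMap.trace_eq_sum_inner _ b, Complex.re_sum]
  refine Finset.sum_nonneg fun i _ => ?_
  rw [LinearMap.comp_apply, ← hS]
  have h := @inner_self_nonneg ℂ E _ _ _ (S (b i))
  exact h

theorem trace_bound {N : ℕ} {d : ℝ} (hd : 0 < d) (hfin : (Module.finrank ℂ E : ℝ) = d)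
    (x : Fin N → E)
    (hxx : ∀ i j, ⟪x i, x j⟫_ℂ * ⟪x j, x i⟫_ℂ = if i = j then 1 else (((1 / (d + 1) : ℝ)) : ℂ))
    (hx1 : ∀ i, ⟪x i, x i⟫_ℂ = 1)
    (hN : (N : ℝ) ≤ d ^ 2)
    (Z : Submodule ℂ E) (hZ : ∀ f ∈ Zᗮ, Cop d x f = 0) :
    (d ^ 2 - N) * (d + 1) ≤ (Module.finrank ℂ Z : ℝ) * (d + (d ^ 2 - N)) := by
  have hd1 : d + 1 ≠ 0 := by positivity
  set r := Module.finrank ℂ Z with hr
  set C := Cop d x with hC
  have htC : LinearMap.trace ℂ E C = ((d ^ 2 - N : ℝ) : ℂ) := by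
    rw [hC, Cop, map_sub, map_smul, map_sum]
    have h1 : LinearMap.trace ℂ E LinearMap.id = (Module.finrank ℂ E : ℂ) := LinearMap.trace_id ..
    rw [h1, ← Complex.ofReal_natCast, hfin]
    have h2 : ∀ i, LinearMap.trace ℂ E (rk (x i) (x i)) = 1 := fun i => by rw [trace_rk, hx1]
    rw [Finset.sum_congr rfl fun i _ => h2 i]
    simp
    ring
  have htCC : LinearMap.trace ℂ E (C ∘ₗ C) =
      ((d ^ 3 - 2 * d * N + N + N * (N - 1) / (d + 1) : ℝ) : ℂ) := by
    have h1 : C ∘ₗ C = (d : ℂ) • C - ∑ i, ((d : ℂ) • rk (x i) (x i) - ∑ j, rk (x i) (x i) ∘ₗ rk (x j) (x j)) := by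
      ext y
      have e1 : (C ∘ₗ C) y = C (C y) := rfl
      rw [e1]
      have e2 : C (C y) = (d : ℂ) • C y - ∑ i, ⟪x i, C y⟫_ℂ • x i := Cop_apply d x (C y)
      rw [e2, LinearMap.sub_apply, LinearMap.smul_apply, LinearMap.sum_apply]
      congr 1
      refine Finset.sum_congr rfl fun i _ => ?_
      have e3 : C y = (d : ℂ) • y - ∑ i, ⟪x i, y⟫_ℂ • x i := Cop_apply d x y
      rw [e3, LinearMap.sub_apply, LinearMap.sum_apply, LinearMap.smul_apply, rk_apply,
        inner_sub_right, inner_smul_right, inner_sum, sub_smul, Finset.sum_smul, smul_smul]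
      congr 1
    rw [h1, map_sub, map_smul, map_sum, htC]
    have h2 : ∀ i, LinearMap.trace ℂ E ((d : ℂ) • rk (x i) (x i) -
        ∑ j, rk (x i) (x i) ∘ₗ rk (x j) (x j)) = ((d - (1 + (N - 1) / (d + 1)) : ℝ) : ℂ) := by
      intro i
      rw [map_sub, map_smul, trace_rk, hx1, map_sum]
      have h3 : ∀ j, LinearMap.trace ℂ E (rk (x i) (x i) ∘ₗ rk (x j) (x j)) =
          ((if i = j then (1 : ℝ) - 1 / (d + 1) else 0) + 1 / (d + 1) : ℝ) := by
        intro j
        rw [rk_comp, map_smul, trace_rk, smul_eq_mul, hxx]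
        split_ifs <;> simp
      rw [Finset.sum_congr rfl fun j _ => h3 j, ← Complex.ofReal_sum, Finset.sum_add_distrib]
      simp only [Finset.sum_ite_eq, Finset.mem_univ, if_true, Finset.sum_const,
        Finset.card_univ, Fintype.card_fin, nsmul_eq_mul, smul_eq_mul, mul_one]
      rw [← Complex.ofReal_sub]
      congr 2
      field_simp
      ring
    rw [Finset.sum_congr rfl fun i _ => h2 i, ← Complex.ofReal_sum, Finset.sum_const,
      Finset.card_univ, Fintype.card_fin, nsmul_eq_mul, smul_eq_mul, ← Complex.ofReal_mul,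
      ← Complex.ofReal_sub]
    congr 1
    field_simp
    ring
  -- the projection
  let P : E →ₗ[ℂ] E := Z.starProjection.toLinearMap
  have hPmem : ∀ y, P y ∈ Z := fun y => Submodule.starProjection_apply_mem Z y
  have hPself : ∀ y ∈ Z, P y = y := fun y hy => Submodule.starProjection_eq_self_iff.mpr hy
  have hPproj : LinearMap.IsProj Z P := ⟨hPmem, hPself⟩
  have htP : LinearMap.trace ℂ E P = (r : ℂ) := hPproj.trace
  have hPsymm : P.IsSymmetric := Submodule.starProjection_isSymmetric Z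
  have hCP : C ∘ₗ P = C := by
    ext y
    have h1 : y - P y ∈ Zᗮ := Submodule.sub_starProjection_mem_orthogonal y
    have h2 := hZ _ h1
    rw [map_sub, sub_eq_zero] at h2
    exact h2.symm
  have hPP : P ∘ₗ P = P := by
    ext y
    exact hPself _ (hPmem y)
  set c : ℝ := (d + (d ^ 2 - N)) / (d + 1) with hc
  have hSsymm : (C - (c : ℂ) • P).IsSymmetric := by
    intro u v
    rw [LinearMap.sub_apply, LinearMap.sub_apply, inner_sub_left, inner_sub_right,
      LinearMap.smul_apply, LinearMap.smul_apply, inner_smul_left, inner_smul_right,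
      Complex.conj_ofReal, hPsymm u v, Cop_symm d x u v]
  have h0 := trace_sq_nonneg hSsymm
  have h1 : (C - (c : ℂ) • P) ∘ₗ (C - (c : ℂ) • P) = C ∘ₗ C - (c : ℂ) • (C ∘ₗ P) -
      (c : ℂ) • (P ∘ₗ C) + ((c : ℂ) * c) • (P ∘ₗ P) := by
    rw [LinearMap.comp_sub, LinearMap.sub_comp, LinearMap.sub_comp, LinearMap.smul_comp,
      LinearMap.comp_smul, LinearMap.comp_smul, LinearMap.smul_comp, smul_smul]
    abel
  rw [h1, map_add, map_sub, map_sub, map_smul, map_smul, map_smul,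
    LinearMap.trace_comp_comm' C P, hCP, hPP, htC, htCC, htP] at h0
  have h2 : ((((d ^ 3 - 2 * d * N + N + N * (N - 1) / (d + 1) : ℝ)) : ℂ) -
      (c : ℂ) • (((d ^ 2 - N : ℝ)) : ℂ) - (c : ℂ) • (((d ^ 2 - N : ℝ)) : ℂ) +
      ((c : ℂ) * c) • (r : ℂ)) = (((d ^ 3 - 2 * d * N + N + N * (N - 1) / (d + 1)) -
      c * (d ^ 2 - N) - c * (d ^ 2 - N) + c * c * r : ℝ) : ℂ) := by
    push_cast
    simp only [smul_eq_mul]
  rw [h2, Complex.ofReal_re] at h0
  -- `tr C² = (d² - N) c`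
  have h3 : d ^ 3 - 2 * d * N + N + N * (N - 1) / (d + 1) = (d ^ 2 - N) * c := by
    rw [hc]
    field_simp
    ring
  rw [h3] at h0
  have h4 : (d ^ 2 - N) * c * (d + 1) ^ 2 ≤ c * c * r * (d + 1) ^ 2 := by
    have : 0 ≤ (d + 1) ^ 2 := by positivity
    nlinarith
  have h5 : c * (d + 1) = d + (d ^ 2 - N) := by
    rw [hc]; field_simp
  have h6 : (d ^ 2 - N) * (c * (d + 1)) * (d + 1) ≤ (c * (d + 1)) * (c * (d + 1)) * r := by
    nlinarith
  rw [h5] at h6
  have h7 : 0 < d + (d ^ 2 - N) := by linarith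
  by_contra hcon
  push Not at hcon
  have h8 : (d + (d ^ 2 - N)) * ((Module.finrank ℂ Z : ℝ) * (d + (d ^ 2 - N))) <
      (d + (d ^ 2 - N)) * ((d ^ 2 - N) * (d + 1)) := mul_lt_mul_of_pos_left hcon h7
  rw [← hr] at h8
  nlinarith

end Pool.Agent.H103R3
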