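import Mathlib
import Pool.Agent.H103R3.Bisym1
import Pool.Agent.H103R3.Bisym2
import Pool.Agent.H103R3.Herm
import Pool.Agent.H103R3.Design
import Pool.Agent.H103R3.TraceBound

set_option autoImplicit false
set_option linter.unusedSectionVars false

namespace Pool.Agent.H103R3

open scoped InnerProductSpace ComplexConjugate

variable {d : ℕ}

theorem sum_basis (u v : EuclideanSpace ℂ (Fin d)) :
    ∑ k, ⟪u, EuclideanSpace.basisFun (Fin d) ℂ k⟫_ℂ * ⟪EuclideanSpace.basisFun (Fin d) ℂ k, v⟫_ℂ =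
      ⟪u, v⟫_ℂ := (EuclideanSpace.basisFun (Fin d) ℂ).sum_inner_mul_inner u v

theorem sum_basis_self :
    ∑ k, ⟪EuclideanSpace.basisFun (Fin d) ℂ k, EuclideanSpace.basisFun (Fin d) ℂ k⟫_ℂ = (d : ℂ) := by
  have h : ∀ k, ⟪EuclideanSpace.basisFun (Fin d) ℂ k, EuclideanSpace.basisFun (Fin d) ℂ k⟫_ℂ = 1 := by
    intro k
    rw [inner_self_eq_norm_sq_to_K, (EuclideanSpace.basisFun (Fin d) ℂ).orthonormal.1 k]
    simp
  rw [Finset.sum_congr rfl fun k _ => h k]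
  simp

/-- contraction of a sum of `(u,e)(e,v)(w,e)(e,z)` over an orthonormal basis. -/
theorem contract {κ : Type*} [Fintype κ] (e : κ → EuclideanSpace ℂ (Fin d))
    (u v : EuclideanSpace ℂ (Fin d)) :
    ∑ k, ∑ i, (⟪u, e i⟫_ℂ * ⟪e i, v⟫_ℂ) * (⟪EuclideanSpace.basisFun (Fin d) ℂ k, e i⟫_ℂ *
      ⟪e i, EuclideanSpace.basisFun (Fin d) ℂ k⟫_ℂ) = ∑ i, (⟪u, e i⟫_ℂ * ⟪e i, v⟫_ℂ) * ⟪e i, e i⟫_ℂ := by
  rw [Finset.sum_comm]
  refine Finset.sum_congr rfl fun i _ => ?_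
  rw [← Finset.mul_sum]
  congr 1
  rw [← sum_basis (e i) (e i)]
  refine Finset.sum_congr rfl fun k _ => ?_
  ring

theorem contract_rhs (u v : EuclideanSpace ℂ (Fin d)) :
    ∑ k, ((d : ℂ) / (d + 1)) * (⟪u, EuclideanSpace.basisFun (Fin d) ℂ k⟫_ℂ *
      ⟪EuclideanSpace.basisFun (Fin d) ℂ k, v⟫_ℂ + ⟪u, v⟫_ℂ *
        ⟪EuclideanSpace.basisFun (Fin d) ℂ k, EuclideanSpace.basisFun (Fin d) ℂ k⟫_ℂ) =
      (d : ℂ) * ⟪u, v⟫_ℂ := by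
  rw [← Finset.mul_sum, Finset.sum_add_distrib, ← Finset.mul_sum, sum_basis, sum_basis_self]
  have hd1 : (d : ℂ) + 1 ≠ 0 := by exact_mod_cast Nat.succ_ne_zero d
  field_simp
  ring

/-- The completion theorem, with a sum type as index set. -/
theorem completion (hd : 0 < d) {N : ℕ} (x : Fin N → EuclideanSpace ℂ (Fin d))
    (hx1 : ∀ i, ‖x i‖ = 1)
    (hx2 : ∀ i j, i ≠ j → ‖⟪x i, x j⟫_ℂ‖ = 1 / Real.sqrt ((d : ℝ) + 1))
    (hN : (d : ℝ) ^ 2 - 1 - Real.sqrt d ≤ N) :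
    ∃ (m : ℕ) (y : Fin m → EuclideanSpace ℂ (Fin d)), N + m = d ^ 2 ∧ LinearIndependent ℂ y ∧
      ∀ u v w z : EuclideanSpace ℂ (Fin d),
      ∑ k : Fin N ⊕ Fin m, (⟪u, Sum.elim x y k⟫_ℂ * ⟪Sum.elim x y k, v⟫_ℂ) *
        (⟪w, Sum.elim x y k⟫_ℂ * ⟪Sum.elim x y k, z⟫_ℂ) =
        ((d : ℂ) / (d + 1)) * (⟪u, z⟫_ℂ * ⟪w, v⟫_ℂ + ⟪u, v⟫_ℂ * ⟪w, z⟫_ℂ) := by
  classical
  obtain ⟨m, A, hm, hsym, hK⟩ := exists_complement hd x hx1 hx2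
  have hd' : (0 : ℝ) < (d : ℝ) := by exact_mod_cast hd
  have hxx1 : ∀ i, ⟪x i, x i⟫_ℂ = 1 := by
    intro i
    rw [inner_self_eq_norm_sq_to_K, hx1]; simp
  have hS : Bisym A := by
    intro a b c e
    have h1 := hK a c b e
    have h2 := hK a e b c
    have h3 : ∑ i, (⟪a, x i⟫_ℂ * ⟪x i, c⟫_ℂ) * (⟪b, x i⟫_ℂ * ⟪x i, e⟫_ℂ) =
        ∑ i, (⟪a, x i⟫_ℂ * ⟪x i, e⟫_ℂ) * (⟪b, x i⟫_ℂ * ⟪x i, c⟫_ℂ) :=
      Finset.sum_congr rfl fun i _ => by ring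
    rw [h3] at h1
    have h4 : (⟪a, e⟫_ℂ * ⟪b, c⟫_ℂ + ⟪a, c⟫_ℂ * ⟪b, e⟫_ℂ) =
      (⟪a, c⟫_ℂ * ⟪b, e⟫_ℂ + ⟪a, e⟫_ℂ * ⟪b, c⟫_ℂ) := by ring
    rw [h4, ← h2] at h1
    exact add_right_cancel h1
  obtain ⟨a, ha⟩ := exists_generic hsym hS
  have hZ : ∀ f ∈ (V A a)ᗮ, Cop (d : ℝ) x f = 0 := by
    intro f hf
    have hAf : ∀ j, A j f = 0 := ha f ((mem_V_orth A a f).mp hf)
    have h0 : ∀ u, ⟪u, Cop (d : ℝ) x f⟫_ℂ = 0 := by
      intro u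
      have h1 : ∑ k, (∑ j, ⟪u, A j f⟫_ℂ * ⟪EuclideanSpace.basisFun (Fin d) ℂ k,
          A j (EuclideanSpace.basisFun (Fin d) ℂ k)⟫_ℂ +
          ∑ i, (⟪u, x i⟫_ℂ * ⟪x i, f⟫_ℂ) * (⟪EuclideanSpace.basisFun (Fin d) ℂ k, x i⟫_ℂ *
            ⟪x i, EuclideanSpace.basisFun (Fin d) ℂ k⟫_ℂ)) = (d : ℂ) * ⟪u, f⟫_ℂ := by
        rw [Finset.sum_congr rfl fun k _ => hK u f _ _, contract_rhs]
      simp only [hAf, inner_zero_right, zero_mul, Finset.sum_const_zero, zero_add] at h1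
      rw [contract] at h1
      rw [Cop_apply, inner_sub_right, inner_smul_right, inner_sum, Complex.ofReal_natCast, ← h1,
        sub_eq_zero]
      refine Finset.sum_congr rfl fun i _ => ?_
      rw [hxx1, inner_smul_right]
      ring
    exact inner_self_eq_zero.mp (h0 _)
  have hfinE : (Module.finrank ℂ (EuclideanSpace ℂ (Fin d)) : ℝ) = (d : ℝ) := by
    rw [finrank_euclideanSpace, Fintype.card_fin]
  have hNle : (N : ℝ) ≤ (d : ℝ) ^ 2 := by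
    have : N ≤ d ^ 2 := by omega
    exact_mod_cast this
  have hgram : ∀ i j, ⟪x i, x j⟫_ℂ * ⟪x j, x i⟫_ℂ =
      if i = j then 1 else (((1 / ((d : ℝ) + 1) : ℝ)) : ℂ) := by
    intro i j
    split_ifs with hij
    · subst hij; rw [hxx1, mul_one]
    · exact inner_mul_inner_of (hx2 i j hij)
  have htb := trace_bound hd' hfinE x hgram hxx1 hNle (V A a) hZ
  have hrm : Module.finrank ℂ (V A a) ≤ m := by
    have h := finrank_range_le_card (R := ℂ) (fun j => A j a)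
    rw [Fintype.card_fin] at h
    exact h
  -- the arithmetic
  have hMr : d ^ 2 - N ≤ Module.finrank ℂ (V A a) := by
    by_contra hcon
    push Not at hcon
    set r := Module.finrank ℂ (V A a) with hr
    obtain ⟨M, hM⟩ : ∃ M : ℕ, N + M = d ^ 2 := ⟨d ^ 2 - N, by omega⟩
    have hrM : r + 1 ≤ M := by omega
    have hMR : (d : ℝ) ^ 2 - N = (M : ℝ) := by
      have : (N : ℝ) + (M : ℝ) = (d : ℝ) ^ 2 := by exact_mod_cast hM
      linarith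
    rw [hMR] at htb
    have hrMR : (r : ℝ) ≤ (M : ℝ) - 1 := by
      have : (r : ℝ) + 1 ≤ (M : ℝ) := by exact_mod_cast hrM
      linarith
    have hM1 : (0 : ℝ) ≤ (M : ℝ) - 1 := le_trans (by positivity) hrMR
    have h1 : (M : ℝ) - 1 ≤ Real.sqrt d := by linarith
    have h2 : ((M : ℝ) - 1) ^ 2 ≤ d := by
      have h3 := Real.sq_sqrt (x := (d : ℝ)) (by positivity)
      have h4 : ((M : ℝ) - 1) ^ 2 ≤ Real.sqrt d ^ 2 := pow_le_pow_left₀ hM1 h1 2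
      rwa [h3] at h4
    have h3 : (r : ℝ) * ((d : ℝ) + M) ≤ ((M : ℝ) - 1) * ((d : ℝ) + M) :=
      mul_le_mul_of_nonneg_right hrMR (by positivity)
    nlinarith
  have hcard : m = Module.finrank ℂ (V A a) := by omega
  have hli : LinearIndependent ℂ fun j => A j a := by
    rw [linearIndependent_iff_card_le_finrank_span, Fintype.card_fin]
    exact hcard.le
  obtain ⟨z, l, hz, hzl⟩ := structure_theorem hsym hS ha hli
  have hcm : Fintype.card (Fin m) = m := Fintype.card_fin m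
  have hid : ∀ u v w z' : EuclideanSpace ℂ (Fin d),
      ∑ k : Fin N ⊕ Fin (Fintype.card (Fin m)),
        (⟪u, Sum.elim x (fun i => ((Real.sqrt |l i| : ℝ) : ℂ) • z i) k⟫_ℂ *
          ⟪Sum.elim x (fun i => ((Real.sqrt |l i| : ℝ) : ℂ) • z i) k, v⟫_ℂ) *
        (⟪w, Sum.elim x (fun i => ((Real.sqrt |l i| : ℝ) : ℂ) • z i) k⟫_ℂ *
          ⟪Sum.elim x (fun i => ((Real.sqrt |l i| : ℝ) : ℂ) • z i) k, z'⟫_ℂ) =
        ((d : ℂ) / (d + 1)) * (⟪u, z'⟫_ℂ * ⟪w, v⟫_ℂ + ⟪u, v⟫_ℂ * ⟪w, z'⟫_ℂ) := by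
    intro u v w q
    rw [Fintype.sum_sum_type]
    simp only [Sum.elim_inl, Sum.elim_inr]
    rw [← hK u v w q, add_comm]
    congr 1
    rw [hzl]
    refine Finset.sum_congr rfl fun i _ => ?_
    simp only [inner_smul_left, inner_smul_right, Complex.conj_ofReal]
    have h1 : ((Real.sqrt |l i| : ℝ) : ℂ) * ((Real.sqrt |l i| : ℝ) : ℂ) = ((|l i| : ℝ) : ℂ) := by
      rw [← Complex.ofReal_mul, Real.mul_self_sqrt (abs_nonneg _)]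
    have h2 : ((|l i| : ℝ) : ℂ) * ((|l i| : ℝ) : ℂ) = (l i : ℂ) * (l i : ℂ) := by
      rw [← Complex.ofReal_mul, abs_mul_abs_self, Complex.ofReal_mul]
    calc _ = (((Real.sqrt |l i| : ℝ) : ℂ) * ((Real.sqrt |l i| : ℝ) : ℂ)) *
          (((Real.sqrt |l i| : ℝ) : ℂ) * ((Real.sqrt |l i| : ℝ) : ℂ)) *
          ((⟪u, z i⟫_ℂ * ⟪z i, v⟫_ℂ) * (⟪w, z i⟫_ℂ * ⟪z i, q⟫_ℂ)) := by ring
      _ = _ := by
        rw [h1, h2]
        ring
  have hcard2 : Fintype.card (Fin N ⊕ Fin (Fintype.card (Fin m))) = d ^ 2 := by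
    rw [Fintype.card_sum, Fintype.card_fin, Fintype.card_fin, hcm]
    omega
  have hsic := design_sic hd hcard2 _ hid
  refine ⟨Fintype.card (Fin m), fun i => ((Real.sqrt |l i| : ℝ) : ℂ) • z i, by omega, ?_, hid⟩
  rw [Fintype.linearIndependent_iff] at hz ⊢
  intro g hg i
  have h1 := hz (fun i => g i * ((Real.sqrt |l i| : ℝ) : ℂ)) (by
    rw [← hg]
    exact Finset.sum_congr rfl fun i _ => (smul_smul _ _ _).symm) i
  have h2 := hsic.1 (Sum.inr i)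
  simp only [Sum.elim_inr] at h2
  rcases mul_eq_zero.mp h1 with h3 | h3
  · exact h3
  · rw [h3, zero_smul, norm_zero] at h2
    exact absurd h2 zero_ne_one

/-- uniqueness: a unit vector at the right angle from all `x i` is one of the new vectors. -/
theorem uniqueness (hd : 0 < d) {N m : ℕ} (x : Fin N → EuclideanSpace ℂ (Fin d))
    (y : Fin m → EuclideanSpace ℂ (Fin d)) (hy : LinearIndependent ℂ y)
    (hnorm : ∀ k, ‖Sum.elim x y k‖ = 1)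
    (hid : ∀ u v w z : EuclideanSpace ℂ (Fin d),
      ∑ k : Fin N ⊕ Fin m, (⟪u, Sum.elim x y k⟫_ℂ * ⟪Sum.elim x y k, v⟫_ℂ) *
        (⟪w, Sum.elim x y k⟫_ℂ * ⟪Sum.elim x y k, z⟫_ℂ) =
        ((d : ℂ) / (d + 1)) * (⟪u, z⟫_ℂ * ⟪w, v⟫_ℂ + ⟪u, v⟫_ℂ * ⟪w, z⟫_ℂ))
    (w : EuclideanSpace ℂ (Fin d)) (hw : ‖w‖ = 1)
    (hwx : ∀ i, ‖⟪x i, w⟫_ℂ‖ = 1 / Real.sqrt ((d : ℝ) + 1)) :
    ∃ i c, w = (c : ℂ) • y i := by
  classical
  have hd1 : (d : ℂ) + 1 ≠ 0 := by exact_mod_cast Nat.succ_ne_zero d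
  have hd0 : (d : ℂ) ≠ 0 := by exact_mod_cast hd.ne'
  have hww : ⟪w, w⟫_ℂ = 1 := by
    rw [inner_self_eq_norm_sq_to_K, hw]; simp
  have hee : ∀ k, ⟪Sum.elim x y k, Sum.elim x y k⟫_ℂ = 1 := by
    intro k
    rw [inner_self_eq_norm_sq_to_K, hnorm]; simp
  -- resolution of the identity
  have hres : ∀ u v, ∑ k : Fin N ⊕ Fin m, ⟪u, Sum.elim x y k⟫_ℂ * ⟪Sum.elim x y k, v⟫_ℂ =
      (d : ℂ) * ⟪u, v⟫_ℂ := by
    intro u v
    rw [← contract_rhs u v, ← Finset.sum_congr rfl fun k _ => hid u v _ _, contract]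
    refine Finset.sum_congr rfl fun k _ => ?_
    rw [hee, mul_one]
  have hmain : ∀ u v, ((d : ℂ) / (d + 1)) * (⟪u, w⟫_ℂ * ⟪w, v⟫_ℂ) =
      ∑ i, (⟪w, y i⟫_ℂ * ⟪y i, w⟫_ℂ - 1 / ((d : ℂ) + 1)) * (⟪u, y i⟫_ℂ * ⟪y i, v⟫_ℂ) := by
    intro u v
    have h1 := hid u v w w
    have h2 := hres u v
    have h3 : ∑ k : Fin N ⊕ Fin m, (⟪w, Sum.elim x y k⟫_ℂ * ⟪Sum.elim x y k, w⟫_ℂ -
        1 / ((d : ℂ) + 1)) * (⟪u, Sum.elim x y k⟫_ℂ * ⟪Sum.elim x y k, v⟫_ℂ) =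
        ((d : ℂ) / (d + 1)) * (⟪u, w⟫_ℂ * ⟪w, v⟫_ℂ) := by
      have h4 : ∀ k : Fin N ⊕ Fin m, (⟪w, Sum.elim x y k⟫_ℂ * ⟪Sum.elim x y k, w⟫_ℂ -
        1 / ((d : ℂ) + 1)) * (⟪u, Sum.elim x y k⟫_ℂ * ⟪Sum.elim x y k, v⟫_ℂ) =
        (⟪u, Sum.elim x y k⟫_ℂ * ⟪Sum.elim x y k, v⟫_ℂ) *
        (⟪w, Sum.elim x y k⟫_ℂ * ⟪Sum.elim x y k, w⟫_ℂ) -
        (1 / ((d : ℂ) + 1)) * (⟪u, Sum.elim x y k⟫_ℂ * ⟪Sum.elim x y k, v⟫_ℂ) := fun k => by ring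
      rw [Finset.sum_congr rfl fun k _ => h4 k, Finset.sum_sub_distrib, ← Finset.mul_sum, h1, h2,
        hww]
      field_simp
      ring
    rw [← h3, Fintype.sum_sum_type]
    simp only [Sum.elim_inl, Sum.elim_inr]
    have h5 : ∀ i, (⟪w, x i⟫_ℂ * ⟪x i, w⟫_ℂ - 1 / ((d : ℂ) + 1)) * (⟪u, x i⟫_ℂ * ⟪x i, v⟫_ℂ) = 0 := by
      intro i
      have h6 := inner_mul_inner_of (hwx i)
      rw [mul_comm ⟪w, x i⟫_ℂ, h6]
      push_cast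
      ring
    rw [Finset.sum_congr rfl fun i _ => h5 i, Finset.sum_const_zero, zero_add]
  obtain ⟨g, -, hg⟩ := exists_dual y hy
  have hδ : (d : ℂ) / (d + 1) ≠ 0 := div_ne_zero hd0 hd1
  -- expansion of `w`
  have hexp : w = ∑ i, ⟪g i, w⟫_ℂ • y i := by
    have hg1 : ∀ i, ((d : ℂ) / (d + 1)) * ⟪g i, w⟫_ℂ =
        (⟪w, y i⟫_ℂ * ⟪y i, w⟫_ℂ - 1 / ((d : ℂ) + 1)) * ⟪y i, w⟫_ℂ := by
      intro i
      have h1 := hmain (g i) w
      rw [hww, mul_one] at h1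
      rw [h1, Finset.sum_eq_single i]
      · rw [hg i i, if_pos rfl, one_mul]
      · intro j _ hj
        rw [hg i j, if_neg (Ne.symm hj)]
        ring
      · simp
    refine ext_inner_left ℂ fun u => ?_
    have h1 := hmain u w
    rw [hww, mul_one] at h1
    apply mul_left_cancel₀ hδ
    rw [h1, inner_sum, Finset.mul_sum]
    refine Finset.sum_congr rfl fun i _ => ?_
    rw [inner_smul_right]
    calc _ = ((⟪w, y i⟫_ℂ * ⟪y i, w⟫_ℂ - 1 / ((d : ℂ) + 1)) * ⟪y i, w⟫_ℂ) * ⟪u, y i⟫_ℂ := by ring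
      _ = (((d : ℂ) / (d + 1)) * ⟪g i, w⟫_ℂ) * ⟪u, y i⟫_ℂ := by rw [hg1]
      _ = _ := by ring
  have hprod : ∀ k l, k ≠ l → ⟪g k, w⟫_ℂ * ⟪w, g l⟫_ℂ = 0 := by
    intro k l hkl
    have h1 := hmain (g k) (g l)
    have h2 : ∑ i, (⟪w, y i⟫_ℂ * ⟪y i, w⟫_ℂ - 1 / ((d : ℂ) + 1)) *
        (⟪g k, y i⟫_ℂ * ⟪y i, g l⟫_ℂ) = 0 := by
      refine Finset.sum_eq_zero fun i _ => ?_
      have h3 : ⟪y i, g l⟫_ℂ = if l = i then 1 else 0 := by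
        rw [← inner_conj_symm, hg l i]
        split_ifs <;> simp
      rw [hg k i, h3]
      split_ifs with h4 h5
      · exact absurd (h4.trans h5.symm) hkl
      · ring
      · ring
      · ring
    rw [h2] at h1
    rcases mul_eq_zero.mp h1 with h3 | h3
    · exact absurd h3 hδ
    · exact h3
  have hw0 : w ≠ 0 := by
    intro h
    rw [h, norm_zero] at hw
    exact zero_ne_one hw
  obtain ⟨k, hk⟩ : ∃ k, ⟪g k, w⟫_ℂ ≠ 0 := by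
    by_contra hcon
    push Not at hcon
    apply hw0
    rw [hexp]
    exact Finset.sum_eq_zero fun i _ => by rw [hcon i, zero_smul]
  refine ⟨k, ⟪g k, w⟫_ℂ, ?_⟩
  conv_lhs => rw [hexp]
  rw [Finset.sum_eq_single k]
  · intro l _ hl
    have h1 := hprod k l (Ne.symm hl)
    rcases mul_eq_zero.mp h1 with h2 | h2
    · exact absurd h2 hk
    · have h3 : ⟪g l, w⟫_ℂ = 0 := by
        rw [← inner_conj_symm, h2, map_zero]
      rw [h3, zero_smul]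
  · simp

end Pool.Agent.H103R3
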