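import Mathlib

set_option autoImplicit false
set_option linter.unusedSectionVars false

namespace Pool.Agent.H103R3

open scoped InnerProductSpace

variable {F : Type*} [NormedAddCommGroup F] [InnerProductSpace ℝ F] [FiniteDimensional ℝ F]

/-- the operator `X ↦ β (X + ⟨ι, X⟩ ι) - ∑ ⟨p_i, X⟩ p_i`. -/
noncomputable def genOp {N : ℕ} (β : ℝ) (ι : F) (p : Fin N → F) : F →ₗ[ℝ] F where
  toFun X := β • (X + ⟪ι, X⟫_ℝ • ι) - ∑ i, ⟪p i, X⟫_ℝ • p i
  map_add' X Y := by
    simp only [inner_add_right, add_smul, Finset.sum_add_distrib, smul_add]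
    abel
  map_smul' c X := by
    simp only [inner_smul_right, RingHom.id_apply, smul_sub, Finset.smul_sum, smul_smul, smul_add]
    rw [mul_comm c β, show β * (c * ⟪ι, X⟫_ℝ) = c * (β * ⟪ι, X⟫_ℝ) by ring]

theorem genOp_apply {N : ℕ} (β : ℝ) (ι : F) (p : Fin N → F) (X : F) :
    genOp β ι p X = β • (X + ⟪ι, X⟫_ℝ • ι) - ∑ i, ⟪p i, X⟫_ℝ • p i := rfl

theorem genOp_symm {N : ℕ} (β : ℝ) (ι : F) (p : Fin N → F) : (genOp β ι p).IsSymmetric := by
  intro X Y
  simp only [genOp_apply, inner_sub_left, inner_sub_right, inner_smul_left, inner_smul_right,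
    inner_add_left, inner_add_right, sum_inner, inner_sum, conj_trivial]
  rw [real_inner_comm X ι]
  congr 1
  · ring
  · refine Finset.sum_congr rfl fun i _ => ?_
    rw [real_inner_comm X (p i)]
    ring

variable {N : ℕ} {d α : ℝ} {ι : F} {p : Fin N → F}

theorem sum_gramG (hpp : ∀ i j, ⟪p i, p j⟫_ℝ = if i = j then 1 else α)
    (c : Fin N → ℝ) (j : Fin N) :
    ∑ i, c i * ⟪p i, p j⟫_ℝ = (1 - α) * c j + α * ∑ i, c i := by
  have h1 : ∀ i, c i * ⟪p i, p j⟫_ℝ = (if i = j then (1 - α) * c j else 0) + α * c i := by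
    intro i
    rw [hpp]
    split_ifs with h
    · subst h; ring
    · ring
  rw [Finset.sum_congr rfl fun i _ => h1 i, Finset.sum_add_distrib, ← Finset.mul_sum]
  simp

theorem inner_genOp (β : ℝ) (X : F) : ⟪X, genOp β ι p X⟫_ℝ =
    β * (⟪X, X⟫_ℝ + ⟪ι, X⟫_ℝ ^ 2) - ∑ i, ⟪p i, X⟫_ℝ ^ 2 := by
  rw [genOp_apply, inner_sub_right, inner_smul_right, inner_add_right, inner_smul_right, inner_sum]
  congr 1
  · rw [real_inner_comm ι X]; ring
  · refine Finset.sum_congr rfl fun i _ => ?_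
    rw [inner_smul_right, real_inner_comm (p i) X]; ring

/-- the operator is positive on a hyperplane. -/
theorem genOp_pos (hα : α < 1) (hpp : ∀ i j, ⟪p i, p j⟫_ℝ = if i = j then 1 else α) (X : F)
    (hX : ∑ i, ⟪p i, X⟫_ℝ = 0) : 0 ≤ ⟪X, genOp (1 - α) ι p X⟫_ℝ := by
  set t : Fin N → ℝ := fun i => ⟪p i, X⟫_ℝ with ht
  have hβ : 0 < 1 - α := by linarith
  rw [inner_genOp]
  -- the projection
  have h1 : 0 ≤ ⟪X - (1 - α)⁻¹ • ∑ i, t i • p i, X - (1 - α)⁻¹ • ∑ i, t i • p i⟫_ℝ :=
    real_inner_self_nonneg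
  have h2 : ⟪∑ i, t i • p i, X⟫_ℝ = ∑ i, t i ^ 2 := by
    rw [sum_inner]
    refine Finset.sum_congr rfl fun i _ => ?_
    rw [inner_smul_left]; simp [ht, sq]
  have h3 : ⟪∑ i, t i • p i, ∑ i, t i • p i⟫_ℝ = (1 - α) * ∑ i, t i ^ 2 := by
    rw [inner_sum]
    have h4 : ∀ j, ⟪∑ i, t i • p i, t j • p j⟫_ℝ = (1 - α) * t j ^ 2 := by
      intro j
      rw [inner_smul_right, sum_inner]
      have h5 : ∀ i, ⟪t i • p i, p j⟫_ℝ = t i * ⟪p i, p j⟫_ℝ := fun i => by
        rw [inner_smul_left]; simp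
      rw [Finset.sum_congr rfl fun i _ => h5 i, sum_gramG hpp, hX]
      ring
    rw [Finset.sum_congr rfl fun j _ => h4 j, Finset.mul_sum]
  have h1' : ⟪X - (1 - α)⁻¹ • ∑ i, t i • p i, X - (1 - α)⁻¹ • ∑ i, t i • p i⟫_ℝ =
      ⟪X, X⟫_ℝ - (1 - α)⁻¹ * ⟪X, ∑ i, t i • p i⟫_ℝ -
        ((1 - α)⁻¹ * ⟪∑ i, t i • p i, X⟫_ℝ -
          (1 - α)⁻¹ * ((1 - α)⁻¹ * ⟪∑ i, t i • p i, ∑ i, t i • p i⟫_ℝ)) := by
    simp only [inner_sub_left, inner_sub_right, inner_smul_left, inner_smul_right, conj_trivial]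
    ring
  rw [h1', h3, real_inner_comm (∑ i, t i • p i) X, h2] at h1
  have h6 : 0 ≤ (1 - α) * (⟪X, X⟫_ℝ - (1 - α)⁻¹ * ∑ i, t i ^ 2) := by
    apply mul_nonneg hβ.le
    have e : (1 - α)⁻¹ * ((1 - α) * ∑ i, t i ^ 2) = ∑ i, t i ^ 2 := by
      rw [← mul_assoc, inv_mul_cancel₀ hβ.ne', one_mul]
    rw [e] at h1
    linarith
  have e2 : (1 - α) * ((1 - α)⁻¹ * ∑ i, t i ^ 2) = ∑ i, t i ^ 2 := by
    rw [← mul_assoc, mul_inv_cancel₀ hβ.ne', one_mul]
  rw [mul_sub, e2] at h6
  have h7 : 0 ≤ (1 - α) * ⟪ι, X⟫_ℝ ^ 2 := by positivity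
  nlinarith

theorem genOp_p (hιp : ∀ i, ⟪ι, p i⟫_ℝ = 1)
    (hpp : ∀ i j, ⟪p i, p j⟫_ℝ = if i = j then 1 else α) (i : Fin N) :
    genOp (1 - α) ι p (p i) = (1 - α) • ι - α • ∑ j, p j := by
  rw [genOp_apply, hιp]
  have h1 : ∀ j, ⟪p j, p i⟫_ℝ • p j = (if j = i then (1 - α) • p i else 0) + α • p j := by
    intro j
    rw [hpp]
    split_ifs with h
    · rw [h, ← add_smul]; simp
    · simp
  rw [Finset.sum_congr rfl fun j _ => h1 j, Finset.sum_add_distrib, ← Finset.smul_sum]
  simp only [Finset.sum_ite_eq', Finset.mem_univ, if_true, one_smul, smul_add]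
  abel

/-- `ι` lies in the range of the operator. -/
theorem iota_mem (hN : 0 < N) (hα : α < 1) (hαd : α * (d + 1) ≠ 1) (hιι : ⟪ι, ι⟫_ℝ = d)
    (hιp : ∀ i, ⟪ι, p i⟫_ℝ = 1)
    (hpp : ∀ i j, ⟪p i, p j⟫_ℝ = if i = j then 1 else α) :
    ∃ X, genOp (1 - α) ι p X = ι := by
  have hTs : genOp (1 - α) ι p (∑ i, p i) = (N : ℝ) • ((1 - α) • ι - α • ∑ j, p j) := by
    rw [map_sum, Finset.sum_congr rfl fun i _ => genOp_p hιp hpp i, Finset.sum_const,
      Finset.card_univ, Fintype.card_fin, Nat.cast_smul_eq_nsmul]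
  have hTι : genOp (1 - α) ι p ι = ((1 - α) * (d + 1)) • ι - ∑ j, p j := by
    rw [genOp_apply, hιι]
    have h1 : ∀ j, ⟪p j, ι⟫_ℝ • p j = p j := by
      intro j
      rw [real_inner_comm, hιp, one_smul]
    rw [Finset.sum_congr rfl fun j _ => h1 j]
    congr 1
    rw [mul_smul, add_smul, one_smul, add_comm]
  have hc : (1 - α) * N * (1 - α * (d + 1)) ≠ 0 := by
    have h1 : (0 : ℝ) < N := by exact_mod_cast hN
    have h2 : 1 - α ≠ 0 := by linarith
    have h3 : 1 - α * (d + 1) ≠ 0 := fun h => hαd (by linarith)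
    exact mul_ne_zero (mul_ne_zero h2 h1.ne') h3
  refine ⟨((1 - α) * N * (1 - α * (d + 1)))⁻¹ • (∑ i, p i - (α * N) • ι), ?_⟩
  rw [map_smul, map_sub, map_smul, hTs, hTι]
  have h4 : (N : ℝ) • ((1 - α) • ι - α • ∑ j, p j) -
      (α * N) • (((1 - α) * (d + 1)) • ι - ∑ j, p j) =
      ((1 - α) * N * (1 - α * (d + 1))) • ι := by
    module
  rw [h4, smul_smul, inv_mul_cancel₀ hc, one_smul]

theorem exists_spectral (hN : 0 < N) (hα : α < 1) (hαd : α * (d + 1) ≠ 1)
    (hd : 0 < d) (hιι : ⟪ι, ι⟫_ℝ = d) (hιp : ∀ i, ⟪ι, p i⟫_ℝ = 1)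
    (hpp : ∀ i j, ⟪p i, p j⟫_ℝ = if i = j then 1 else α) :
    ∃ (n : ℕ) (lam : Fin n → ℝ) (q : Fin n → F) (j0 : Fin n) (c0 : Fin n → ℝ),
      n + N ≤ Module.finrank ℝ F + 1 ∧ (∀ j, j ≠ j0 → 0 < lam j) ∧ lam j0 ≠ 0 ∧
      LinearIndependent ℝ q ∧ ∑ j, c0 j • q j = ι ∧
      ∀ X, ∑ j, (lam j * ⟪q j, X⟫_ℝ) • q j = genOp (1 - α) ι p X := by
  classical
  set T := genOp (1 - α) ι p with hT
  have hsym : T.IsSymmetric := genOp_symm _ ι p
  set n := Module.finrank ℝ F with hn
  let b := hsym.eigenvectorBasis rfl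
  let lam := hsym.eigenvalues rfl
  have hTb : ∀ j, T (b j) = lam j • b j := fun j => hsym.apply_eigenvectorBasis rfl j
  let J := {j : Fin n // lam j ≠ 0}
  let e : Fin (Fintype.card J) ≃ J := (Fintype.equivFin J).symm
  have hbb : ∀ j k, ⟪b j, b k⟫_ℝ = if j = k then 1 else 0 := by
    intro j k
    exact orthonormal_iff_ite.mp b.orthonormal j k
  -- the expansion
  have hexp : ∀ X, ∑ j, (lam (e j).1 * ⟪b (e j).1, X⟫_ℝ) • b (e j).1 = T X := by
    intro X
    have h2 : T X = ∑ j, (lam j * ⟪b j, X⟫_ℝ) • b j := by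
      conv_lhs => rw [← b.sum_repr' X]
      rw [map_sum]
      refine Finset.sum_congr rfl fun j _ => ?_
      rw [map_smul, hTb, smul_smul, mul_comm]
    rw [h2, e.sum_comp (fun j : J => (lam j.1 * ⟪b j.1, X⟫_ℝ) • b j.1)]
    have h3 : ∑ j ∈ Finset.univ.filter (fun j => lam j ≠ 0), (lam j * ⟪b j, X⟫_ℝ) • b j =
        ∑ j : J, (lam j.1 * ⟪b j.1, X⟫_ℝ) • b j.1 :=
      Finset.sum_subtype (Finset.univ.filter fun j => lam j ≠ 0)
        (by simp) (fun j => (lam j * ⟪b j, X⟫_ℝ) • b j)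
    rw [← h3, Finset.sum_filter_of_ne]
    intro j _ hj h0
    apply hj
    rw [h0, zero_mul, zero_smul]
  -- at most one negative eigenvalue
  have hneg : ∀ j k, j ≠ k → lam j < 0 → ¬ lam k < 0 := by
    intro j k hjk hj hk
    have key : ∀ u v : ℝ, (∑ i, ⟪p i, u • b j + v • b k⟫_ℝ = 0) → 0 ≤ lam j * u ^ 2 + lam k * v ^ 2 := by
      intro u v huv
      have h := genOp_pos (ι := ι) hα hpp (u • b j + v • b k) huv
      rw [← hT, map_add, map_smul, map_smul, hTb, hTb] at h
      simp only [inner_add_left, inner_add_right, inner_smul_left, inner_smul_right, hbb,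
        conj_trivial] at h
      rw [if_neg hjk, if_neg hjk.symm] at h
      simp only [if_true] at h
      nlinarith
    set U := ∑ i, ⟪p i, b j⟫_ℝ with hU
    set W := ∑ i, ⟪p i, b k⟫_ℝ with hW
    have hsum : ∀ u v : ℝ, ∑ i, ⟪p i, u • b j + v • b k⟫_ℝ = u * U + v * W := by
      intro u v
      rw [hU, hW, Finset.mul_sum, Finset.mul_sum, ← Finset.sum_add_distrib]
      refine Finset.sum_congr rfl fun i _ => ?_
      rw [inner_add_right, inner_smul_right, inner_smul_right]
    by_cases h0 : U = 0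
    · have h1 := key 1 0 (by rw [hsum, h0]; ring)
      nlinarith
    · have h1 := key W (-U) (by rw [hsum]; ring)
      have h2 : 0 < U ^ 2 := by positivity
      have h3 : lam k * (-U) ^ 2 < 0 := by
        rw [neg_sq]; exact mul_neg_of_neg_of_pos hk h2
      have h4 : lam j * W ^ 2 ≤ 0 := mul_nonpos_of_nonpos_of_nonneg hj.le (sq_nonneg _)
      linarith
  -- `ι`
  obtain ⟨X0, hX0⟩ := iota_mem hN hα hαd hιι hιp hpp
  rw [← hT] at hX0
  have hne : Nonempty (Fin (Fintype.card J)) := by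
    by_contra hcon
    rw [not_nonempty_iff] at hcon
    have h1 := hexp X0
    rw [Finset.univ_eq_empty, Finset.sum_empty, hX0] at h1
    rw [← h1, inner_zero_left] at hιι
    linarith
  obtain ⟨j0, hj0⟩ : ∃ j0 : Fin (Fintype.card J), ∀ j, j ≠ j0 → 0 < lam (e j).1 := by
    by_cases h : ∃ j0 : Fin (Fintype.card J), lam (e j0).1 < 0
    · obtain ⟨j0, h0⟩ := h
      refine ⟨j0, fun j hj => ?_⟩
      have h1 : (e j0).1 ≠ (e j).1 := by
        intro h2
        exact hj (e.injective (Subtype.ext h2)).symm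
      have h2 := hneg _ _ h1 h0
      exact lt_of_le_of_ne (not_lt.mp h2) (Ne.symm (e j).2)
    · push Not at h
      exact ⟨hne.some, fun j _ => lt_of_le_of_ne (h j) (Ne.symm (e j).2)⟩
  refine ⟨Fintype.card J, fun j => lam (e j).1, fun j => b (e j).1, j0,
    fun j => lam (e j).1 * ⟪b (e j).1, X0⟫_ℝ, ?_, hj0, (e j0).2, ?_, ?_, hexp⟩
  · -- the count
    have h1 : Fintype.card J ≤ Module.finrank ℝ (LinearMap.range T) := by
      have hmem : ∀ j : J, b j.1 ∈ LinearMap.range T := by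
        intro j
        refine ⟨(lam j.1)⁻¹ • b j.1, ?_⟩
        rw [map_smul, hTb, smul_smul, inv_mul_cancel₀ j.2, one_smul]
      let g : J → LinearMap.range T := fun j => ⟨b j.1, hmem j⟩
      have hg : LinearIndependent ℝ g := by
        apply LinearIndependent.of_comp (LinearMap.range T).subtype
        have h3 : ((LinearMap.range T).subtype ∘ g) = fun j : J => b j.1 := rfl
        rw [h3]
        exact b.orthonormal.linearIndependent.comp _ Subtype.val_injective
      exact hg.fintype_card_le_finrank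
    have h2 : N ≤ Module.finrank ℝ (LinearMap.ker T) + 1 := by
      obtain ⟨M, rfl⟩ : ∃ M, N = M + 1 := ⟨N - 1, by omega⟩
      have hker : ∀ i : Fin M, p i.succ - p 0 ∈ LinearMap.ker T := by
        intro i
        rw [LinearMap.mem_ker, map_sub, hT, genOp_p hιp hpp, genOp_p hιp hpp, sub_self]
      let g : Fin M → LinearMap.ker T := fun i => ⟨p i.succ - p 0, hker i⟩
      have hg : LinearIndependent ℝ g := by
        apply LinearIndependent.of_comp (LinearMap.ker T).subtype
        have h3 : ((LinearMap.ker T).subtype ∘ g) = fun i : Fin M => p i.succ - p 0 := rfl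
        rw [h3, Fintype.linearIndependent_iff]
        intro c hc j
        have e2 := congrArg (fun w => ⟪w, p j.succ - p 0⟫_ℝ) hc
        simp only [sum_inner, inner_smul_left, inner_zero_left, conj_trivial] at e2
        have e3 : ∀ i : Fin M, ⟪p i.succ - p 0, p j.succ - p 0⟫_ℝ =
            (if i = j then (1 - α) else 0) + (1 - α) := by
          intro i
          rw [inner_sub_left, inner_sub_right, inner_sub_right, hpp, hpp, hpp, hpp]
          simp only [Fin.succ_inj, Fin.succ_ne_zero, if_false, (Fin.succ_ne_zero _).symm, if_true]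
          split_ifs <;> ring
        simp only [e3, mul_add, Finset.sum_add_distrib, mul_ite, mul_zero, Finset.sum_ite_eq',
          Finset.mem_univ, if_true, ← Finset.sum_mul] at e2
        have hβ : 0 < 1 - α := by linarith
        have e4 : c j = - ∑ i, c i := by
          have : (c j + ∑ i, c i) * (1 - α) = 0 := by linarith
          rcases mul_eq_zero.mp this with h | h
          · linarith
          · exact absurd h hβ.ne'
        -- all `c j` are equal to `-∑ c`
        have e5 : ∀ j, c j = - ∑ i, c i := by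
          intro j
          have e2 := congrArg (fun w => ⟪w, p j.succ - p 0⟫_ℝ) hc
          simp only [sum_inner, inner_smul_left, inner_zero_left, conj_trivial] at e2
          have e3 : ∀ i : Fin M, ⟪p i.succ - p 0, p j.succ - p 0⟫_ℝ =
              (if i = j then (1 - α) else 0) + (1 - α) := by
            intro i
            rw [inner_sub_left, inner_sub_right, inner_sub_right, hpp, hpp, hpp, hpp]
            simp only [Fin.succ_inj, Fin.succ_ne_zero, if_false, (Fin.succ_ne_zero _).symm, if_true]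
            split_ifs <;> ring
          simp only [e3, mul_add, Finset.sum_add_distrib, mul_ite, mul_zero, Finset.sum_ite_eq',
            Finset.mem_univ, if_true, ← Finset.sum_mul] at e2
          have : (c j + ∑ i, c i) * (1 - α) = 0 := by linarith
          rcases mul_eq_zero.mp this with h | h
          · linarith
          · exact absurd h hβ.ne'
        have e6 : ∑ i, c i = 0 := by
          have h7 : ∑ i, c i = M * (- ∑ i, c i) := by
            conv_lhs => rw [Finset.sum_congr rfl fun i _ => e5 i]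
            rw [Finset.sum_const, Finset.card_univ, Fintype.card_fin, nsmul_eq_mul]
          have h8 : (1 + (M : ℝ)) * ∑ i, c i = 0 := by linarith
          rcases mul_eq_zero.mp h8 with h | h
          · have : (0 : ℝ) ≤ M := Nat.cast_nonneg M
            linarith
          · exact h
        rw [e4, e6, neg_zero]
      simpa using hg.fintype_card_le_finrank
    have h3 := LinearMap.finrank_range_add_finrank_ker T
    omega
  · exact b.orthonormal.linearIndependent.comp (fun j => (e j).1)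
      (Subtype.val_injective.comp e.injective)
  · rw [hexp X0, hX0]

end Pool.Agent.H103R3
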