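import Mathlib
import Pool.Agent.H103R3.Herm
import Pool.Agent.H103R3.GramGen
import Pool.Agent.H103R3.Lorentz

set_option autoImplicit false
set_option linter.unusedSectionVars false

namespace Pool.Agent.H103R3

open scoped InnerProductSpace ComplexConjugate

variable {d : ℕ}

/-- the hermitian matrix with real coordinates `q`. -/
noncomputable def hm (q : EuclideanSpace ℝ (Fin d × Fin d)) : Matrix (Fin d) (Fin d) ℂ :=
  Matrix.of fun a b => al * ((q (a, b) : ℝ) : ℂ) + be * ((q (b, a) : ℝ) : ℂ)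

theorem hm_apply (q : EuclideanSpace ℝ (Fin d × Fin d)) (a b : Fin d) :
    hm q a b = al * ((q (a, b) : ℝ) : ℂ) + be * ((q (b, a) : ℝ) : ℂ) := rfl

theorem hm_herm (q : EuclideanSpace ℝ (Fin d × Fin d)) : (hm q).IsHermitian := by
  ext a b
  simp only [Matrix.conjTranspose_apply, hm_apply, star_add, star_mul']
  have h1 : star al = be := conj_al
  have h2 : star be = al := by rw [← h1, star_star]
  rw [h1, h2]
  simp only [RCLike.star_def, Complex.conj_ofReal]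
  ring

/-- `hm` as a linear combination. -/
theorem hm_sum {J : Type*} [Fintype J] (c : J → ℝ) (q : J → EuclideanSpace ℝ (Fin d × Fin d)) :
    ∑ j, ((c j : ℝ) : ℂ) • hm (q j) = hm (∑ j, c j • q j) := by
  ext a b
  rw [Matrix.sum_apply, hm_apply]
  have e : ∀ k : Fin d × Fin d, (∑ j, c j • q j : EuclideanSpace ℝ (Fin d × Fin d)) k =
      ∑ j, c j * q j k := by
    intro k
    simp
  rw [e, e]
  push_cast
  rw [Finset.mul_sum, Finset.mul_sum, ← Finset.sum_add_distrib]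
  refine Finset.sum_congr rfl fun j _ => ?_
  rw [Matrix.smul_apply, hm_apply, smul_eq_mul]
  ring

theorem hm_zero_imp {q : EuclideanSpace ℝ (Fin d × Fin d)} (h : hm q = 0) : q = 0 := by
  ext ⟨a, b⟩
  have h1 : hm q a b = 0 := by rw [h]; rfl
  rw [hm_apply] at h1
  have h2 := congrArg Complex.re h1
  have h3 := congrArg Complex.im h1
  simp only [al, be, Complex.add_re, Complex.mul_re, Complex.ofReal_re, Complex.ofReal_im,
    Complex.add_im, Complex.mul_im] at h2 h3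
  simp at h2 h3
  show q (a, b) = 0
  linarith

theorem hm_iv : hm (iv d) = 1 := by
  ext a b
  rw [hm_apply]
  have e4 : iv d (a, b) = if a = b then 1 else 0 := rfl
  have e5 : iv d (b, a) = if b = a then 1 else 0 := rfl
  rw [e4, e5, Matrix.one_apply]
  by_cases h : a = b
  · subst h
    simp [al, be]
    ring
  · rw [if_neg h, if_neg h, if_neg (Ne.symm h)]
    simp

/-- the tensor identity in terms of the hermitian matrices. -/
theorem tensor_identity {N n : ℕ} (x : Fin N → EuclideanSpace ℂ (Fin d)) (β : ℝ)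
    (lam : Fin n → ℝ) (q : Fin n → EuclideanSpace ℝ (Fin d × Fin d))
    (hq : ∀ X, ∑ j, (lam j * ⟪q j, X⟫_ℝ) • q j = genOp β (iv d) (fun i => rv (x i)) X)
    (u v w z : EuclideanSpace ℂ (Fin d)) :
    ∑ j, ((lam j : ℝ) : ℂ) * (⟪u, Matrix.toEuclideanLin (hm (q j)) v⟫_ℂ *
        ⟪w, Matrix.toEuclideanLin (hm (q j)) z⟫_ℂ) +
      ∑ i, (⟪u, x i⟫_ℂ * ⟪x i, v⟫_ℂ) * (⟪w, x i⟫_ℂ * ⟪x i, z⟫_ℂ) =
    (β : ℂ) * (⟪u, z⟫_ℂ * ⟪w, v⟫_ℂ + ⟪u, v⟫_ℂ * ⟪w, z⟫_ℂ) := by
  classical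
  have hS : ∀ k l : Fin d × Fin d, ∑ j, lam j * (q j k * q j l) =
      β * ((if k = l then 1 else 0) + (if k.1 = k.2 then 1 else 0) *
        (if l.1 = l.2 then 1 else 0)) - ∑ i, rv (x i) k * rv (x i) l := by
    intro k l
    have h := congrArg (fun w : EuclideanSpace ℝ (Fin d × Fin d) => w k)
      (hq (EuclideanSpace.single l (1 : ℝ)))
    simp only [genOp_apply] at h
    have e1 : ∀ w : EuclideanSpace ℝ (Fin d × Fin d), ⟪w, EuclideanSpace.single l (1 : ℝ)⟫_ℝ = w l := by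
      intro w
      rw [EuclideanSpace.inner_single_right]; simp
    simp only [e1] at h
    have e2 : (∑ j, (lam j * q j l) • q j : EuclideanSpace ℝ (Fin d × Fin d)) k =
        ∑ j, lam j * (q j k * q j l) := by
      have e0 : (∑ j, (lam j * q j l) • q j : EuclideanSpace ℝ (Fin d × Fin d)) k =
          ∑ j, (lam j * q j l) * q j k := by simp
      rw [e0]
      exact Finset.sum_congr rfl fun j _ => by ring
    have e3 : (β • (EuclideanSpace.single l (1 : ℝ) + iv d l • iv d) -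
        ∑ i, rv (x i) l • rv (x i) : EuclideanSpace ℝ (Fin d × Fin d)) k =
        β * ((if k = l then 1 else 0) + (if k.1 = k.2 then 1 else 0) *
        (if l.1 = l.2 then 1 else 0)) - ∑ i, rv (x i) k * rv (x i) l := by
      have e4 : iv d k = if k.1 = k.2 then 1 else 0 := rfl
      have e5 : iv d l = if l.1 = l.2 then 1 else 0 := rfl
      simp only [PiLp.sub_apply, PiLp.smul_apply, PiLp.add_apply, smul_eq_mul, e4, e5]
      congr 1
      · congr 1
        rw [mul_comm (if l.1 = l.2 then (1 : ℝ) else 0)]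
        congr 1
        simp [Pi.single_apply]
      · simp [mul_comm]
    rw [← e2, ← e3]
    exact h
  have hK : ∀ a b c e : Fin d, ∑ j, ((lam j : ℝ) : ℂ) * (hm (q j) a b * hm (q j) c e) +
        ∑ i, PP (x i) a b * PP (x i) c e =
      (β : ℂ) * ((if a = e then 1 else 0) * (if c = b then 1 else 0) +
        (if a = b then 1 else 0) * (if c = e then 1 else 0)) := by
    intro a b c e
    have hS' : ∀ k l : Fin d × Fin d,
        ∑ j, ((lam j : ℝ) : ℂ) * (((q j k : ℝ) : ℂ) * ((q j l : ℝ) : ℂ)) +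
        ∑ i, ((rv (x i) k : ℝ) : ℂ) * ((rv (x i) l : ℝ) : ℂ) =
        (β : ℂ) * ((if k = l then 1 else 0) + (if k.1 = k.2 then 1 else 0) *
          (if l.1 = l.2 then 1 else 0)) := by
      intro k l
      have h := hS k l
      have h2 : ((∑ j, lam j * (q j k * q j l) : ℝ) : ℂ) +
          ((∑ i, rv (x i) k * rv (x i) l : ℝ) : ℂ) =
        (((β * ((if k = l then 1 else 0) + (if k.1 = k.2 then 1 else 0) *
          (if l.1 = l.2 then 1 else 0)) : ℝ)) : ℂ) := by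
        rw [← Complex.ofReal_add, h]
        congr 1
        ring
      rw [Complex.ofReal_sum, Complex.ofReal_sum] at h2
      simp only [Complex.ofReal_mul] at h2
      rw [h2]
      push_cast
      congr 1
      split_ifs <;> simp
    have e1 : ∑ j, ((lam j : ℝ) : ℂ) * (hm (q j) a b * hm (q j) c e) +
          ∑ i, PP (x i) a b * PP (x i) c e =
        (al * al) * (∑ j, ((lam j : ℝ) : ℂ) * (((q j (a, b) : ℝ) : ℂ) * ((q j (c, e) : ℝ) : ℂ)) +
          ∑ i, ((rv (x i) (a, b) : ℝ) : ℂ) * ((rv (x i) (c, e) : ℝ) : ℂ)) +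
        (al * be) * (∑ j, ((lam j : ℝ) : ℂ) * (((q j (a, b) : ℝ) : ℂ) * ((q j (e, c) : ℝ) : ℂ)) +
          ∑ i, ((rv (x i) (a, b) : ℝ) : ℂ) * ((rv (x i) (e, c) : ℝ) : ℂ)) +
        (al * be) * (∑ j, ((lam j : ℝ) : ℂ) * (((q j (b, a) : ℝ) : ℂ) * ((q j (c, e) : ℝ) : ℂ)) +
          ∑ i, ((rv (x i) (b, a) : ℝ) : ℂ) * ((rv (x i) (c, e) : ℝ) : ℂ)) +
        (be * be) * (∑ j, ((lam j : ℝ) : ℂ) * (((q j (b, a) : ℝ) : ℂ) * ((q j (e, c) : ℝ) : ℂ)) +
          ∑ i, ((rv (x i) (b, a) : ℝ) : ℂ) * ((rv (x i) (e, c) : ℝ) : ℂ)) := by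
      simp only [mul_add, Finset.mul_sum]
      have e2 : ∀ j, ((lam j : ℝ) : ℂ) * (hm (q j) a b * hm (q j) c e) =
          al * al * (((lam j : ℝ) : ℂ) * (((q j (a, b) : ℝ) : ℂ) * ((q j (c, e) : ℝ) : ℂ))) +
          al * be * (((lam j : ℝ) : ℂ) * (((q j (a, b) : ℝ) : ℂ) * ((q j (e, c) : ℝ) : ℂ))) +
          al * be * (((lam j : ℝ) : ℂ) * (((q j (b, a) : ℝ) : ℂ) * ((q j (c, e) : ℝ) : ℂ))) +
          be * be * (((lam j : ℝ) : ℂ) * (((q j (b, a) : ℝ) : ℂ) * ((q j (e, c) : ℝ) : ℂ))) := by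
        intro j
        rw [hm_apply, hm_apply]
        ring
      have e3 : ∀ i, PP (x i) a b * PP (x i) c e =
          al * al * (((rv (x i) (a, b) : ℝ) : ℂ) * ((rv (x i) (c, e) : ℝ) : ℂ)) +
          al * be * (((rv (x i) (a, b) : ℝ) : ℂ) * ((rv (x i) (e, c) : ℝ) : ℂ)) +
          al * be * (((rv (x i) (b, a) : ℝ) : ℂ) * ((rv (x i) (c, e) : ℝ) : ℂ)) +
          be * be * (((rv (x i) (b, a) : ℝ) : ℂ) * ((rv (x i) (e, c) : ℝ) : ℂ)) := by
        intro i
        rw [PP_eq (x i) a b, PP_eq (x i) c e]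
        ring
      rw [Finset.sum_congr rfl fun j _ => e2 j, Finset.sum_congr rfl fun i _ => e3 i]
      simp only [Finset.sum_add_distrib]
      ring
    rw [e1, hS', hS', hS', hS', al_sq, be_sq, al_be]
    simp only [Prod.mk.injEq]
    have c1 : (if (b = e ∧ a = c) then (1 : ℂ) else 0) = if (a = c ∧ b = e) then 1 else 0 := by
      simp only [and_comm]
    have c2 : (if b = a then (1 : ℂ) else 0) = if a = b then 1 else 0 := by
      simp only [eq_comm]
    have c3 : (if e = c then (1 : ℂ) else 0) = if c = e then 1 else 0 := by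
      simp only [eq_comm]
    have c4 : (if (a = e ∧ b = c) then (1 : ℂ) else 0) =
        (if a = e then 1 else 0) * (if c = b then 1 else 0) := by
      simp only [eq_comm (a := b) (b := c), ite_and]
      split_ifs <;> simp
    have c5 : (if (b = c ∧ a = e) then (1 : ℂ) else 0) =
        (if a = e then 1 else 0) * (if c = b then 1 else 0) := by
      simp only [and_comm (a := b = c)]
      exact c4
    rw [c1, c2, c3, c4, c5]
    ring
  have hAj : ∀ (j : Fin n) (u v : EuclideanSpace ℂ (Fin d)),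
      ⟪u, Matrix.toEuclideanLin (hm (q j)) v⟫_ℂ = ∑ a, ∑ b, conj (u a) * hm (q j) a b * v b := by
    intro j u v
    rw [inner_eq_sum]
    refine Finset.sum_congr rfl fun a _ => ?_
    rw [Matrix.toLpLin_apply]
    simp only [Matrix.mulVec, dotProduct]
    rw [Finset.mul_sum]
    refine Finset.sum_congr rfl fun b _ => ?_
    ring
  have hPi : ∀ (i : Fin N) (u v : EuclideanSpace ℂ (Fin d)),
      ⟪u, x i⟫_ℂ * ⟪x i, v⟫_ℂ = ∑ a, ∑ b, conj (u a) * PP (x i) a b * v b := by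
    intro i u v
    rw [inner_eq_sum, inner_eq_sum, Finset.sum_mul_sum]
    refine Finset.sum_congr rfl fun a _ => Finset.sum_congr rfl fun b _ => ?_
    simp only [PP]
    ring
  have hprod : ∀ (M M' : Matrix (Fin d) (Fin d) ℂ),
      (∑ a, ∑ b, conj (u a) * M a b * v b) * (∑ c, ∑ e, conj (w c) * M' c e * z e) =
      ∑ a, ∑ b, ∑ c, ∑ e, (conj (u a) * v b * conj (w c) * z e) * (M a b * M' c e) := by
    intro M M'
    rw [Finset.sum_mul]
    refine Finset.sum_congr rfl fun a _ => ?_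
    rw [Finset.sum_mul]
    refine Finset.sum_congr rfl fun b _ => ?_
    rw [Finset.mul_sum]
    refine Finset.sum_congr rfl fun c _ => ?_
    rw [Finset.mul_sum]
    refine Finset.sum_congr rfl fun e _ => ?_
    ring
  have hL : ∑ j, ((lam j : ℝ) : ℂ) * (⟪u, Matrix.toEuclideanLin (hm (q j)) v⟫_ℂ *
        ⟪w, Matrix.toEuclideanLin (hm (q j)) z⟫_ℂ) +
          ∑ i, (⟪u, x i⟫_ℂ * ⟪x i, v⟫_ℂ) * (⟪w, x i⟫_ℂ * ⟪x i, z⟫_ℂ) =
      ∑ a, ∑ b, ∑ c, ∑ e, (conj (u a) * v b * conj (w c) * z e) *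
        (∑ j, ((lam j : ℝ) : ℂ) * (hm (q j) a b * hm (q j) c e) +
          ∑ i, PP (x i) a b * PP (x i) c e) := by
    have h1 : ∀ j, ((lam j : ℝ) : ℂ) * (⟪u, Matrix.toEuclideanLin (hm (q j)) v⟫_ℂ *
        ⟪w, Matrix.toEuclideanLin (hm (q j)) z⟫_ℂ) =
        ∑ a, ∑ b, ∑ c, ∑ e, (conj (u a) * v b * conj (w c) * z e) *
          (((lam j : ℝ) : ℂ) * (hm (q j) a b * hm (q j) c e)) := by
      intro j
      rw [hAj, hAj, hprod]
      simp only [Finset.mul_sum]
      refine Finset.sum_congr rfl fun a _ => Finset.sum_congr rfl fun b _ =>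
        Finset.sum_congr rfl fun c _ => Finset.sum_congr rfl fun e _ => ?_
      ring
    have h2 : ∀ i, (⟪u, x i⟫_ℂ * ⟪x i, v⟫_ℂ) * (⟪w, x i⟫_ℂ * ⟪x i, z⟫_ℂ) =
        ∑ a, ∑ b, ∑ c, ∑ e, (conj (u a) * v b * conj (w c) * z e) *
          (PP (x i) a b * PP (x i) c e) := by
      intro i
      rw [hPi, hPi]
      exact hprod (Matrix.of (PP (x i))) (Matrix.of (PP (x i)))
    rw [Finset.sum_congr rfl fun j _ => h1 j, Finset.sum_congr rfl fun i _ => h2 i]
    simp only [mul_add, Finset.mul_sum, Finset.sum_add_distrib]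
    congr 1
    · rw [Finset.sum_comm]
      refine Finset.sum_congr rfl fun a _ => ?_
      rw [Finset.sum_comm]
      refine Finset.sum_congr rfl fun b _ => ?_
      rw [Finset.sum_comm]
      refine Finset.sum_congr rfl fun c _ => ?_
      rw [Finset.sum_comm]
    · rw [Finset.sum_comm]
      refine Finset.sum_congr rfl fun a _ => ?_
      rw [Finset.sum_comm]
      refine Finset.sum_congr rfl fun b _ => ?_
      rw [Finset.sum_comm]
      refine Finset.sum_congr rfl fun c _ => ?_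
      rw [Finset.sum_comm]
  rw [hL]
  simp only [hK]
  have hR : ∀ a b c e : Fin d, (conj (u a) * v b * conj (w c) * z e) *
      ((β : ℂ) * ((if a = e then 1 else 0) * (if c = b then 1 else 0) +
        (if a = b then 1 else 0) * (if c = e then 1 else 0))) =
      (β : ℂ) * ((if a = e then conj (u a) * z e else 0) *
        (if c = b then conj (w c) * v b else 0)) +
      (β : ℂ) * ((if a = b then conj (u a) * v b else 0) *
        (if c = e then conj (w c) * z e else 0)) := by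
    intro a b c e
    split_ifs <;> ring
  simp only [hR, Finset.sum_add_distrib]
  have hR1 : ∑ a, ∑ b, ∑ c, ∑ e, (β : ℂ) * ((if a = e then conj (u a) * z e else 0) *
        (if c = b then conj (w c) * v b else 0)) = (β : ℂ) * (⟪u, z⟫_ℂ * ⟪w, v⟫_ℂ) := by
    rw [inner_eq_sum, inner_eq_sum, Finset.sum_mul_sum, Finset.mul_sum]
    refine Finset.sum_congr rfl fun a _ => ?_
    rw [Finset.mul_sum]
    simp only [← Finset.mul_sum, ← Finset.sum_mul]
    simp
  have hR2 : ∑ a, ∑ b, ∑ c, ∑ e, (β : ℂ) * ((if a = b then conj (u a) * v b else 0) *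
        (if c = e then conj (w c) * z e else 0)) = (β : ℂ) * (⟪u, v⟫_ℂ * ⟪w, z⟫_ℂ) := by
    rw [inner_eq_sum, inner_eq_sum, Finset.sum_mul_sum, Finset.mul_sum]
    refine Finset.sum_congr rfl fun a _ => ?_
    rw [Finset.mul_sum]
    simp only [← Finset.mul_sum, ← Finset.sum_mul]
    simp
  rw [hR1, hR2]
  ring

/-- The deficiency tensor of an equiangular system. -/
theorem exists_tensor (hd : 0 < d) {N : ℕ} (hN : 0 < N) (x : Fin N → EuclideanSpace ℂ (Fin d))
    {α : ℝ} (hx1 : ∀ i, ‖x i‖ = 1) (hx2 : ∀ i j, i ≠ j → ‖⟪x i, x j⟫_ℂ‖ ^ 2 = α)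
    (hα : α < 1) (hαd : α * ((d : ℝ) + 1) ≠ 1) :
    ∃ (n : ℕ) (lam : Fin n → ℝ)
      (A : Fin n → EuclideanSpace ℂ (Fin d) →ₗ[ℂ] EuclideanSpace ℂ (Fin d)) (j0 : Fin n)
      (c0 : Fin n → ℝ), n + N ≤ d ^ 2 + 1 ∧ (∀ j, j ≠ j0 → 0 < lam j) ∧ lam j0 ≠ 0 ∧
      (∀ j, (A j).IsSymmetric) ∧ WBisym lam A ∧
      (∀ c : Fin n → ℝ, ∑ j, (c j : ℂ) • A j = 0 → ∀ j, c j = 0) ∧
      ∑ j, (c0 j : ℂ) • A j = LinearMap.id ∧
      ∀ u v w z : EuclideanSpace ℂ (Fin d),
        ∑ j, ((lam j : ℝ) : ℂ) * (⟪u, A j v⟫_ℂ * ⟪w, A j z⟫_ℂ) +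
          ∑ i, (⟪u, x i⟫_ℂ * ⟪x i, v⟫_ℂ) * (⟪w, x i⟫_ℂ * ⟪x i, z⟫_ℂ) =
        ((1 - α : ℝ) : ℂ) * (⟪u, z⟫_ℂ * ⟪w, v⟫_ℂ + ⟪u, v⟫_ℂ * ⟪w, z⟫_ℂ) := by
  classical
  have hxx : ∀ i, ⟪x i, x i⟫_ℂ = 1 := by
    intro i
    rw [inner_self_eq_norm_sq_to_K, hx1]; simp
  have hd' : (0 : ℝ) < (d : ℝ) := by exact_mod_cast hd
  have hιp : ∀ i, ⟪iv d, rv (x i)⟫_ℝ = 1 := by
    intro i
    have h := iv_rv (x i)
    rw [hxx] at h
    exact_mod_cast h
  have hpp : ∀ i j, ⟪rv (x i), rv (x j)⟫_ℝ = if i = j then 1 else α := by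
    intro i j
    have h := rv_rv (x i) (x j)
    split_ifs with hij
    · subst hij
      rw [hxx, mul_one] at h
      exact_mod_cast h
    · rw [← inner_conj_symm (x j) (x i), RCLike.mul_conj] at h
      have h2 : ((⟪rv (x i), rv (x j)⟫_ℝ : ℝ) : ℂ) = ((‖⟪x i, x j⟫_ℂ‖ ^ 2 : ℝ) : ℂ) := by
        rw [h]; push_cast; rfl
      rw [hx2 i j hij] at h2
      exact Complex.ofReal_injective h2
  obtain ⟨n, lam, q, j0, c0, hn, hpos, hne, hli, hI, hq⟩ :=
    exists_spectral (p := fun i => rv (x i)) hN hα hαd hd' iv_iv hιp hpp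
  have hfin : Module.finrank ℝ (EuclideanSpace ℝ (Fin d × Fin d)) = d ^ 2 := by
    rw [finrank_euclideanSpace, Fintype.card_prod, Fintype.card_fin, sq]
  rw [hfin] at hn
  let A : Fin n → EuclideanSpace ℂ (Fin d) →ₗ[ℂ] EuclideanSpace ℂ (Fin d) :=
    fun j => Matrix.toEuclideanLin (hm (q j))
  have hA : ∀ j, (A j).IsSymmetric := fun j => Matrix.isSymmetric_toEuclideanLin_iff.mpr (hm_herm _)
  have hS : WBisym lam A := by
    intro a b c e
    have h1 := tensor_identity x (1 - α) lam q hq a c b e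
    have h2 := tensor_identity x (1 - α) lam q hq a e b c
    have h3 : ∑ i, (⟪a, x i⟫_ℂ * ⟪x i, c⟫_ℂ) * (⟪b, x i⟫_ℂ * ⟪x i, e⟫_ℂ) =
        ∑ i, (⟪a, x i⟫_ℂ * ⟪x i, e⟫_ℂ) * (⟪b, x i⟫_ℂ * ⟪x i, c⟫_ℂ) :=
      Finset.sum_congr rfl fun i _ => by ring
    linear_combination h1 - h2 - h3
  have hsum : ∀ c : Fin n → ℝ, ∑ j, ((c j : ℝ) : ℂ) • A j =
      Matrix.toEuclideanLin (hm (∑ j, c j • q j)) := by
    intro c
    rw [← hm_sum, map_sum]
    exact Finset.sum_congr rfl fun j _ => (map_smul _ _ _).symm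
  have hlin : ∀ c : Fin n → ℝ, ∑ j, (c j : ℂ) • A j = 0 → ∀ j, c j = 0 := by
    intro c hc
    rw [hsum, LinearEquiv.map_eq_zero_iff] at hc
    exact Fintype.linearIndependent_iff.mp hli c (hm_zero_imp hc)
  have hId : ∑ j, (c0 j : ℂ) • A j = LinearMap.id := by
    rw [hsum, hI, hm_iv]
    exact Matrix.toLpLin_one _
  exact ⟨n, lam, A, j0, c0, hn, hpos, hne, hA, hS, hlin, hId,
    fun u v w z => tensor_identity x (1 - α) lam q hq u v w z⟩

/-- Equiangular lines in `ℂ^d` whose common angle is not the one of a maximal ETF: there are at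
most `d² - d + 1` of them. -/
theorem angle_bound (hd : 0 < d) {N : ℕ} (x : Fin N → EuclideanSpace ℂ (Fin d)) {α : ℝ}
    (hx1 : ∀ i, ‖x i‖ = 1) (hx2 : ∀ i j, i ≠ j → ‖⟪x i, x j⟫_ℂ‖ ^ 2 = α)
    (hα : α < 1) (hαd : α * ((d : ℝ) + 1) ≠ 1) : N + d ≤ d ^ 2 + 1 := by
  rcases Nat.eq_zero_or_pos N with h0 | hN
  · subst h0
    nlinarith
  obtain ⟨n, lam, A, j0, c0, hn, hpos, hne, hA, hS, hlin, hId, -⟩ :=
    exists_tensor hd hN x hx1 hx2 hα hαd
  have h := lorentz hA j0 hpos hne hS hlin c0 hId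
  rw [finrank_euclideanSpace, Fintype.card_fin, Fintype.card_fin] at h
  omega

end Pool.Agent.H103R3
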