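import Mathlib
import Pool.Agent.H103R3.HermGen
import Pool.Agent.H103R3.Commute

set_option autoImplicit false
set_option linter.unusedSectionVars false

namespace Pool.Agent.H103R3

open scoped InnerProductSpace ComplexConjugate

variable {d : ℕ}

/-- Equality case: `d² - d + 1` equiangular lines with an angle different from the one of a maximal
ETF are unbiased to an orthonormal basis. -/
theorem equality_case (hd : 3 ≤ d) {N : ℕ} (hN : N + d = d ^ 2 + 1)
    (x : Fin N → EuclideanSpace ℂ (Fin d)) {α : ℝ}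
    (hx1 : ∀ i, ‖x i‖ = 1) (hx2 : ∀ i j, i ≠ j → ‖⟪x i, x j⟫_ℂ‖ ^ 2 = α)
    (hα : α < 1) (hαd : α * ((d : ℝ) + 1) ≠ 1) :
    α = ((d : ℝ) - 1) / (d : ℝ) ^ 2 ∧
      (∀ u : EuclideanSpace ℂ (Fin d), ∑ i, ‖⟪x i, u⟫_ℂ‖ ^ 2 = ((N : ℝ) / d) * ‖u‖ ^ 2) ∧
      ∃ e : OrthonormalBasis (Fin d) ℂ (EuclideanSpace ℂ (Fin d)),
        ∀ i k, ‖⟪e k, x i⟫_ℂ‖ ^ 2 = 1 / (d : ℝ) := by
  classical
  have hNpos : 0 < N := by nlinarith
  obtain ⟨n, lam, A, j0, c0, hn, hpos, hne, hA, hS, hlin, hId, hten⟩ :=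
    exists_tensor (by omega) hNpos x hx1 hx2 hα hαd
  have hlam : ∀ j, lam j ≠ 0 := by
    intro j
    by_cases hj : j = j0
    · rw [hj]; exact hne
    · exact (hpos j hj).ne'
  have hfr : Module.finrank ℂ (EuclideanSpace ℂ (Fin d)) = d := by
    rw [finrank_euclideanSpace, Fintype.card_fin]
  rcases lorentz_alt hA j0 hpos hne hS hlin c0 hId with ⟨a, ha⟩ | h
  swap
  · rw [hfr, Fintype.card_fin] at h
    omega
  have hcard : d ≤ n := by
    have h1 : Module.finrank ℂ (V A a) ≤ Fintype.card (Fin n) := finrank_range_le_card _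
    rwa [ha, finrank_top, hfr, Fintype.card_fin] at h1
  have hnd : n = d := by omega
  have hli : LinearIndependent ℂ fun j => A j a := by
    apply linearIndependent_of_top_le_span_of_card_eq_finrank
    · rw [← ha]; exact le_rfl
    · rw [Fintype.card_fin, hfr, hnd]
  have hcomm := commute_of_basis hlam hS ha hli c0 hId
  obtain ⟨e, μ, hμ⟩ := exists_joint_basisC A hA hcomm hfr
  have hee : ∀ k l, ⟪e k, e l⟫_ℂ = if k = l then 1 else 0 := orthonormal_iff_ite.mp e.orthonormal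
  have heA : ∀ j k l, ⟪e k, A j (e l)⟫_ℂ = if k = l then μ j l else 0 := by
    intro j k l
    rw [hμ, inner_smul_right, hee]
    split_ifs <;> simp
  -- the weights
  let p : Fin N → Fin d → ℝ := fun i k => ‖⟪e k, x i⟫_ℂ‖ ^ 2
  have hp : ∀ i k, ((p i k : ℝ) : ℂ) = ⟪e k, x i⟫_ℂ * ⟪x i, e k⟫_ℂ := by
    intro i k
    rw [← inner_conj_symm (x i) (e k), RCLike.mul_conj]
    simp only [p]
    push_cast
    rfl
  have hsum1 : ∀ i, ∑ k, p i k = 1 := by
    intro i
    have h1 := e.sum_sq_norm_inner_right (x i)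
    rw [hx1 i] at h1
    simpa using h1
  -- (1)
  have h1 : ∀ k l, k ≠ l → ∑ i, p i k * p i l = 1 - α := by
    intro k l hkl
    have h := hten (e k) (e l) (e l) (e k)
    have h0 : ∑ j, ((lam j : ℝ) : ℂ) * (⟪e k, A j (e l)⟫_ℂ * ⟪e l, A j (e k)⟫_ℂ) = 0 := by
      refine Finset.sum_eq_zero fun j _ => ?_
      rw [heA, if_neg hkl]; ring
    rw [h0, zero_add, hee, hee, hee, hee, if_pos rfl, if_pos rfl, if_neg hkl, if_neg hkl.symm] at h
    have h2 : ((∑ i, p i k * p i l : ℝ) : ℂ) = ((1 - α : ℝ) : ℂ) := by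
      rw [show ((1 - α : ℝ) : ℂ) = ((1 - α : ℝ) : ℂ) * (1 * 1 + 0 * 0) by ring, ← h]
      push_cast
      refine Finset.sum_congr rfl fun i _ => ?_
      rw [hp, hp]; ring
    exact Complex.ofReal_injective h2
  -- (2)
  have h2 : ∀ k l, k ≠ l → ∑ j, ((lam j : ℝ) : ℂ) * (μ j k * μ j l) = 0 := by
    intro k l hkl
    have h := hten (e k) (e k) (e l) (e l)
    have h0 : ∑ j, ((lam j : ℝ) : ℂ) * (⟪e k, A j (e k)⟫_ℂ * ⟪e l, A j (e l)⟫_ℂ) =
        ∑ j, ((lam j : ℝ) : ℂ) * (μ j k * μ j l) := by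
      refine Finset.sum_congr rfl fun j _ => ?_
      rw [heA, heA, if_pos rfl, if_pos rfl]
    have h3 : ∑ i, (⟪e k, x i⟫_ℂ * ⟪x i, e k⟫_ℂ) * (⟪e l, x i⟫_ℂ * ⟪x i, e l⟫_ℂ) =
        ((1 - α : ℝ) : ℂ) := by
      rw [← h1 k l hkl]
      push_cast
      refine Finset.sum_congr rfl fun i _ => ?_
      rw [hp, hp]
    rw [h0, h3, hee, hee, hee, hee, if_pos rfl, if_pos rfl, if_neg hkl, if_neg hkl.symm] at h
    linear_combination h
  have hμreal : ∀ j l, (((μ j l).re : ℝ) : ℂ) = μ j l := by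
    intro j l
    have h3 := self_real hA j (e l)
    rw [heA, if_pos rfl] at h3
    exact h3
  have hν : ∀ l, ∑ j, ((lam j : ℝ) : ℂ) * (μ j l * μ j l) ≠ 0 := by
    intro l h0
    have hC : ∑ j, ((lam j * (μ j l).re : ℝ) : ℂ) • A j = 0 := by
      apply e.toBasis.ext
      intro k
      rw [OrthonormalBasis.coe_toBasis, LinearMap.sum_apply, LinearMap.zero_apply]
      have h3 : ∀ j, (((lam j * (μ j l).re : ℝ) : ℂ) • A j) (e k) =
          (((lam j : ℝ) : ℂ) * (μ j k * μ j l)) • e k := by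
        intro j
        rw [LinearMap.smul_apply, hμ, smul_smul]
        congr 1
        rw [Complex.ofReal_mul, hμreal]
        ring
      rw [Finset.sum_congr rfl fun j _ => h3 j, ← Finset.sum_smul]
      by_cases hkl : k = l
      · rw [hkl, h0, zero_smul]
      · rw [h2 k l hkl, zero_smul]
    have h4 := hlin _ hC
    have h5 : ∀ j, μ j l = 0 := by
      intro j
      rw [← hμreal]
      have := (mul_eq_zero.mp (h4 j)).resolve_left (hlam j)
      rw [this]; simp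
    have h6 : (∑ j, (c0 j : ℂ) • A j) (e l) = e l := by rw [hId, LinearMap.id_apply]
    rw [LinearMap.sum_apply, Finset.sum_eq_zero] at h6
    · have h7 := hee l l
      rw [← h6, inner_zero_left, if_pos rfl] at h7
      exact zero_ne_one h7
    · intro j _
      rw [LinearMap.smul_apply, hμ, h5 j, zero_smul, smul_zero]
  -- (3) `⟪x_i, A_j x_i⟫` does not depend on `i`
  have hτ : ∀ i i' j, ⟪x i, A j (x i)⟫_ℂ = ⟪x i', A j (x i')⟫_ℂ := by
    have hxx : ∀ i, ⟪x i, x i⟫_ℂ = 1 := by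
      intro i
      rw [inner_self_eq_norm_sq_to_K, hx1]; simp
    have hval : ∀ i w z, ∑ j, ((lam j : ℝ) : ℂ) * (⟪x i, A j (x i)⟫_ℂ * ⟪w, A j z⟫_ℂ) =
        ((1 - α : ℝ) : ℂ) * ⟪w, z⟫_ℂ - (α : ℂ) * ∑ l, ⟪w, x l⟫_ℂ * ⟪x l, z⟫_ℂ := by
      intro i w z
      have h := hten (x i) (x i) w z
      rw [hxx] at h
      have h3 : ∀ l, (⟪x i, x l⟫_ℂ * ⟪x l, x i⟫_ℂ) * (⟪w, x l⟫_ℂ * ⟪x l, z⟫_ℂ) =
          (α : ℂ) * (⟪w, x l⟫_ℂ * ⟪x l, z⟫_ℂ) +
            if i = l then (1 - (α : ℂ)) * (⟪w, x l⟫_ℂ * ⟪x l, z⟫_ℂ) else 0 := by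
        intro l
        by_cases hil : i = l
        · subst hil
          rw [hxx, if_pos rfl]; ring
        · have h5 : ⟪x i, x l⟫_ℂ * ⟪x l, x i⟫_ℂ = (α : ℂ) := by
            rw [← inner_conj_symm (x l) (x i), RCLike.mul_conj, ← hx2 i l hil]
            push_cast
            rfl
          rw [h5, if_neg hil, add_zero]
      rw [Finset.sum_congr rfl fun l _ => h3 l, Finset.sum_add_distrib, Finset.sum_ite_eq,
        if_pos (Finset.mem_univ i), ← Finset.mul_sum] at h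
      push_cast at h ⊢
      linear_combination h
    intro i i' j
    have hq : ∀ i j, (((⟪x i, A j (x i)⟫_ℂ).re : ℝ) : ℂ) = ⟪x i, A j (x i)⟫_ℂ :=
      fun i j => self_real hA j (x i)
    have hC : ∑ j, ((lam j * ((⟪x i, A j (x i)⟫_ℂ).re - (⟪x i', A j (x i')⟫_ℂ).re) : ℝ) : ℂ) • A j
        = 0 := by
      apply LinearMap.ext
      intro z
      apply ext_inner_left ℂ
      intro w
      rw [LinearMap.sum_apply, LinearMap.zero_apply, inner_zero_right, inner_sum]
      have h3 : ∀ j, ⟪w, (((lam j * ((⟪x i, A j (x i)⟫_ℂ).re - (⟪x i', A j (x i')⟫_ℂ).re) : ℝ) : ℂ)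
          • A j) z⟫_ℂ = ((lam j : ℝ) : ℂ) * (⟪x i, A j (x i)⟫_ℂ * ⟪w, A j z⟫_ℂ) -
            ((lam j : ℝ) : ℂ) * (⟪x i', A j (x i')⟫_ℂ * ⟪w, A j z⟫_ℂ) := by
        intro j
        rw [LinearMap.smul_apply, inner_smul_right]
        push_cast
        rw [hq, hq]
        ring
      rw [Finset.sum_congr rfl fun j _ => h3 j, Finset.sum_sub_distrib, hval, hval, sub_self]
    have h4 := hlin _ hC j
    have h5 := (mul_eq_zero.mp h4).resolve_left (hlam j)
    rw [← hq i j, ← hq i' j, sub_eq_zero.mp h5]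
  have hexp : ∀ i j, ⟪x i, A j (x i)⟫_ℂ = ∑ k, μ j k * (p i k : ℂ) := by
    intro i j
    have h3 : A j (x i) = ∑ k, (μ j k * ⟪e k, x i⟫_ℂ) • e k := by
      conv_lhs => rw [← e.sum_repr' (x i)]
      rw [map_sum]
      refine Finset.sum_congr rfl fun k _ => ?_
      rw [map_smul, hμ, smul_smul, mul_comm]
    rw [h3, inner_sum]
    refine Finset.sum_congr rfl fun k _ => ?_
    rw [inner_smul_right, hp]
    ring
  have hconst : ∀ i i' l, p i l = p i' l := by
    intro i i' l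
    have h3 : ∀ j, ∑ k, μ j k * ((p i k : ℂ) - (p i' k : ℂ)) = 0 := by
      intro j
      have := hτ i i' j
      rw [hexp, hexp] at this
      simp only [mul_sub, Finset.sum_sub_distrib]
      rw [this, sub_self]
    have h4 : ∑ j, (((lam j : ℝ) : ℂ) * μ j l) * ∑ k, μ j k * ((p i k : ℂ) - (p i' k : ℂ)) = 0 :=
      Finset.sum_eq_zero fun j _ => by rw [h3 j, mul_zero]
    have h5 : ∑ j, (((lam j : ℝ) : ℂ) * μ j l) * ∑ k, μ j k * ((p i k : ℂ) - (p i' k : ℂ)) =
        ∑ k, ((p i k : ℂ) - (p i' k : ℂ)) * ∑ j, ((lam j : ℝ) : ℂ) * (μ j k * μ j l) := by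
      simp only [Finset.mul_sum]
      rw [Finset.sum_comm]
      refine Finset.sum_congr rfl fun k _ => Finset.sum_congr rfl fun j _ => ?_
      ring
    have h6 : ∑ k, ((p i k : ℂ) - (p i' k : ℂ)) * ∑ j, ((lam j : ℝ) : ℂ) * (μ j k * μ j l) =
        ((p i l : ℂ) - (p i' l : ℂ)) * ∑ j, ((lam j : ℝ) : ℂ) * (μ j l * μ j l) := by
      rw [Finset.sum_eq_single l]
      · intro k _ hkl
        rw [h2 k l hkl, mul_zero]
      · intro h; exact absurd (Finset.mem_univ l) h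
    rw [h5, h6] at h4
    have h7 := (mul_eq_zero.mp h4).resolve_right (hν l)
    have h8 : (p i l : ℂ) = (p i' l : ℂ) := sub_eq_zero.mp h7
    exact_mod_cast h8
  -- (4) the weights are all `1/d`
  let i0 : Fin N := ⟨0, hNpos⟩
  set c : Fin d → ℝ := p i0 with hc
  have hNc : ∀ k l, k ≠ l → (N : ℝ) * (c k * c l) = 1 - α := by
    intro k l hkl
    rw [← h1 k l hkl]
    have h3 : ∀ i, p i k * p i l = c k * c l := fun i => by
      rw [hconst i i0 k, hconst i i0 l]
    rw [Finset.sum_congr rfl fun i _ => h3 i, Finset.sum_const, Finset.card_univ, Fintype.card_fin,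
      nsmul_eq_mul]
  have hβ : 0 < 1 - α := by linarith
  have hN' : (0 : ℝ) < N := by exact_mod_cast hNpos
  have hceq : ∀ l m, c l = c m := by
    intro l m
    by_cases hlm : l = m
    · rw [hlm]
    obtain ⟨k, hkl, hkm⟩ : ∃ k : Fin d, k ≠ l ∧ k ≠ m := by
      have h3 : ({l, m} : Finset (Fin d)).card < (Finset.univ : Finset (Fin d)).card := by
        rw [Finset.card_univ, Fintype.card_fin]
        exact lt_of_le_of_lt Finset.card_le_two (by omega)
      obtain ⟨k, -, hk⟩ := Finset.exists_mem_notMem_of_card_lt_card h3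
      simp only [Finset.mem_insert, Finset.mem_singleton, not_or] at hk
      exact ⟨k, hk.1, hk.2⟩
    have e1 := hNc k l hkl
    have e2 := hNc k m hkm
    have hck : c k ≠ 0 := by
      intro h0
      rw [h0] at e1
      simp at e1
      linarith
    have e3 : (N : ℝ) * c k * (c l - c m) = 0 := by linear_combination e1 - e2
    have e4 := (mul_eq_zero.mp e3).resolve_left (mul_ne_zero hN'.ne' hck)
    linarith
  have hd' : (0 : ℝ) < d := by exact_mod_cast (by omega : 0 < d)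
  have hcval : ∀ k, c k = 1 / (d : ℝ) := by
    intro k
    have h3 := hsum1 i0
    have h4 : ∑ l, p i0 l = (d : ℝ) * c k := by
      rw [Finset.sum_congr rfl fun l _ => hceq l k, Finset.sum_const, Finset.card_univ,
        Fintype.card_fin, nsmul_eq_mul]
    rw [h4] at h3
    field_simp
    linarith
  -- (5) tightness
  have hoff : ∀ k l, ∑ i, ⟪e k, x i⟫_ℂ * ⟪x i, e l⟫_ℂ = if k = l then ((N : ℂ) / d) else 0 := by
    intro k l
    split_ifs with hkl
    · subst hkl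
      rw [Finset.sum_congr rfl fun i _ => (hp i k).symm]
      have h3 : ∀ i, p i k = 1 / (d : ℝ) := fun i => by rw [← hcval k]; exact hconst i i0 k
      rw [Finset.sum_congr rfl fun i _ => by rw [h3 i], Finset.sum_const, Finset.card_univ,
        Fintype.card_fin, nsmul_eq_mul]
      push_cast
      ring
    · have h3 : ∑ m, (∑ j, ((lam j : ℝ) : ℂ) * (⟪e k, A j (e l)⟫_ℂ * ⟪e m, A j (e m)⟫_ℂ) +
          ∑ i, (⟪e k, x i⟫_ℂ * ⟪x i, e l⟫_ℂ) * (⟪e m, x i⟫_ℂ * ⟪x i, e m⟫_ℂ)) =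
          ∑ m, ((1 - α : ℝ) : ℂ) * (⟪e k, e m⟫_ℂ * ⟪e m, e l⟫_ℂ + ⟪e k, e l⟫_ℂ * ⟪e m, e m⟫_ℂ) :=
        Finset.sum_congr rfl fun m _ => hten (e k) (e l) (e m) (e m)
      have h4 : ∀ m, ((1 - α : ℝ) : ℂ) * (⟪e k, e m⟫_ℂ * ⟪e m, e l⟫_ℂ +
          ⟪e k, e l⟫_ℂ * ⟪e m, e m⟫_ℂ) = 0 := by
        intro m
        rw [hee k l, if_neg hkl, hee k m, hee m l]
        by_cases h5 : k = m
        · subst h5
          rw [if_neg hkl]; ring
        · rw [if_neg h5]; ring
      rw [Finset.sum_congr rfl fun m _ => h4 m, Finset.sum_const_zero] at h3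
      have h5 : ∀ m, ∑ j, ((lam j : ℝ) : ℂ) * (⟪e k, A j (e l)⟫_ℂ * ⟪e m, A j (e m)⟫_ℂ) = 0 := by
        intro m
        refine Finset.sum_eq_zero fun j _ => ?_
        rw [heA, if_neg hkl]; ring
      simp only [h5, zero_add] at h3
      rw [Finset.sum_comm] at h3
      rw [← h3]
      refine Finset.sum_congr rfl fun i _ => ?_
      rw [← Finset.mul_sum]
      have h6 : ∑ m, ⟪e m, x i⟫_ℂ * ⟪x i, e m⟫_ℂ = 1 := by
        rw [Finset.sum_congr rfl fun m _ => (hp i m).symm, ← Complex.ofReal_sum, hsum1]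
        simp
      rw [h6, mul_one]
  have htight : ∀ u : EuclideanSpace ℂ (Fin d),
      ∑ i, ‖⟪x i, u⟫_ℂ‖ ^ 2 = ((N : ℝ) / d) * ‖u‖ ^ 2 := by
    -- the frame operator
    let S : EuclideanSpace ℂ (Fin d) →ₗ[ℂ] EuclideanSpace ℂ (Fin d) :=
      ∑ i, (LinearMap.toSpanSingleton ℂ (EuclideanSpace ℂ (Fin d)) (x i)) ∘ₗ
        ((innerSL ℂ (x i)).toLinearMap)
    have hSapp : ∀ u, S u = ∑ i, ⟪x i, u⟫_ℂ • x i := by
      intro u
      simp only [S, LinearMap.sum_apply, LinearMap.comp_apply, LinearMap.toSpanSingleton_apply]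
      rfl
    have hSeq : S = ((N : ℂ) / d) • LinearMap.id := by
      apply e.toBasis.ext
      intro l
      rw [OrthonormalBasis.coe_toBasis, LinearMap.smul_apply, LinearMap.id_apply]
      rw [← e.sum_repr' (S (e l))]
      have h3 : ∀ k, ⟪e k, S (e l)⟫_ℂ = if k = l then ((N : ℂ) / d) else 0 := by
        intro k
        rw [hSapp, inner_sum, ← hoff k l]
        refine Finset.sum_congr rfl fun i _ => ?_
        rw [inner_smul_right]; ring
      simp only [h3, ite_smul, zero_smul, Finset.sum_ite_eq', Finset.mem_univ, if_true]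
    intro u
    have h3 : ⟪u, S u⟫_ℂ = ((∑ i, ‖⟪x i, u⟫_ℂ‖ ^ 2 : ℝ) : ℂ) := by
      rw [hSapp, inner_sum]
      push_cast
      refine Finset.sum_congr rfl fun i _ => ?_
      rw [inner_smul_right, ← inner_conj_symm u (x i), RCLike.mul_conj]
      rfl
    rw [hSeq, LinearMap.smul_apply, LinearMap.id_apply, inner_smul_right,
      inner_self_eq_norm_sq_to_K] at h3
    have h4 : (((N : ℝ) / d * ‖u‖ ^ 2 : ℝ) : ℂ) = ((∑ i, ‖⟪x i, u⟫_ℂ‖ ^ 2 : ℝ) : ℂ) := by
      rw [← h3]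
      push_cast
      rfl
    exact (Complex.ofReal_injective h4).symm
  refine ⟨?_, htight, e, fun i k => ?_⟩
  · have h3 := hNc ⟨0, by omega⟩ ⟨1, by omega⟩ (by simp)
    rw [hcval, hcval] at h3
    have h4 : (N : ℝ) = (d : ℝ) ^ 2 - d + 1 := by
      have : (N : ℝ) + d = (d : ℝ) ^ 2 + 1 := by exact_mod_cast hN
      linarith
    rw [h4] at h3
    field_simp at h3 ⊢
    linarith
  · rw [← hcval k]
    exact hconst i i0 k

end Pool.Agent.H103R3
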