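import Mathlib
import Pool.Agent.H103R3.HermGen

set_option autoImplicit false
set_option linter.unusedSectionVars false

namespace Pool.Agent.H103R3

open scoped InnerProductSpace ComplexConjugate

variable {d N : ℕ}

theorem inner_rv (x y : EuclideanSpace ℂ (Fin d)) : ⟪rv x, rv y⟫_ℝ = ‖⟪x, y⟫_ℂ‖ ^ 2 := by
  have h := rv_rv x y
  rw [← inner_conj_symm y x, RCLike.mul_conj] at h
  have h2 : ((⟪rv x, rv y⟫_ℝ : ℝ) : ℂ) = ((‖⟪x, y⟫_ℂ‖ ^ 2 : ℝ) : ℂ) := by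
    rw [h]; push_cast; rfl
  exact Complex.ofReal_injective h2

theorem inner_iv (x : EuclideanSpace ℂ (Fin d)) : ⟪iv d, rv x⟫_ℝ = ‖x‖ ^ 2 := by
  have h := iv_rv x
  rw [inner_self_eq_norm_sq_to_K] at h
  have h2 : ((⟪iv d, rv x⟫_ℝ : ℝ) : ℂ) = ((‖x‖ ^ 2 : ℝ) : ℂ) := by
    rw [h]; push_cast; rfl
  exact Complex.ofReal_injective h2

/-- frame potential bound and its case of equality. -/
theorem frame_potential (hd : 0 < d) (x : Fin N → EuclideanSpace ℂ (Fin d)) (hx : ∀ i, ‖x i‖ = 1) :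
    (N : ℝ) ^ 2 / d ≤ ∑ i, ∑ j, ‖⟪x i, x j⟫_ℂ‖ ^ 2 ∧
    (∑ i, ∑ j, ‖⟪x i, x j⟫_ℂ‖ ^ 2 = (N : ℝ) ^ 2 / d →
      ∀ u : EuclideanSpace ℂ (Fin d), ∑ i, ‖⟪x i, u⟫_ℂ‖ ^ 2 = ((N : ℝ) / d) * ‖u‖ ^ 2) := by
  have hd' : (0 : ℝ) < d := by exact_mod_cast hd
  set s : EuclideanSpace ℝ (Fin d × Fin d) := ∑ i, rv (x i) with hs
  have h1 : ⟪s, s⟫_ℝ = ∑ i, ∑ j, ‖⟪x i, x j⟫_ℂ‖ ^ 2 := by
    rw [hs, sum_inner]
    refine Finset.sum_congr rfl fun i _ => ?_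
    rw [inner_sum]
    exact Finset.sum_congr rfl fun j _ => inner_rv _ _
  have h2 : ⟪iv d, s⟫_ℝ = N := by
    rw [hs, inner_sum]
    have : ∀ i, ⟪iv d, rv (x i)⟫_ℝ = 1 := fun i => by rw [inner_iv, hx]; norm_num
    rw [Finset.sum_congr rfl fun i _ => this i]
    simp
  have h3 : ⟪s - ((N : ℝ) / d) • iv d, s - ((N : ℝ) / d) • iv d⟫_ℝ = ⟪s, s⟫_ℝ - (N : ℝ) ^ 2 / d := by
    simp only [inner_sub_left, inner_sub_right, inner_smul_left, inner_smul_right, conj_trivial,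
      iv_iv, h2, real_inner_comm (iv d) s]
    field_simp
    ring
  constructor
  · have h4 : 0 ≤ ⟪s - ((N : ℝ) / d) • iv d, s - ((N : ℝ) / d) • iv d⟫_ℝ := real_inner_self_nonneg
    rw [h3, h1] at h4
    linarith
  · intro h u
    rw [h1, h, sub_self] at h3
    have h4 : s = ((N : ℝ) / d) • iv d := sub_eq_zero.mp (inner_self_eq_zero.mp h3)
    have h5 : ⟪s, rv u⟫_ℝ = ∑ i, ‖⟪x i, u⟫_ℂ‖ ^ 2 := by
      rw [hs, sum_inner]
      exact Finset.sum_congr rfl fun i _ => inner_rv _ _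
    rw [← h5, h4, inner_smul_left, inner_iv]
    simp

/-- The Welch bound and its case of equality. -/
theorem welch (hd : 0 < d) (hN : 2 ≤ N) (x : Fin N → EuclideanSpace ℂ (Fin d))
    (hx : ∀ i, ‖x i‖ = 1) {M : ℝ} (hM : ∀ i j, i ≠ j → ‖⟪x i, x j⟫_ℂ‖ ≤ M)
    (hMW : M ≤ Real.sqrt (((N : ℝ) - d) / (d * ((N : ℝ) - 1)))) (hdN : d ≤ N) :
    (∀ i j, i ≠ j → ‖⟪x i, x j⟫_ℂ‖ = Real.sqrt (((N : ℝ) - d) / (d * ((N : ℝ) - 1)))) ∧
      ∀ u : EuclideanSpace ℂ (Fin d), ∑ i, ‖⟪x i, u⟫_ℂ‖ ^ 2 = ((N : ℝ) / d) * ‖u‖ ^ 2 := by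
  classical
  have hd' : (0 : ℝ) < d := by exact_mod_cast hd
  have hN' : (2 : ℝ) ≤ N := by exact_mod_cast hN
  have hdN' : (d : ℝ) ≤ N := by exact_mod_cast hdN
  set w2 : ℝ := ((N : ℝ) - d) / (d * ((N : ℝ) - 1)) with hw2
  have hw0 : 0 ≤ w2 := div_nonneg (by linarith) (by nlinarith)
  obtain ⟨h1, h2⟩ := frame_potential hd x hx
  -- upper bound for each term
  have hle : ∀ i j, i ≠ j → ‖⟪x i, x j⟫_ℂ‖ ^ 2 ≤ w2 := by
    intro i j hij
    have h3 := (hM i j hij).trans hMW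
    calc ‖⟪x i, x j⟫_ℂ‖ ^ 2 ≤ (Real.sqrt w2) ^ 2 := pow_le_pow_left₀ (norm_nonneg _) h3 2
      _ = w2 := Real.sq_sqrt hw0
  have hdiag : ∀ i, ‖⟪x i, x i⟫_ℂ‖ ^ 2 = 1 := by
    intro i
    rw [inner_self_eq_norm_sq_to_K, hx]; simp
  have hterm : ∀ i j, ‖⟪x i, x j⟫_ℂ‖ ^ 2 ≤ (if i = j then 1 - w2 else 0) + w2 := by
    intro i j
    split_ifs with hij
    · subst hij; rw [hdiag]; linarith
    · rw [zero_add]; exact hle i j hij
  have htot : ∑ i : Fin N, ∑ j : Fin N, ((if i = j then 1 - w2 else 0) + w2) = (N : ℝ) ^ 2 / d := by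
    simp only [Finset.sum_add_distrib, Finset.sum_ite_eq, Finset.mem_univ, if_true,
      Finset.sum_const, Finset.card_univ, Fintype.card_fin, nsmul_eq_mul]
    rw [hw2]
    have : (N : ℝ) - 1 ≠ 0 := by linarith
    field_simp
    ring
  have heq : ∑ i, ∑ j, ‖⟪x i, x j⟫_ℂ‖ ^ 2 = (N : ℝ) ^ 2 / d := by
    apply le_antisymm _ h1
    rw [← htot]
    exact Finset.sum_le_sum fun i _ => Finset.sum_le_sum fun j _ => hterm i j
  refine ⟨fun i j hij => ?_, h2 heq⟩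
  have hall : ∀ i ∈ Finset.univ, ∑ j, ‖⟪x i, x j⟫_ℂ‖ ^ 2 =
      ∑ j : Fin N, ((if i = j then 1 - w2 else 0) + w2) := by
    apply (Finset.sum_eq_sum_iff_of_le (fun i _ => Finset.sum_le_sum fun j _ => hterm i j)).mp
    rw [heq, htot]
  have hall2 := (Finset.sum_eq_sum_iff_of_le (fun j _ => hterm i j)).mp (hall i (Finset.mem_univ i))
    j (Finset.mem_univ j)
  rw [if_neg hij, zero_add] at hall2
  rw [← hall2, Real.sqrt_sq (norm_nonneg _)]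

/-- no ETF with `d² - d + 1 < N < d²`. -/
theorem etf_gap (hd : 0 < d) (x : Fin N → EuclideanSpace ℂ (Fin d)) (hx : ∀ i, ‖x i‖ = 1)
    (hx2 : ∀ i j, i ≠ j → ‖⟪x i, x j⟫_ℂ‖ ^ 2 = ((N : ℝ) - d) / (d * ((N : ℝ) - 1)))
    (h1 : d ^ 2 + 1 < N + d) (h2 : N < d ^ 2) : False := by
  have hd' : (0 : ℝ) < d := by exact_mod_cast hd
  have hd2 : 2 ≤ d := by nlinarith
  have hdN : d < N := by nlinarith
  have hdN' : (d : ℝ) < N := by exact_mod_cast hdN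
  have h2' : (N : ℝ) < (d : ℝ) ^ 2 := by exact_mod_cast h2
  have hd2' : (2 : ℝ) ≤ d := by exact_mod_cast hd2
  have hpos : (0 : ℝ) < d * ((N : ℝ) - 1) := by nlinarith
  have hα : ((N : ℝ) - d) / (d * ((N : ℝ) - 1)) < 1 := by
    rw [div_lt_one hpos]
    nlinarith
  have hαd : ((N : ℝ) - d) / (d * ((N : ℝ) - 1)) * ((d : ℝ) + 1) ≠ 1 := by
    intro h
    rw [div_mul_eq_mul_div, div_eq_one_iff_eq hpos.ne'] at h
    have : (N : ℝ) = (d : ℝ) ^ 2 := by linarith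
    linarith
  have h := angle_bound hd x hx hx2 hα hαd
  omega

/-- Naimark complement of an equiangular tight frame. -/
theorem naimark (hd : 0 < d) (hdN : d < N) (x : Fin N → EuclideanSpace ℂ (Fin d))
    (hx : ∀ i, ‖x i‖ = 1)
    (hx2 : ∀ i j, i ≠ j → ‖⟪x i, x j⟫_ℂ‖ ^ 2 = ((N : ℝ) - d) / (d * ((N : ℝ) - 1)))
    (hx3 : ∀ u : EuclideanSpace ℂ (Fin d), ∑ i, ‖⟪x i, u⟫_ℂ‖ ^ 2 = ((N : ℝ) / d) * ‖u‖ ^ 2) :
    ∃ y : Fin N → EuclideanSpace ℂ (Fin (N - d)), (∀ i, ‖y i‖ = 1) ∧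
      ∀ i j, i ≠ j → ‖⟪y i, y j⟫_ℂ‖ ^ 2 =
        ((N : ℝ) - (N - d : ℕ)) / ((N - d : ℕ) * ((N : ℝ) - 1)) := by
  classical
  have hd' : (0 : ℝ) < d := by exact_mod_cast hd
  have hdN' : (d : ℝ) < N := by exact_mod_cast hdN
  have hN' : (0 : ℝ) < N := by linarith
  set κ : ℝ := Real.sqrt ((d : ℝ) / N) with hκ
  have hκ2 : κ ^ 2 = (d : ℝ) / N := Real.sq_sqrt (by positivity)
  -- analysis operator
  let Φ : EuclideanSpace ℂ (Fin d) →ₗ[ℂ] EuclideanSpace ℂ (Fin N) :=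
    { toFun := fun v => WithLp.toLp 2 fun i => (κ : ℂ) * ⟪x i, v⟫_ℂ
      map_add' := by
        intro u v
        ext i
        simp [inner_add_right, mul_add]
      map_smul' := by
        intro c v
        ext i
        simp [inner_smul_right]
        ring }
  have hΦ : ∀ v i, Φ v i = (κ : ℂ) * ⟪x i, v⟫_ℂ := fun v i => rfl
  have hΦn : ∀ v, ‖Φ v‖ = ‖v‖ := by
    intro v
    have h1 : ‖Φ v‖ ^ 2 = ‖v‖ ^ 2 := by
      rw [EuclideanSpace.norm_sq_eq]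
      have h2 : ∀ i, ‖Φ v i‖ ^ 2 = κ ^ 2 * ‖⟪x i, v⟫_ℂ‖ ^ 2 := by
        intro i
        rw [hΦ, norm_mul, mul_pow, Complex.norm_real, Real.norm_eq_abs, sq_abs]
      rw [Finset.sum_congr rfl fun i _ => h2 i, ← Finset.mul_sum, hx3, hκ2]
      field_simp
    exact (pow_left_inj₀ (norm_nonneg _) (norm_nonneg _) (two_ne_zero)).mp h1
  let Φi : EuclideanSpace ℂ (Fin d) →ₗᵢ[ℂ] EuclideanSpace ℂ (Fin N) := ⟨Φ, hΦn⟩
  have hΦin : ∀ u v, ⟪Φ u, Φ v⟫_ℂ = ⟪u, v⟫_ℂ := fun u v => Φi.inner_map_map u v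
  set W := LinearMap.range Φ with hW
  have hWf : Module.finrank ℂ W = d := by
    rw [hW, LinearMap.finrank_range_of_inj Φi.injective, finrank_euclideanSpace, Fintype.card_fin]
  have hWo : Module.finrank ℂ Wᗮ = N - d := by
    have h1 := Submodule.finrank_add_finrank_orthogonal W
    rw [hWf, finrank_euclideanSpace, Fintype.card_fin] at h1
    omega
  -- the complement vectors
  let e : Fin N → EuclideanSpace ℂ (Fin N) := fun i => EuclideanSpace.single i (1 : ℂ)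
  let w : Fin N → EuclideanSpace ℂ (Fin N) := fun i => Φ ((κ : ℂ) • x i)
  have hew : ∀ i v, ⟪Φ v, e i⟫_ℂ = (κ : ℂ) * ⟪v, x i⟫_ℂ := by
    intro i v
    rw [EuclideanSpace.inner_single_right, hΦ]
    simp
  have hzmem : ∀ i, e i - w i ∈ Wᗮ := by
    intro i
    rw [Submodule.mem_orthogonal]
    rintro _ ⟨v, rfl⟩
    rw [inner_sub_right, hew, hΦin, inner_smul_right, sub_self]
  let z : Fin N → Wᗮ := fun i => ⟨e i - w i, hzmem i⟩
  have hzz : ∀ i j, ⟪z i, z j⟫_ℂ = (if i = j then 1 else 0) - ((d : ℂ) / N) * ⟪x i, x j⟫_ℂ := by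
    intro i j
    rw [Submodule.coe_inner]
    show ⟪e i - w i, e j - w j⟫_ℂ = _
    have h1 : ⟪w i, e j - w j⟫_ℂ = 0 := (Submodule.mem_orthogonal _ _).mp (hzmem j) _ ⟨_, rfl⟩
    rw [inner_sub_left, h1, sub_zero, inner_sub_right]
    have h2 : ⟪e i, e j⟫_ℂ = if i = j then 1 else 0 := by
      simp only [e]
      rw [EuclideanSpace.inner_single_left]
      simp [Pi.single_apply]
    have h3 : ⟪e i, w j⟫_ℂ = ((d : ℂ) / N) * ⟪x i, x j⟫_ℂ := by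
      simp only [e, w]
      rw [EuclideanSpace.inner_single_left, hΦ, inner_smul_right, map_one, one_mul, ← mul_assoc]
      congr 1
      have : ((κ ^ 2 : ℝ) : ℂ) = (((d : ℝ) / N : ℝ) : ℂ) := by rw [hκ2]
      push_cast at this
      rw [← this]; ring
    rw [h2, h3]
  let iso := ((stdOrthonormalBasis ℂ Wᗮ).reindex (finCongr hWo)).repr
  set κ' : ℝ := Real.sqrt ((N : ℝ) / ((N : ℝ) - d)) with hκ'
  have hκ'2 : κ' ^ 2 = (N : ℝ) / ((N : ℝ) - d) := Real.sq_sqrt (by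
    apply div_nonneg hN'.le; linarith)
  let y : Fin N → EuclideanSpace ℂ (Fin (N - d)) := fun i => (κ' : ℂ) • iso (z i)
  have hyy : ∀ i j, ⟪y i, y j⟫_ℂ = ((κ' ^ 2 : ℝ) : ℂ) * ⟪z i, z j⟫_ℂ := by
    intro i j
    simp only [y]
    rw [inner_smul_left, inner_smul_right, iso.inner_map_map, Complex.conj_ofReal]
    push_cast
    ring
  have hNd : ((N - d : ℕ) : ℝ) = (N : ℝ) - d := by
    rw [Nat.cast_sub hdN.le]
  have hne : (N : ℝ) - d ≠ 0 := by linarith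
  have hxx : ∀ i, ⟪x i, x i⟫_ℂ = 1 := by
    intro i
    rw [inner_self_eq_norm_sq_to_K, hx]; simp
  refine ⟨y, fun i => ?_, fun i j hij => ?_⟩
  · have h1 := hyy i i
    rw [hzz, if_pos rfl, hxx, hκ'2, inner_self_eq_norm_sq_to_K] at h1
    have h2 : ((‖y i‖ ^ 2 : ℝ) : ℂ) = ((1 : ℝ) : ℂ) := by
      have h3 : ((‖y i‖ ^ 2 : ℝ) : ℂ) = (‖y i‖ : ℂ) ^ 2 := by push_cast; rfl
      rw [h3]
      refine Eq.trans h1 ?_
      have h4 : (1 : ℂ) - (d : ℂ) / N * 1 = (((N - d) / N : ℝ) : ℂ) := by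
        push_cast
        have : (N : ℂ) ≠ 0 := by exact_mod_cast hN'.ne'
        field_simp
      rw [h4, ← Complex.ofReal_mul]
      congr 1
      field_simp
    have h3 : ‖y i‖ ^ 2 = 1 := Complex.ofReal_injective h2
    have h4 : ‖y i‖ ^ 2 = 1 ^ 2 := by rw [h3]; norm_num
    exact (pow_left_inj₀ (norm_nonneg _) (by norm_num) (two_ne_zero)).mp h4
  · rw [hyy, hzz, if_neg hij, zero_sub, norm_mul, norm_neg, norm_mul, mul_pow, mul_pow,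
      hx2 i j hij, hκ'2, hNd]
    have h1 : ‖(((N : ℝ) / ((N : ℝ) - d) : ℝ) : ℂ)‖ = (N : ℝ) / ((N : ℝ) - d) := by
      rw [Complex.norm_real, Real.norm_eq_abs, abs_of_nonneg]
      apply div_nonneg hN'.le; linarith
    have h2 : ‖((d : ℂ) / (N : ℂ))‖ = (d : ℝ) / N := by
      rw [norm_div, Complex.norm_natCast, Complex.norm_natCast]
    rw [h1, h2]
    have h3 : (N : ℝ) - 1 ≠ 0 := by
      have : (1 : ℝ) ≤ d := by exact_mod_cast hd
      linarith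
    field_simp
    ring

end Pool.Agent.H103R3
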