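import Mathlib
import Pool.Agent.H103R3.Welch
import Pool.Agent.H103R3.Equality

set_option autoImplicit false
set_option linter.unusedSectionVars false

namespace Pool.Agent.H103R3.Flat

open scoped InnerProductSpace ComplexConjugate
open Pool.Agent.H103R3

variable {d N : ℕ}

/-- Compactness: approximate minimisers give a minimiser. -/
theorem exists_limit (w : ℝ)
    (h : ∀ n : ℕ, ∃ g : Fin N → EuclideanSpace ℂ (Fin d), (∀ k, ‖g k‖ = 1) ∧
      ∀ k l, k ≠ l → ‖⟪g k, g l⟫_ℂ‖ ≤ w + 1 / ((n : ℝ) + 1)) :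
    ∃ g : Fin N → EuclideanSpace ℂ (Fin d), (∀ k, ‖g k‖ = 1) ∧
      ∀ k l, k ≠ l → ‖⟪g k, g l⟫_ℂ‖ ≤ w := by
  classical
  let C : ℕ → Set (Fin N → EuclideanSpace ℂ (Fin d)) := fun n =>
    {g | (∀ k, ‖g k‖ = 1) ∧ ∀ k l, k ≠ l → ‖inner ℂ (g k) (g l)‖ ≤ w + 1 / ((n : ℝ) + 1)}
  have hCclosed : ∀ n, IsClosed (C n) := by
    intro n
    have h1 : C n = (⋂ k, {g : Fin N → EuclideanSpace ℂ (Fin d) | ‖g k‖ = 1}) ∩
        ⋂ k, ⋂ l, ⋂ (_ : k ≠ l), {g : Fin N → EuclideanSpace ℂ (Fin d) |
          ‖inner ℂ (g k) (g l)‖ ≤ w + 1 / ((n : ℝ) + 1)} := by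
      ext g
      simp only [C, Set.mem_setOf_eq, Set.mem_inter_iff, Set.mem_iInter]
    rw [h1]
    refine IsClosed.inter (isClosed_iInter fun k => ?_) (isClosed_iInter fun k =>
      isClosed_iInter fun l => isClosed_iInter fun _ => ?_)
    · exact isClosed_eq ((continuous_apply k).norm) continuous_const
    · exact isClosed_le (((continuous_apply k).inner (continuous_apply l)).norm) continuous_const
  have hKcomp : IsCompact (Set.univ.pi fun _ : Fin N =>
      Metric.sphere (0 : EuclideanSpace ℂ (Fin d)) 1) :=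
    isCompact_univ_pi fun _ => isCompact_sphere _ _
  have hC0 : IsCompact (C 0) := by
    apply hKcomp.of_isClosed_subset (hCclosed 0)
    intro g hg k _
    simpa using hg.1 k
  have hmono : ∀ n, C (n + 1) ⊆ C n := by
    intro n g hg
    refine ⟨hg.1, fun k l hkl => (hg.2 k l hkl).trans ?_⟩
    have h1 : 1 / (((n + 1 : ℕ) : ℝ) + 1) ≤ 1 / ((n : ℝ) + 1) := by
      apply one_div_le_one_div_of_le (by positivity)
      push_cast
      linarith
    linarith
  obtain ⟨g, hg⟩ := IsCompact.nonempty_iInter_of_sequence_nonempty_isCompact_isClosed C hmono h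
    hC0 hCclosed
  rw [Set.mem_iInter] at hg
  refine ⟨g, (hg 0).1, fun k l hkl => ?_⟩
  apply le_of_forall_pos_le_add
  intro ε hε
  obtain ⟨n, hn⟩ := exists_nat_one_div_lt hε
  have := (hg n).2 k l hkl
  linarith

/-- The row index of the Hadamard matrix. -/
abbrev Row (d : ℕ) := Option {p : Fin d × Fin d // p.1 ≠ p.2}

/-- The matrix with rows `1` and `r_k conj(r_l)`. -/
noncomputable def HM (r : Fin d → Fin N → ℂ) : Matrix (Row d) (Fin N) ℂ :=
  Matrix.of fun p i => match p with
    | none => 1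
    | some p => r p.1.1 i * conj (r p.1.2 i)

theorem card_row (hd : 1 ≤ d) : Fintype.card (Row d) = d ^ 2 - d + 1 := by
  rw [Fintype.card_option, Fintype.card_subtype_compl, Fintype.card_prod, Fintype.card_fin]
  have h1 : Fintype.card {p : Fin d × Fin d // p.1 = p.2} = d := by
    have e : {p : Fin d × Fin d // p.1 = p.2} ≃ Fin d :=
      { toFun := fun p => p.1.1
        invFun := fun k => ⟨(k, k), rfl⟩
        left_inv := by
          rintro ⟨⟨a, b⟩, h⟩
          simp only at h
          subst h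
          rfl
        right_inv := fun k => rfl }
    rw [Fintype.card_congr e, Fintype.card_fin]
  rw [h1, sq]

/-- The conditions on `r`. -/
def Good (r : Fin d → Fin N → ℂ) : Prop :=
  (∀ k l, k ≠ l → ∑ i, r k i * conj (r l i) = 0) ∧
    ∀ k l k' l', k ≠ l → k' ≠ l' → (k, l) ≠ (k', l') →
      ∑ i, (r k i * conj (r l i)) * conj (r k' i * conj (r l' i)) = 0

theorem conj_mul_self_of_norm {z : ℂ} (h : ‖z‖ = 1) : z * conj z = 1 := by
  rw [Complex.mul_conj, Complex.normSq_eq_norm_sq, h]
  simp

theorem good_iff (r : Fin d → Fin N → ℂ) (hr : ∀ k i, ‖r k i‖ = 1) :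
    Good r ↔ HM r * (HM r).conjTranspose = (N : ℂ) • (1 : Matrix (Row d) (Row d) ℂ) := by
  constructor
  · rintro ⟨h1, h2⟩
    ext p q
    rw [Matrix.mul_apply, Matrix.smul_apply, Matrix.one_apply, smul_eq_mul]
    simp only [Matrix.conjTranspose_apply, RCLike.star_def]
    rcases p with _ | ⟨⟨k, l⟩, hkl⟩ <;> rcases q with _ | ⟨⟨k', l'⟩, hkl'⟩
    · simp [HM]
    · rw [if_neg (by simp), mul_zero]
      have h := congrArg conj (h1 k' l' hkl')
      rw [map_sum, map_zero] at h
      rw [← h]
      refine Finset.sum_congr rfl fun i _ => ?_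
      simp [HM]
    · rw [if_neg (by simp), mul_zero, ← h1 k l hkl]
      refine Finset.sum_congr rfl fun i _ => ?_
      simp [HM]
    · by_cases hpq : (k, l) = (k', l')
      · obtain ⟨rfl, rfl⟩ := Prod.mk.inj hpq
        rw [if_pos rfl, mul_one]
        have h3 : ∀ i, HM r (some ⟨(k, l), hkl⟩) i * conj (HM r (some ⟨(k, l), hkl'⟩) i) = 1 := by
          intro i
          simp only [HM, Matrix.of_apply, map_mul, Complex.conj_conj]
          have e1 := conj_mul_self_of_norm (hr k i)
          have e2 := conj_mul_self_of_norm (hr l i)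
          calc r k i * conj (r l i) * (conj (r k i) * r l i) =
              (r k i * conj (r k i)) * (r l i * conj (r l i)) := by ring
            _ = 1 := by rw [e1, e2, one_mul]
        rw [Finset.sum_congr rfl fun i _ => h3 i]
        simp
      · rw [if_neg (by intro h; apply hpq; simpa using h), mul_zero,
          ← h2 k l k' l' hkl hkl' hpq]
        refine Finset.sum_congr rfl fun i _ => ?_
        simp [HM]
  · intro h
    have hent : ∀ p q, ∑ i, HM r p i * conj (HM r q i) = (N : ℂ) * if p = q then 1 else 0 := by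
      intro p q
      have h3 := congrFun (congrFun h p) q
      rw [Matrix.mul_apply, Matrix.smul_apply, Matrix.one_apply, smul_eq_mul] at h3
      simpa only [Matrix.conjTranspose_apply, RCLike.star_def] using h3
    refine ⟨fun k l hkl => ?_, fun k l k' l' hkl hkl' hne => ?_⟩
    · have h3 := hent (some ⟨(k, l), hkl⟩) none
      rw [if_neg (by simp), mul_zero] at h3
      rw [← h3]
      refine Finset.sum_congr rfl fun i _ => ?_
      simp [HM]
    · have h3 := hent (some ⟨(k, l), hkl⟩) (some ⟨(k', l'), hkl'⟩)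
      rw [if_neg (by intro h'; apply hne; simpa using h'), mul_zero] at h3
      rw [← h3]
      refine Finset.sum_congr rfl fun i _ => ?_
      simp [HM]

theorem gram_HM (r : Fin d → Fin N → ℂ) (hr : ∀ k i, ‖r k i‖ = 1) (i j : Fin N) :
    ((HM r).conjTranspose * HM r) i j =
      (∑ k, conj (r k i) * r k j) * conj (∑ k, conj (r k i) * r k j) - d + 1 := by
  rw [Matrix.mul_apply, Fintype.sum_option]
  simp only [Matrix.conjTranspose_apply, RCLike.star_def, HM, Matrix.of_apply, map_one, mul_one]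
  have h1 : (∑ k, conj (r k i) * r k j) * conj (∑ k, conj (r k i) * r k j) =
      ∑ p : Fin d × Fin d, conj (r p.1 i * conj (r p.2 i)) * (r p.1 j * conj (r p.2 j)) := by
    rw [map_sum, Finset.sum_mul_sum, Fintype.sum_prod_type]
    refine Finset.sum_congr rfl fun k _ => Finset.sum_congr rfl fun l _ => ?_
    simp only [map_mul, Complex.conj_conj]
    ring
  have h2 : ∑ p : Fin d × Fin d, conj (r p.1 i * conj (r p.2 i)) * (r p.1 j * conj (r p.2 j)) =
      ∑ p : {p : Fin d × Fin d // p.1 = p.2},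
        conj (r p.1.1 i * conj (r p.1.2 i)) * (r p.1.1 j * conj (r p.1.2 j)) +
      ∑ p : {p : Fin d × Fin d // p.1 ≠ p.2},
        conj (r p.1.1 i * conj (r p.1.2 i)) * (r p.1.1 j * conj (r p.1.2 j)) :=
    (Fintype.sum_subtype_add_sum_subtype (fun p : Fin d × Fin d => p.1 = p.2)
      (fun p => conj (r p.1 i * conj (r p.2 i)) * (r p.1 j * conj (r p.2 j)))).symm
  have h3 : ∑ p : {p : Fin d × Fin d // p.1 = p.2},
        conj (r p.1.1 i * conj (r p.1.2 i)) * (r p.1.1 j * conj (r p.1.2 j)) = (d : ℂ) := by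
    have h4 : ∀ p : {p : Fin d × Fin d // p.1 = p.2},
        conj (r p.1.1 i * conj (r p.1.2 i)) * (r p.1.1 j * conj (r p.1.2 j)) = 1 := by
      rintro ⟨⟨a, b⟩, h⟩
      simp only at h
      subst h
      simp only
      rw [conj_mul_self_of_norm (hr a i), conj_mul_self_of_norm (hr a j)]
      simp
    rw [Finset.sum_congr rfl fun p _ => h4 p]
    have h5 : Fintype.card {p : Fin d × Fin d // p.1 = p.2} = d := by
      have e : {p : Fin d × Fin d // p.1 = p.2} ≃ Fin d :=
        { toFun := fun p => p.1.1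
          invFun := fun k => ⟨(k, k), rfl⟩
          left_inv := by
            rintro ⟨⟨a, b⟩, h⟩
            simp only at h
            subst h
            rfl
          right_inv := fun k => rfl }
      rw [Fintype.card_congr e, Fintype.card_fin]
    rw [Finset.sum_const, Finset.card_univ, h5]
    simp
  rw [h1, h2, h3]
  ring

/-- `Good` in terms of the columns. -/
theorem good_iff_cols (hd : 1 ≤ d) (hN : N = d ^ 2 - d + 1) (r : Fin d → Fin N → ℂ)
    (hr : ∀ k i, ‖r k i‖ = 1) :
    Good r ↔ ∀ i j, i ≠ j → ‖∑ k, conj (r k i) * r k j‖ ^ 2 = (d : ℝ) - 1 := by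
  have hN0 : (N : ℂ) ≠ 0 := by
    have : N ≠ 0 := by omega
    exact_mod_cast this
  have hcard : Fintype.card (Row d) = Fintype.card (Fin N) := by
    rw [card_row hd, Fintype.card_fin, hN]
  have hdd : d ≤ d ^ 2 := by nlinarith
  have hNd : (N : ℂ) = (d : ℂ) ^ 2 - d + 1 := by
    rw [hN]
    push_cast [Nat.cast_sub hdd]
    ring
  have hcomm : HM r * (HM r).conjTranspose = (N : ℂ) • (1 : Matrix (Row d) (Row d) ℂ) ↔
      (HM r).conjTranspose * HM r = (N : ℂ) • (1 : Matrix (Fin N) (Fin N) ℂ) := by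
    constructor
    · intro h
      have h1 : ((N : ℂ)⁻¹ • HM r) * (HM r).conjTranspose = 1 := by
        rw [Matrix.smul_mul, h, smul_smul, inv_mul_cancel₀ hN0, one_smul]
      have h2 := (Matrix.mul_eq_one_comm_of_card_eq (Row d) (Fin N) ℂ hcard).mp h1
      rw [Matrix.mul_smul] at h2
      rw [← h2, smul_smul, mul_inv_cancel₀ hN0, one_smul]
    · intro h
      have h1 : ((HM r).conjTranspose) * ((N : ℂ)⁻¹ • HM r) = 1 := by
        rw [Matrix.mul_smul, h, smul_smul, inv_mul_cancel₀ hN0, one_smul]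
      have h2 := (Matrix.mul_eq_one_comm_of_card_eq (Fin N) (Row d) ℂ hcard.symm).mp h1
      rw [Matrix.smul_mul] at h2
      rw [← h2, smul_smul, mul_inv_cancel₀ hN0, one_smul]
  have hent : ∀ i j, ((HM r).conjTranspose * HM r) i j =
      ((‖∑ k, conj (r k i) * r k j‖ ^ 2 - d + 1 : ℝ) : ℂ) := by
    intro i j
    rw [gram_HM r hr, Complex.mul_conj, Complex.normSq_eq_norm_sq]
    push_cast
    ring
  rw [good_iff r hr, hcomm]
  constructor
  · intro h i j hij
    have h1 := congrFun (congrFun h i) j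
    rw [hent, Matrix.smul_apply, Matrix.one_apply, if_neg hij, smul_zero] at h1
    have h2 : ‖∑ k, conj (r k i) * r k j‖ ^ 2 - d + 1 = 0 := by exact_mod_cast h1
    linarith
  · intro h
    ext i j
    rw [hent, Matrix.smul_apply, Matrix.one_apply, smul_eq_mul]
    by_cases hij : i = j
    · subst hij
      rw [if_pos rfl, mul_one, hNd]
      have h1 : ∑ k, conj (r k i) * r k i = (d : ℂ) := by
        have h2 : ∀ k, conj (r k i) * r k i = 1 := fun k => by
          rw [mul_comm]; exact conj_mul_self_of_norm (hr k i)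
        rw [Finset.sum_congr rfl fun k _ => h2 k]
        simp
      rw [h1]
      simp
    · rw [if_neg hij, mul_zero, h i j hij]
      push_cast
      ring

end Pool.Agent.H103R3.Flat
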