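import Mathlib
import Pool.Agent.H103R3.Completion
import Pool.Agent.H103R3.Blocks

set_option autoImplicit false
set_option linter.unusedSectionVars false

namespace Pool.Agent.H103R3.FrameCrit

open scoped InnerProductSpace ComplexConjugate
open Pool.Agent.H103R3

variable {d : ℕ}

/-- A SIC-angled family of `d²` unit vectors satisfies the design identity. -/
theorem sic_design (hd : 0 < d) {κ : Type*} [Fintype κ] (hcard : Fintype.card κ = d ^ 2)
    (e : κ → EuclideanSpace ℂ (Fin d)) (h1 : ∀ k, ‖e k‖ = 1)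
    (h2 : ∀ k l, k ≠ l → ‖⟪e k, e l⟫_ℂ‖ = 1 / Real.sqrt ((d : ℝ) + 1))
    (u v w z : EuclideanSpace ℂ (Fin d)) :
    ∑ k, (⟪u, e k⟫_ℂ * ⟪e k, v⟫_ℂ) * (⟪w, e k⟫_ℂ * ⟪e k, z⟫_ℂ) =
        ((d : ℂ) / (d + 1)) * (⟪u, z⟫_ℂ * ⟪w, v⟫_ℂ + ⟪u, v⟫_ℂ * ⟪w, z⟫_ℂ) := by
  let f := Fintype.equivFin κ
  obtain ⟨m, A, hm, -, hK⟩ := exists_complement hd (fun i => e (f.symm i)) (fun i => h1 _)
    (fun i j hij => h2 _ _ (fun h => hij (f.symm.injective h)))
  have hm0 : m = 0 := by omega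
  subst hm0
  have h := hK u v w z
  rw [Finset.univ_eq_empty, Finset.sum_empty, zero_add] at h
  rw [← h]
  exact (Equiv.sum_comp f.symm
    (fun k => (⟪u, e k⟫_ℂ * ⟪e k, v⟫_ℂ) * (⟪w, e k⟫_ℂ * ⟪e k, z⟫_ℂ))).symm

/-- Resolution of the identity. -/
theorem sic_frame (hd : 0 < d) {κ : Type*} [Fintype κ] (hcard : Fintype.card κ = d ^ 2)
    (e : κ → EuclideanSpace ℂ (Fin d)) (h1 : ∀ k, ‖e k‖ = 1)
    (h2 : ∀ k l, k ≠ l → ‖⟪e k, e l⟫_ℂ‖ = 1 / Real.sqrt ((d : ℝ) + 1))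
    (u v : EuclideanSpace ℂ (Fin d)) :
    ∑ k, ⟪u, e k⟫_ℂ * ⟪e k, v⟫_ℂ = (d : ℂ) * ⟪u, v⟫_ℂ := by
  have hid := sic_design hd hcard e h1 h2
  rw [← contract_rhs u v, ← Finset.sum_congr rfl fun k _ => hid u v _ _, contract]
  refine Finset.sum_congr rfl fun k _ => ?_
  rw [inner_self_eq_norm_sq_to_K, h1]
  simp

/-- The core: the rank bound, and the completion in the case of equality. -/
theorem core (hd : 0 < d) {N : ℕ} (x : Fin N → EuclideanSpace ℂ (Fin d))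
    (hx1 : ∀ i, ‖x i‖ = 1)
    (hx2 : ∀ i j, i ≠ j → ‖⟪x i, x j⟫_ℂ‖ = 1 / Real.sqrt ((d : ℝ) + 1)) :
    Module.finrank ℂ (LinearMap.range (Cop (d : ℝ) x)) + N ≤ d ^ 2 ∧
    (Module.finrank ℂ (LinearMap.range (Cop (d : ℝ) x)) + N = d ^ 2 →
    ∃ (m : ℕ) (y : Fin m → EuclideanSpace ℂ (Fin d)), N + m = d ^ 2 ∧ LinearIndependent ℂ y ∧
      ∀ u v w z : EuclideanSpace ℂ (Fin d),
      ∑ k : Fin N ⊕ Fin m, (⟪u, Sum.elim x y k⟫_ℂ * ⟪Sum.elim x y k, v⟫_ℂ) *
        (⟪w, Sum.elim x y k⟫_ℂ * ⟪Sum.elim x y k, z⟫_ℂ) =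
        ((d : ℂ) / (d + 1)) * (⟪u, z⟫_ℂ * ⟪w, v⟫_ℂ + ⟪u, v⟫_ℂ * ⟪w, z⟫_ℂ)) := by
  classical
  obtain ⟨m, A, hm, hsym, hK⟩ := exists_complement hd x hx1 hx2
  have hd' : (0 : ℝ) < (d : ℝ) := by exact_mod_cast hd
  have hxx1 : ∀ i, ⟪x i, x i⟫_ℂ = 1 := by
    intro i
    rw [inner_self_eq_norm_sq_to_K, hx1]; simp
  have hS : Bisym A := by
    intro a b c e
    have h1 := hK a c b e
    have h2 := hK a e b c
    have h3 : ∑ i, (⟪a, x i⟫_ℂ * ⟪x i, c⟫_ℂ) * (⟪b, x i⟫_ℂ * ⟪x i, e⟫_ℂ) =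
        ∑ i, (⟪a, x i⟫_ℂ * ⟪x i, e⟫_ℂ) * (⟪b, x i⟫_ℂ * ⟪x i, c⟫_ℂ) :=
      Finset.sum_congr rfl fun i _ => by ring
    rw [h3] at h1
    have h4 : (⟪a, e⟫_ℂ * ⟪b, c⟫_ℂ + ⟪a, c⟫_ℂ * ⟪b, e⟫_ℂ) =
      (⟪a, c⟫_ℂ * ⟪b, e⟫_ℂ + ⟪a, e⟫_ℂ * ⟪b, c⟫_ℂ) := by ring
    rw [h4, ← h2] at h1
    exact add_right_cancel h1
  obtain ⟨a, ha⟩ := exists_generic hsym hS
  have hZ : ∀ f ∈ (V A a)ᗮ, Cop (d : ℝ) x f = 0 := by
    intro f hf
    have hAf : ∀ j, A j f = 0 := ha f ((mem_V_orth A a f).mp hf)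
    have h0 : ∀ u, ⟪u, Cop (d : ℝ) x f⟫_ℂ = 0 := by
      intro u
      have h1 : ∑ k, (∑ j, ⟪u, A j f⟫_ℂ * ⟪EuclideanSpace.basisFun (Fin d) ℂ k,
          A j (EuclideanSpace.basisFun (Fin d) ℂ k)⟫_ℂ +
          ∑ i, (⟪u, x i⟫_ℂ * ⟪x i, f⟫_ℂ) * (⟪EuclideanSpace.basisFun (Fin d) ℂ k, x i⟫_ℂ *
            ⟪x i, EuclideanSpace.basisFun (Fin d) ℂ k⟫_ℂ)) = (d : ℂ) * ⟪u, f⟫_ℂ := by
        rw [Finset.sum_congr rfl fun k _ => hK u f _ _, contract_rhs]
      simp only [hAf, inner_zero_right, zero_mul, Finset.sum_const_zero, zero_add] at h1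
      rw [contract] at h1
      rw [Cop_apply, inner_sub_right, inner_smul_right, inner_sum, Complex.ofReal_natCast, ← h1,
        sub_eq_zero]
      refine Finset.sum_congr rfl fun i _ => ?_
      rw [hxx1, inner_smul_right]
      ring
    exact inner_self_eq_zero.mp (h0 _)
  have hrm : Module.finrank ℂ (V A a) ≤ m := by
    have h := finrank_range_le_card (R := ℂ) (fun j => A j a)
    rw [Fintype.card_fin] at h
    exact h
  have hrange : LinearMap.range (Cop (d : ℝ) x) ≤ V A a := by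
    rintro _ ⟨u, rfl⟩
    rw [← Submodule.orthogonal_orthogonal (V A a), Submodule.mem_orthogonal]
    intro f hf
    rw [← Cop_symm, hZ f hf, inner_zero_left]
  have hle : Module.finrank ℂ (LinearMap.range (Cop (d : ℝ) x)) ≤ Module.finrank ℂ (V A a) :=
    Submodule.finrank_mono hrange
  refine ⟨by omega, fun heq => ?_⟩
  have hcard : m = Module.finrank ℂ (V A a) := by omega
  have hli : LinearIndependent ℂ fun j => A j a := by
    rw [linearIndependent_iff_card_le_finrank_span, Fintype.card_fin]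
    exact hcard.le
  obtain ⟨z, l, hz, hzl⟩ := structure_theorem hsym hS ha hli
  have hcm : Fintype.card (Fin m) = m := Fintype.card_fin m
  have hid : ∀ u v w z' : EuclideanSpace ℂ (Fin d),
      ∑ k : Fin N ⊕ Fin (Fintype.card (Fin m)),
        (⟪u, Sum.elim x (fun i => ((Real.sqrt |l i| : ℝ) : ℂ) • z i) k⟫_ℂ *
          ⟪Sum.elim x (fun i => ((Real.sqrt |l i| : ℝ) : ℂ) • z i) k, v⟫_ℂ) *
        (⟪w, Sum.elim x (fun i => ((Real.sqrt |l i| : ℝ) : ℂ) • z i) k⟫_ℂ *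
          ⟪Sum.elim x (fun i => ((Real.sqrt |l i| : ℝ) : ℂ) • z i) k, z'⟫_ℂ) =
        ((d : ℂ) / (d + 1)) * (⟪u, z'⟫_ℂ * ⟪w, v⟫_ℂ + ⟪u, v⟫_ℂ * ⟪w, z'⟫_ℂ) := by
    intro u v w q
    rw [Fintype.sum_sum_type]
    simp only [Sum.elim_inl, Sum.elim_inr]
    rw [← hK u v w q, add_comm]
    congr 1
    rw [hzl]
    refine Finset.sum_congr rfl fun i _ => ?_
    simp only [inner_smul_left, inner_smul_right, Complex.conj_ofReal]
    have h1 : ((Real.sqrt |l i| : ℝ) : ℂ) * ((Real.sqrt |l i| : ℝ) : ℂ) = ((|l i| : ℝ) : ℂ) := by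
      rw [← Complex.ofReal_mul, Real.mul_self_sqrt (abs_nonneg _)]
    have h2 : ((|l i| : ℝ) : ℂ) * ((|l i| : ℝ) : ℂ) = (l i : ℂ) * (l i : ℂ) := by
      rw [← Complex.ofReal_mul, abs_mul_abs_self, Complex.ofReal_mul]
    calc _ = (((Real.sqrt |l i| : ℝ) : ℂ) * ((Real.sqrt |l i| : ℝ) : ℂ)) *
          (((Real.sqrt |l i| : ℝ) : ℂ) * ((Real.sqrt |l i| : ℝ) : ℂ)) *
          ((⟪u, z i⟫_ℂ * ⟪z i, v⟫_ℂ) * (⟪w, z i⟫_ℂ * ⟪z i, q⟫_ℂ)) := by ring
      _ = _ := by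
        rw [h1, h2]
        ring
  have hcard2 : Fintype.card (Fin N ⊕ Fin (Fintype.card (Fin m))) = d ^ 2 := by
    rw [Fintype.card_sum, Fintype.card_fin, Fintype.card_fin, hcm]
    omega
  have hsic := design_sic hd hcard2 _ hid
  refine ⟨Fintype.card (Fin m), fun i => ((Real.sqrt |l i| : ℝ) : ℂ) • z i, by omega, ?_, hid⟩
  rw [Fintype.linearIndependent_iff] at hz ⊢
  intro g hg i
  have h1 := hz (fun i => g i * ((Real.sqrt |l i| : ℝ) : ℂ)) (by
    rw [← hg]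
    exact Finset.sum_congr rfl fun i _ => (smul_smul _ _ _).symm) i
  have h2 := hsic.1 (Sum.inr i)
  simp only [Sum.elim_inr] at h2
  rcases mul_eq_zero.mp h1 with h3 | h3
  · exact h3
  · rw [h3, zero_smul, norm_zero] at h2
    exact absurd h2 zero_ne_one

/-- The converse: the rank of the defect of a subfamily of a maximal ETF with independent
complement. -/
theorem rank_of_completion (hd : 0 < d) {N m : ℕ} (x : Fin N → EuclideanSpace ℂ (Fin d))
    (y : Fin m → EuclideanSpace ℂ (Fin d)) (hNm : N + m = d ^ 2) (hy : LinearIndependent ℂ y)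
    (h1 : ∀ k, ‖Sum.elim x y k‖ = 1)
    (h2 : ∀ k l, k ≠ l → ‖⟪Sum.elim x y k, Sum.elim x y l⟫_ℂ‖ = 1 / Real.sqrt ((d : ℝ) + 1)) :
    Module.finrank ℂ (LinearMap.range (Cop (d : ℝ) x)) = m := by
  classical
  have hcard : Fintype.card (Fin N ⊕ Fin m) = d ^ 2 := by
    rw [Fintype.card_sum, Fintype.card_fin, Fintype.card_fin, hNm]
  have hfr := sic_frame hd hcard _ h1 h2
  have hC : ∀ v, Cop (d : ℝ) x v = ∑ j, ⟪y j, v⟫_ℂ • y j := by
    intro v
    refine ext_inner_left ℂ fun u => ?_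
    have h := hfr u v
    rw [Fintype.sum_sum_type] at h
    simp only [Sum.elim_inl, Sum.elim_inr] at h
    rw [Cop_apply, inner_sub_right, inner_smul_right, inner_sum, inner_sum, Complex.ofReal_natCast,
      ← h]
    have e1 : ∑ i, ⟪u, ⟪x i, v⟫_ℂ • x i⟫_ℂ = ∑ i, ⟪u, x i⟫_ℂ * ⟪x i, v⟫_ℂ := by
      refine Finset.sum_congr rfl fun i _ => ?_
      rw [inner_smul_right]
      ring
    rw [e1, add_sub_cancel_left]
    refine Finset.sum_congr rfl fun i _ => ?_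
    rw [inner_smul_right]
    ring
  have hker : LinearMap.ker (Cop (d : ℝ) x) = (Submodule.span ℂ (Set.range y))ᗮ := by
    ext v
    rw [LinearMap.mem_ker, Submodule.mem_orthogonal]
    constructor
    · intro hv
      rw [hC] at hv
      have h3 := Fintype.linearIndependent_iff.mp hy _ hv
      intro u hu
      induction hu using Submodule.span_induction with
      | mem u hu =>
        obtain ⟨j, rfl⟩ := hu
        exact h3 j
      | zero => exact inner_zero_left _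
      | add a b _ _ ha hb => rw [inner_add_left, ha, hb, add_zero]
      | smul c a _ ha => rw [inner_smul_left, ha, mul_zero]
    · intro hv
      rw [hC]
      refine Finset.sum_eq_zero fun j _ => ?_
      rw [hv (y j) (Submodule.subset_span ⟨j, rfl⟩), zero_smul]
  have h3 := LinearMap.finrank_range_add_finrank_ker (Cop (d : ℝ) x)
  have h4 := Submodule.finrank_add_finrank_orthogonal (Submodule.span ℂ (Set.range y))
  have h5 := finrank_span_eq_card hy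
  rw [Fintype.card_fin] at h5
  rw [hker] at h3
  omega

/-- Kruskal-type uniqueness of the completion. -/
theorem unique_completion (hd : 0 < d) {N m : ℕ} (x : Fin N → EuclideanSpace ℂ (Fin d))
    (y : Fin m → EuclideanSpace ℂ (Fin d)) (hNm : N + m = d ^ 2)
    (h1 : ∀ k, ‖Sum.elim x y k‖ = 1)
    (h2 : ∀ k l, k ≠ l → ‖⟪Sum.elim x y k, Sum.elim x y l⟫_ℂ‖ = 1 / Real.sqrt ((d : ℝ) + 1))
    (ρ : ℕ) (hρ : ∀ S : Finset (Fin m), S.card ≤ ρ → LinearIndependent ℂ (fun i : S => y i))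
    (hm : m ≤ ρ ∨ m + 2 ≤ 2 * ρ)
    (w : EuclideanSpace ℂ (Fin d)) (hw : ‖w‖ = 1)
    (hwx : ∀ i, ‖⟪x i, w⟫_ℂ‖ = 1 / Real.sqrt ((d : ℝ) + 1)) :
    ∃ (j : Fin m) (c : ℂ), w = c • y j := by
  classical
  have hcard : Fintype.card (Fin N ⊕ Fin m) = d ^ 2 := by
    rw [Fintype.card_sum, Fintype.card_fin, Fintype.card_fin, hNm]
  have hres := sic_frame hd hcard _ h1 h2
  have hid := sic_design hd hcard _ h1 h2
  have hd1 : (d : ℂ) + 1 ≠ 0 := by exact_mod_cast Nat.succ_ne_zero d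
  have hd0 : (d : ℂ) ≠ 0 := by exact_mod_cast hd.ne'
  have hww : ⟪w, w⟫_ℂ = 1 := by
    rw [inner_self_eq_norm_sq_to_K, hw]; simp
  set c : Fin m → ℂ := fun i => ⟪w, y i⟫_ℂ * ⟪y i, w⟫_ℂ - 1 / ((d : ℂ) + 1) with hc
  have hmain : ∀ u v, ((d : ℂ) / (d + 1)) * (⟪u, w⟫_ℂ * ⟪w, v⟫_ℂ) =
      ∑ i, c i * (⟪u, y i⟫_ℂ * ⟪y i, v⟫_ℂ) := by
    intro u v
    have h1 := hid u v w w
    have h2 := hres u v
    have h3 : ∑ k : Fin N ⊕ Fin m, (⟪w, Sum.elim x y k⟫_ℂ * ⟪Sum.elim x y k, w⟫_ℂ -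
        1 / ((d : ℂ) + 1)) * (⟪u, Sum.elim x y k⟫_ℂ * ⟪Sum.elim x y k, v⟫_ℂ) =
        ((d : ℂ) / (d + 1)) * (⟪u, w⟫_ℂ * ⟪w, v⟫_ℂ) := by
      have h4 : ∀ k : Fin N ⊕ Fin m, (⟪w, Sum.elim x y k⟫_ℂ * ⟪Sum.elim x y k, w⟫_ℂ -
        1 / ((d : ℂ) + 1)) * (⟪u, Sum.elim x y k⟫_ℂ * ⟪Sum.elim x y k, v⟫_ℂ) =
        (⟪u, Sum.elim x y k⟫_ℂ * ⟪Sum.elim x y k, v⟫_ℂ) *
        (⟪w, Sum.elim x y k⟫_ℂ * ⟪Sum.elim x y k, w⟫_ℂ) -
        (1 / ((d : ℂ) + 1)) * (⟪u, Sum.elim x y k⟫_ℂ * ⟪Sum.elim x y k, v⟫_ℂ) := fun k => by ring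
      rw [Finset.sum_congr rfl fun k _ => h4 k, Finset.sum_sub_distrib, ← Finset.mul_sum, h1, h2,
        hww]
      field_simp
      ring
    rw [← h3, Fintype.sum_sum_type]
    simp only [Sum.elim_inl, Sum.elim_inr]
    have h5 : ∀ i, (⟪w, x i⟫_ℂ * ⟪x i, w⟫_ℂ - 1 / ((d : ℂ) + 1)) * (⟪u, x i⟫_ℂ * ⟪x i, v⟫_ℂ) = 0 := by
      intro i
      have h6 := inner_mul_inner_of (hwx i)
      rw [mul_comm ⟪w, x i⟫_ℂ, h6]
      push_cast
      ring
    rw [Finset.sum_congr rfl fun i _ => h5 i, Finset.sum_const_zero, zero_add]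
  have hδ : (d : ℂ) / (d + 1) ≠ 0 := div_ne_zero hd0 hd1
  -- two different nonzero coefficients are impossible
  have htwo : ∀ j₁ j₂ : Fin m, j₁ ≠ j₂ → c j₁ * c j₂ = 0 := by
    intro j₁ j₂ hj
    set T : Finset (Fin m) := (Finset.univ.erase j₁).erase j₂ with hT
    have hTc : T.card + 2 = m := by
      rw [hT, Finset.card_erase_of_mem (Finset.mem_erase.mpr ⟨hj.symm, Finset.mem_univ _⟩),
        Finset.card_erase_of_mem (Finset.mem_univ _), Finset.card_univ, Fintype.card_fin]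
      have h3 : 2 ≤ m := by
        have h4 := Fintype.card_le_of_injective (fun b : Bool => if b then j₁ else j₂) (by
          intro b b' h
          cases b <;> cases b' <;> simp_all)
        simpa using h4
      omega
    have hTρ : T.card ≤ 2 * (ρ - 2) := by omega
    have hρ2 : 2 ≤ ρ := by omega
    obtain ⟨S, hST, hScard⟩ := Finset.exists_subset_card_eq (Nat.min_le_left T.card (ρ - 2))
    have hS'card : (T \ S).card ≤ ρ - 2 := by
      rw [Finset.card_sdiff_of_subset hST, hScard]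
      omega
    have hScard' : S.card ≤ ρ - 2 := by rw [hScard]; exact Nat.min_le_right _ _
    have hind : ∀ U : Finset (Fin m), U.card ≤ ρ - 2 →
        LinearIndependent ℂ (fun i : (insert j₁ (insert j₂ U) : Finset (Fin m)) => y i) := by
      intro U hU
      apply hρ
      have h3 := Finset.card_insert_le j₁ (insert j₂ U)
      have h4 := Finset.card_insert_le j₂ U
      omega
    have hmem : ∀ U : Finset (Fin m), ∀ i, i = j₁ ∨ i = j₂ ∨ i ∈ U →
        i ∈ insert j₁ (insert j₂ U) := by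
      intro U i hi
      rw [Finset.mem_insert, Finset.mem_insert]
      exact hi
    obtain ⟨u, hu, -⟩ := Blocks.exists_dual y _ (hind S hScard') j₁
    obtain ⟨v, hv, -⟩ := Blocks.exists_dual y _ (hind S hScard') j₂
    obtain ⟨p, -, hp⟩ := Blocks.exists_dual y _ (hind (T \ S) hS'card) j₁
    obtain ⟨q, -, hq⟩ := Blocks.exists_dual y _ (hind (T \ S) hS'card) j₂
    have hcases : ∀ i, i = j₁ ∨ i = j₂ ∨ i ∈ S ∨ i ∈ T \ S := by
      intro i
      by_cases h3 : i = j₁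
      · exact Or.inl h3
      by_cases h4 : i = j₂
      · exact Or.inr (Or.inl h4)
      have h5 : i ∈ T := by
        rw [hT, Finset.mem_erase, Finset.mem_erase]
        exact ⟨h4, h3, Finset.mem_univ _⟩
      by_cases h6 : i ∈ S
      · exact Or.inr (Or.inr (Or.inl h6))
      · exact Or.inr (Or.inr (Or.inr (Finset.mem_sdiff.mpr ⟨h5, h6⟩)))
    have hT1 : ∀ i ∈ T, i ≠ j₁ ∧ i ≠ j₂ := by
      intro i hi
      rw [hT, Finset.mem_erase, Finset.mem_erase] at hi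
      exact ⟨hi.2.1, hi.1⟩
    have hS0 : ∀ i ∈ S, ⟪u, y i⟫_ℂ = 0 ∧ ⟪v, y i⟫_ℂ = 0 := by
      intro i hi
      rw [hu i (hmem S i (Or.inr (Or.inr hi))), hv i (hmem S i (Or.inr (Or.inr hi))),
        if_neg (hT1 i (hST hi)).1, if_neg (hT1 i (hST hi)).2]
      exact ⟨rfl, rfl⟩
    have hS0' : ∀ i ∈ T \ S, ⟪y i, p⟫_ℂ = 0 ∧ ⟪y i, q⟫_ℂ = 0 := by
      intro i hi
      have hiT : i ∈ T := Finset.sdiff_subset hi
      rw [hp i (hmem _ i (Or.inr (Or.inr hi))), hq i (hmem _ i (Or.inr (Or.inr hi))),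
        if_neg (hT1 i hiT).1, if_neg (hT1 i hiT).2]
      exact ⟨rfl, rfl⟩
    have m1 : ((d : ℂ) / (d + 1)) * (⟪u, w⟫_ℂ * ⟪w, p⟫_ℂ) = c j₁ := by
      rw [hmain, Finset.sum_eq_single j₁]
      · rw [hu j₁ (hmem _ _ (Or.inl rfl)), hp j₁ (hmem _ _ (Or.inl rfl)), if_pos rfl]
        ring
      · intro i _ hi
        rcases hcases i with h | h | h | h
        · exact absurd h hi
        · rw [h, hu j₂ (hmem _ _ (Or.inr (Or.inl rfl))), if_neg hj.symm]
          ring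
        · rw [(hS0 i h).1]
          ring
        · rw [(hS0' i h).1]
          ring
      · intro h
        exact absurd (Finset.mem_univ _) h
    have m2 : ((d : ℂ) / (d + 1)) * (⟪v, w⟫_ℂ * ⟪w, q⟫_ℂ) = c j₂ := by
      rw [hmain, Finset.sum_eq_single j₂]
      · rw [hv j₂ (hmem _ _ (Or.inr (Or.inl rfl))), hq j₂ (hmem _ _ (Or.inr (Or.inl rfl))),
          if_pos rfl]
        ring
      · intro i _ hi
        rcases hcases i with h | h | h | h
        · rw [h, hv j₁ (hmem _ _ (Or.inl rfl)), if_neg hj]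
          ring
        · exact absurd h hi
        · rw [(hS0 i h).2]
          ring
        · rw [(hS0' i h).2]
          ring
      · intro h
        exact absurd (Finset.mem_univ _) h
    have m3 : ((d : ℂ) / (d + 1)) * (⟪u, w⟫_ℂ * ⟪w, q⟫_ℂ) = 0 := by
      rw [hmain]
      refine Finset.sum_eq_zero fun i _ => ?_
      rcases hcases i with h | h | h | h
      · rw [h, hq j₁ (hmem _ _ (Or.inl rfl)), if_neg hj]
        ring
      · rw [h, hu j₂ (hmem _ _ (Or.inr (Or.inl rfl))), if_neg hj.symm]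
        ring
      · rw [(hS0 i h).1]
        ring
      · rw [(hS0' i h).2]
        ring
    rw [← m1, ← m2]
    linear_combination ((d : ℂ) / (d + 1)) * (⟪v, w⟫_ℂ * ⟪w, p⟫_ℂ) * m3
  have hex : ∃ j, c j ≠ 0 := by
    by_contra hcon
    push Not at hcon
    have h3 := hmain w w
    rw [hww] at h3
    have h4 : ∑ i, c i * (⟪w, y i⟫_ℂ * ⟪y i, w⟫_ℂ) = 0 :=
      Finset.sum_eq_zero fun i _ => by rw [hcon i, zero_mul]
    rw [h4, mul_one, mul_one] at h3
    exact hδ h3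
  obtain ⟨j, hj⟩ := hex
  refine ⟨j, (((d : ℂ) + 1) / d) * (c j * ⟪y j, w⟫_ℂ), ?_⟩
  refine ext_inner_left ℂ fun u => ?_
  have h3 := hmain u w
  rw [hww, mul_one, Finset.sum_eq_single j] at h3
  · rw [inner_smul_right]
    field_simp at h3 ⊢
    linear_combination h3
  · intro i _ hi
    have h4 := htwo j i (Ne.symm hi)
    rw [(mul_eq_zero.mp h4).resolve_left hj, zero_mul]
  · intro h
    exact absurd (Finset.mem_univ _) h

/-- From a maximal ETF one can remove `d` linearly independent vectors. -/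
theorem exists_split (hd : 0 < d) (e : Fin (d ^ 2) → EuclideanSpace ℂ (Fin d))
    (h1 : ∀ k, ‖e k‖ = 1)
    (h2 : ∀ k l, k ≠ l → ‖⟪e k, e l⟫_ℂ‖ = 1 / Real.sqrt ((d : ℝ) + 1)) :
    ∃ (φ : Fin (d ^ 2 - d) → Fin (d ^ 2)) (b : Fin d → Fin (d ^ 2)),
      Function.Injective (Sum.elim φ b) ∧ LinearIndependent ℂ (fun i => e (b i)) := by
  classical
  have hfr := sic_frame hd (by simp) e h1 h2
  have hd0 : (d : ℂ) ≠ 0 := by exact_mod_cast hd.ne'
  have hspan : Submodule.span ℂ (Set.range e) = ⊤ := by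
    rw [← Submodule.orthogonal_eq_bot_iff, Submodule.eq_bot_iff]
    intro u hu
    rw [Submodule.mem_orthogonal] at hu
    have h := hfr u u
    have h0 : ∑ k, ⟪u, e k⟫_ℂ * ⟪e k, u⟫_ℂ = 0 := by
      refine Finset.sum_eq_zero fun k _ => ?_
      rw [hu (e k) (Submodule.subset_span ⟨k, rfl⟩), mul_zero]
    rw [h0] at h
    exact inner_self_eq_zero.mp ((mul_eq_zero.mp h.symm).resolve_left hd0)
  obtain ⟨f, hf1, -, hf3⟩ := Submodule.exists_fun_fin_finrank_span_eq ℂ (Set.range e)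
  have hfin : Module.finrank ℂ (Submodule.span ℂ (Set.range e)) = d := by
    rw [hspan, finrank_top, finrank_euclideanSpace_fin]
  choose g hg using hf1
  have hginj : Function.Injective g := by
    intro i j hij
    apply hf3.injective
    rw [← hg i, ← hg j, hij]
  let b : Fin d → Fin (d ^ 2) := fun i => g (Fin.cast hfin.symm i)
  have hb : Function.Injective b := fun i j h => Fin.cast_injective _ (hginj h)
  have hbl : LinearIndependent ℂ (fun i => e (b i)) := by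
    have h3 : (fun i => e (b i)) = f ∘ (Fin.cast hfin.symm) := by
      funext i
      exact hg _
    rw [h3]
    exact hf3.comp _ (Fin.cast_injective _)
  have hcard : Fintype.card {i : Fin (d ^ 2) // i ∉ Set.range b} = d ^ 2 - d := by
    rw [Fintype.card_subtype_compl, Fintype.card_fin]
    congr 1
    have h4 := Set.card_range_of_injective hb
    rw [Fintype.card_fin] at h4
    exact h4
  let ψ : Fin (d ^ 2 - d) ≃ {i : Fin (d ^ 2) // i ∉ Set.range b} :=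
    (Fintype.equivFinOfCardEq hcard).symm
  refine ⟨fun i => (ψ i : Fin (d ^ 2)), b, ?_, hbl⟩
  rintro (i | i) (j | j) hij
  · simp only [Sum.elim_inl] at hij
    rw [ψ.injective (Subtype.ext hij)]
  · simp only [Sum.elim_inl, Sum.elim_inr] at hij
    exact absurd ⟨j, hij.symm⟩ (ψ i).2
  · simp only [Sum.elim_inl, Sum.elim_inr] at hij
    exact absurd ⟨i, hij⟩ (ψ j).2
  · simp only [Sum.elim_inr] at hij
    rw [hb hij]

/-- Existence of a maximal ETF in terms of `d² - d` vectors. -/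
theorem reduced (hd : 0 < d) :
    (∃ e : Fin (d ^ 2) → EuclideanSpace ℂ (Fin d), (∀ k, ‖e k‖ = 1) ∧
      ∀ k l, k ≠ l → ‖⟪e k, e l⟫_ℂ‖ = 1 / Real.sqrt ((d : ℝ) + 1)) ↔
    ∃ x : Fin (d ^ 2 - d) → EuclideanSpace ℂ (Fin d), ((∀ k, ‖x k‖ = 1) ∧
      ∀ k l, k ≠ l → ‖⟪x k, x l⟫_ℂ‖ = 1 / Real.sqrt ((d : ℝ) + 1)) ∧
      LinearMap.ker (Cop (d : ℝ) x) = ⊥ := by
  classical
  have hdd : d ≤ d ^ 2 := by nlinarith
  constructor
  · rintro ⟨e, h1, h2⟩
    obtain ⟨φ, b, hinj, hli⟩ := exists_split hd e h1 h2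
    have hel : ∀ k, Sum.elim (fun i => e (φ i)) (fun i => e (b i)) k = e (Sum.elim φ b k) := by
      rintro (k | k) <;> rfl
    refine ⟨fun i => e (φ i), ⟨fun k => h1 _, fun k l hkl => h2 _ _ fun h => hkl ?_⟩, ?_⟩
    · have h3 := hinj (a₁ := Sum.inl k) (a₂ := Sum.inl l) h
      exact Sum.inl_injective h3
    · have h3 := rank_of_completion hd (fun i => e (φ i)) (fun i => e (b i)) (by omega) hli
        (fun k => by rw [hel]; exact h1 _)
        (fun k l hkl => by rw [hel, hel]; exact h2 _ _ (fun h => hkl (hinj h)))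
      have h4 := LinearMap.finrank_range_add_finrank_ker (Cop (d : ℝ) (fun i => e (φ i)))
      rw [h3, finrank_euclideanSpace_fin] at h4
      have h5 : Module.finrank ℂ (LinearMap.ker (Cop (d : ℝ) (fun i => e (φ i)))) = 0 := by omega
      exact Submodule.finrank_eq_zero.mp h5
  · rintro ⟨x, ⟨h1, h2⟩, hk⟩
    have h4 := LinearMap.finrank_range_add_finrank_ker (Cop (d : ℝ) x)
    rw [hk, finrank_bot, finrank_euclideanSpace_fin, add_zero] at h4
    obtain ⟨m, y, hm, -, hid⟩ := (core hd x h1 h2).2 (by rw [h4]; omega)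
    have hcard : Fintype.card (Fin (d ^ 2 - d) ⊕ Fin m) = d ^ 2 := by
      rw [Fintype.card_sum, Fintype.card_fin, Fintype.card_fin, hm]
    have hs := design_sic hd hcard (Sum.elim x y) hid
    let ψ := (Fintype.equivFinOfCardEq hcard).symm
    exact ⟨fun i => Sum.elim x y (ψ i), fun k => hs.1 _,
      fun k l hkl => hs.2 _ _ (fun h => hkl (ψ.injective h))⟩

end Pool.Agent.H103R3.FrameCrit
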